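import Pool.Agent.H2Sep.Defs

/-!
# Basic facts on matrix norms and cb norms
-/

open scoped ENNReal

namespace Pool.Agent.H2Sep

section matNorm

variable {H : Type} [NormedAddCommGroup H] [InnerProductSpace ℂ H] {k : ℕ}

lemma sum_bound (a : Fin k → Fin k → (H →L[ℂ] H)) (x : Fin k → H) :
    ∑ i, ‖∑ j, a i j (x j)‖ ^ 2 ≤ (∑ i, ∑ j, ‖a i j‖ ^ 2) * ∑ j, ‖x j‖ ^ 2 := by
  rw [Finset.sum_mul]
  refine Finset.sum_le_sum fun i _ => ?_
  have h1 : ‖∑ j, a i j (x j)‖ ≤ ∑ j, ‖a i j‖ * ‖x j‖ :=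
    (norm_sum_le _ _).trans (Finset.sum_le_sum fun j _ => (a i j).le_opNorm _)
  calc ‖∑ j, a i j (x j)‖ ^ 2 ≤ (∑ j, ‖a i j‖ * ‖x j‖) ^ 2 :=
        pow_le_pow_left₀ (norm_nonneg _) h1 2
    _ ≤ (∑ j, ‖a i j‖ ^ 2) * ∑ j, ‖x j‖ ^ 2 := Finset.sum_mul_sq_le_sq_mul_sq _ _ _

lemma matNorm_set_nonempty (a : Fin k → Fin k → (H →L[ℂ] H)) :
    {C : ℝ | 0 ≤ C ∧ ∀ x : Fin k → H,
      ∑ i, ‖∑ j, a i j (x j)‖ ^ 2 ≤ C ^ 2 * ∑ j, ‖x j‖ ^ 2}.Nonempty := by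
  refine ⟨Real.sqrt (∑ i, ∑ j, ‖a i j‖ ^ 2), Real.sqrt_nonneg _, fun x => ?_⟩
  rw [Real.sq_sqrt (by positivity)]
  exact sum_bound a x

lemma matNorm_nonneg (a : Fin k → Fin k → (H →L[ℂ] H)) : 0 ≤ matNorm a :=
  Real.sInf_nonneg fun _ h => h.1

lemma matNorm_le {a : Fin k → Fin k → (H →L[ℂ] H)} {D : ℝ} (hD : 0 ≤ D)
    (h : ∀ x : Fin k → H, ∑ i, ‖∑ j, a i j (x j)‖ ^ 2 ≤ D ^ 2 * ∑ j, ‖x j‖ ^ 2) :
    matNorm a ≤ D :=
  csInf_le ⟨0, fun _ h => h.1⟩ ⟨hD, h⟩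

lemma matNorm_spec (a : Fin k → Fin k → (H →L[ℂ] H)) (x : Fin k → H) :
    ∑ i, ‖∑ j, a i j (x j)‖ ^ 2 ≤ matNorm a ^ 2 * ∑ j, ‖x j‖ ^ 2 := by
  have h0 := matNorm_nonneg a
  have hB : 0 ≤ ∑ j, ‖x j‖ ^ 2 := by positivity
  have key : ∀ ε > 0, ∑ i, ‖∑ j, a i j (x j)‖ ^ 2 ≤ (matNorm a + ε) ^ 2 * ∑ j, ‖x j‖ ^ 2 := by
    intro ε hε
    obtain ⟨C, hC, hCe⟩ := exists_lt_of_csInf_lt (matNorm_set_nonempty a)
      (show sInf _ < matNorm a + ε from lt_add_of_pos_right _ hε)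
    refine (hC.2 x).trans (mul_le_mul_of_nonneg_right ?_ hB)
    exact pow_le_pow_left₀ hC.1 hCe.le 2
  have hlim : Filter.Tendsto (fun ε : ℝ => (matNorm a + ε) ^ 2 * ∑ j, ‖x j‖ ^ 2)
      (nhdsWithin 0 (Set.Ioi 0)) (nhds ((matNorm a + 0) ^ 2 * ∑ j, ‖x j‖ ^ 2)) := by
    refine tendsto_nhdsWithin_of_tendsto_nhds ?_
    exact (Continuous.tendsto (by fun_prop) 0)
  rw [add_zero] at hlim
  refine ge_of_tendsto hlim ?_
  filter_upwards [self_mem_nhdsWithin] with ε hε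
  exact key ε hε

lemma matNorm_smul (a : Fin k → Fin k → (H →L[ℂ] H)) (c : ℂ) :
    matNorm (fun i j => c • a i j) ≤ ‖c‖ * matNorm a := by
  refine matNorm_le (mul_nonneg (norm_nonneg _) (matNorm_nonneg _)) fun x => ?_
  have : ∀ i, ‖∑ j, (c • a i j) (x j)‖ ^ 2 = ‖c‖ ^ 2 * ‖∑ j, a i j (x j)‖ ^ 2 := by
    intro i
    simp_rw [smul_apply, ← Finset.smul_sum, norm_smul, mul_pow]
  simp_rw [this, ← Finset.mul_sum]
  rw [mul_pow, mul_assoc]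
  exact mul_le_mul_of_nonneg_left (matNorm_spec a x) (by positivity)

lemma matNorm_one (T : H →L[ℂ] H) : matNorm (k := 1) (fun _ _ => T) = ‖T‖ := by
  apply le_antisymm
  · refine matNorm_le (norm_nonneg _) fun x => ?_
    simp only [Finset.univ_unique, Fin.default_eq_zero, Fin.isValue, Finset.sum_singleton]
    rw [← mul_pow]
    exact pow_le_pow_left₀ (norm_nonneg _) (T.le_opNorm _) 2
  · refine T.opNorm_le_bound (matNorm_nonneg _) fun x => ?_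
    have := matNorm_spec (k := 1) (fun _ _ => T) (fun _ => x)
    simp only [Finset.univ_unique, Fin.default_eq_zero, Fin.isValue, Finset.sum_singleton] at this
    rw [← mul_pow] at this
    exact le_of_sq_le_sq' this (mul_nonneg (matNorm_nonneg _) (norm_nonneg _))
where
  le_of_sq_le_sq' {a b : ℝ} (h : a ^ 2 ≤ b ^ 2) (hb : 0 ≤ b) : a ≤ b :=
    le_of_sq_le_sq h hb

end matNorm

section cb

variable {m n : ℕ} {E : OpSpace m} {F : OpSpace n}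

/-- `CB u K`: the inequality `‖id ⊗ u‖ ≤ K` at all matrix levels. -/
def CB (E : OpSpace m) (F : OpSpace n) (u : E.E →ₗ[ℂ] F.E) (K : ℝ) : Prop :=
  ∀ (k : ℕ) (a : Fin k → Fin k → E.E),
    matNorm (fun i j => (u (a i j) : F.H →L[ℂ] F.H))
      ≤ K * matNorm (fun i j => (a i j : E.H →L[ℂ] E.H))

lemma cbNorm_le_of_CB {u : E.E →ₗ[ℂ] F.E} {K : ℝ} (hK : 0 ≤ K) (h : CB E F u K) :
    cbNorm E F u ≤ ENNReal.ofReal K := by
  unfold cbNorm
  refine iSup_le fun k => iSup_le fun a => iSup_le fun ha => ?_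
  refine ENNReal.ofReal_le_ofReal ((h k a).trans ?_)
  nlinarith [matNorm_nonneg (fun i j => (a i j : E.H →L[ℂ] E.H))]

lemma CB_of_cbNorm_le {u : E.E →ₗ[ℂ] F.E} {K : ℝ} (hK : 0 ≤ K)
    (h : cbNorm E F u ≤ ENNReal.ofReal K) : CB E F u K := by
  have h1 : ∀ (k : ℕ) (a : Fin k → Fin k → E.E),
      matNorm (fun i j => (a i j : E.H →L[ℂ] E.H)) ≤ 1 →
      matNorm (fun i j => (u (a i j) : F.H →L[ℂ] F.H)) ≤ K := by
    intro k a ha
    have : ENNReal.ofReal (matNorm (fun i j => (u (a i j) : F.H →L[ℂ] F.H))) ≤ cbNorm E F u := by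
      unfold cbNorm
      exact le_iSup_of_le k (le_iSup_of_le a (le_iSup_of_le ha le_rfl))
    exact (ENNReal.ofReal_le_ofReal_iff hK).1 (this.trans h)
  intro k a
  set A := matNorm (fun i j => (a i j : E.H →L[ℂ] E.H)) with hA
  have hA0 : 0 ≤ A := matNorm_nonneg _
  have h2 : ∀ r : ℝ, 0 < r → A ≤ r → matNorm (fun i j => (u (a i j) : F.H →L[ℂ] F.H)) ≤ K * r := by
    intro r hr hAr
    have h3 := h1 k (fun i j => ((r⁻¹ : ℝ) : ℂ) • a i j) (by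
      have := matNorm_smul (fun i j => (a i j : E.H →L[ℂ] E.H)) ((r⁻¹ : ℝ) : ℂ)
      refine le_trans this ?_
      rw [Complex.norm_real, Real.norm_eq_abs, abs_of_pos (inv_pos.2 hr), ← hA]
      rw [inv_mul_le_iff₀ hr, mul_one]
      exact hAr)
    have h4 := matNorm_smul (fun i j => (u (((r⁻¹ : ℝ) : ℂ) • a i j) : F.H →L[ℂ] F.H)) (r : ℂ)
    have h5 : (fun i j => (r : ℂ) • (u (((r⁻¹ : ℝ) : ℂ) • a i j) : F.H →L[ℂ] F.H))
        = fun i j => (u (a i j) : F.H →L[ℂ] F.H) := by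
      funext i j
      rw [map_smul, Submodule.coe_smul, smul_smul, ← Complex.ofReal_mul,
        mul_inv_cancel₀ hr.ne', Complex.ofReal_one, one_smul]
    rw [h5, Complex.norm_real, Real.norm_eq_abs, abs_of_pos hr] at h4
    refine h4.trans ?_
    rw [mul_comm K r]
    exact mul_le_mul_of_nonneg_left h3 hr.le
  rcases hA0.eq_or_lt with h0 | h0
  · rw [← h0, mul_zero]
    by_contra hcon
    push Not at hcon
    set B := matNorm (fun i j => (u (a i j) : F.H →L[ℂ] F.H)) with hB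
    have h3 := h2 (B / (2 * (K + 1))) (by positivity) (by rw [← h0]; positivity)
    rw [mul_div_assoc', le_div_iff₀ (by positivity)] at h3
    nlinarith
  · exact h2 A h0 le_rfl

lemma norm_apply_le_of_CB {u : E.E →ₗ[ℂ] F.E} {K : ℝ} (h : CB E F u K) (e : E.E) :
    ‖u e‖ ≤ K * ‖e‖ := by
  have := h 1 (fun _ _ => e)
  rw [matNorm_one, matNorm_one] at this
  exact this

end cb

end Pool.Agent.H2Sep
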