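import Mathlib

/-!
# Numerical certificates
-/

namespace Pool.Agent.H2Sep

/-- `λ_k` -/
def lam : Fin 4 → ℚ := ![97 / 103, 37 / 38, 299 / 301, 2699 / 2701]

/-- `μ_k` -/
def mu : Fin 4 → ℚ := ![20 / 103, 5 / 38, 20 / 301, 60 / 2701]

/-- `ε` -/
def eps : ℚ := 1 / 100000000

/-- the inner products `c_kl` -/
def cc (k l : Fin 4) : ℚ := lam k * lam l + 3 * (mu k * mu l)

/-- `s_kl = n_k · w_l` -/
def ss (k l : Fin 4) : ℚ := 3 * (mu k * lam l - lam k * mu l)

/-- `D_k` -/
def Dk (k : Fin 4) : ℚ := ∑ l : Fin 4, if k < l then 6 * (1 + cc k l) else 0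

/-- the coefficient arrays (`false` for `P`, `true` for `Q`), scaled by `5/6`. -/
def zq (σ : Bool) (k l : Fin 4) : ℚ :=
  (5 / 6) * (if k = l then (1 - eps ^ 2 * Dk k / 2) * (if σ then mu k else lam k)
    else eps * (if σ then lam (max k l) else -3 * mu (max k l)))

/-- the filler -/
def zf (_ : Bool) (k l : Fin 4) : ℚ := if k = l then 1 / 2 else 0

/-- coefficient of the symmetric sector -/
def cE (z z' : Bool → Fin 4 → Fin 4 → ℚ) (k k' l l' : Fin 4) : ℚ :=
  z false k k' * z' false l l' + 3 * (z true k k' * z' true l l')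

/-- coefficient of the orthogonal sector -/
def cP (z z' : Bool → Fin 4 → Fin 4 → ℚ) (k k' l l' : Fin 4) : ℚ :=
  2 * (z true k k' * z' true l l') + z false k k' * z' true l l' + z true k k' * z' false l l'

/-- type W quadruples -/
def isW (k k' l l' : Fin 4) : Bool := (k == l) && (k' == l') && (k != k')

/-- coefficient with the W terms removed -/
def cU (k k' l l' : Fin 4) : ℚ := if isW k k' l l' then 0 else cE zq zq k k' l l'

/-- Schur weights -/
def yw (k l : Fin 4) : ℚ :=
  if k = l then 1 else if k < l then eps * (ss k l + 1 / 1000000) / (1 - cc k l)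
  else eps * (ss l k + 1 / 1000000) / (1 - cc l k)

/-- the bound for the diagonal rows -/
def bd : ℚ := (25 / 36) * (1 + eps ^ 2 / 5000)

/-- upper bound for different components -/
def Gup : ℚ := (25 / 36) * (1 + eps ^ 2 / 5000 + 3 * eps ^ 2 * (3 - 1 / 5042))

/-- lower bound for equal components -/
def Glo : ℚ := (25 / 36) * (1 + 9 * eps ^ 2 - eps ^ 2 / 10000)

theorem schurU_diag : ∀ k : Fin 4, ∑ k', ∑ l', |cU k k' k l'| * yw k' l' ≤ bd * yw k k := by
  decide +kernel

theorem schurU_off : ∀ k l : Fin 4, k ≠ l →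
    ∑ k', ∑ l', |cU k k' l l'| * yw k' l' ≤ (25 / 36) * yw k l := by
  decide +kernel

theorem yw_pos : ∀ k l : Fin 4, 0 < yw k l := by
  decide +kernel

theorem cW : ∀ k k' : Fin 4, k ≠ k' → cE zq zq k k' k k' = (25 / 36) * (3 * eps ^ 2) := by
  decide +kernel

theorem psd_q : ∀ (σ : Bool) (k : Fin 4),
    ∑ k', (if k' = k then 0 else |zq σ k k'|) ≤ zq σ k k := by
  decide +kernel

theorem h1_q : ∀ k : Fin 4, ∑ k', |zq true k k' + zq false k k'| ≤ 1 := by
  decide +kernel

theorem h2_q : ∀ k : Fin 4, ∑ k', |2 * zq true k k'| ≤ 1 := by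
  decide +kernel

theorem psd_f : ∀ (σ : Bool) (k : Fin 4),
    ∑ k', (if k' = k then 0 else |zf σ k k'|) ≤ zf σ k k := by
  decide +kernel

theorem schurE_f : ∀ k l : Fin 4, ∑ k', ∑ l', |cE zq zf k k' l l'| ≤ 25 / 36 := by
  decide +kernel

theorem schurP_q : ∀ k l : Fin 4, ∑ k', ∑ l', |cP zq zq k k' l l'| ≤ 25 / 36 := by
  decide +kernel

theorem schurP_f : ∀ k l : Fin 4, ∑ k', ∑ l', |cP zq zf k k' l l'| ≤ 25 / 36 := by
  decide +kernel

theorem Gup_lt_Glo : Gup < Glo := by decide +kernel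

theorem Gup_ge : 25 / 36 ≤ Gup := by decide +kernel

theorem bd_add : bd + (25 / 36) * (3 * eps ^ 2) * (3 - 1 / 5042) = Gup := by decide +kernel

theorem zq_symm : ∀ (σ : Bool) (k l : Fin 4), zq σ k l = zq σ l k := by decide +kernel

theorem zf_symm : ∀ (σ : Bool) (k l : Fin 4), zf σ k l = zf σ l k := by decide +kernel

/-- the coefficients of the trial vector -/
def ta (k l : Fin 4) : ℚ :=
  if k = l then 1 else if k < l then eps * ss k l / (1 - cc k l)
  else eps * ss l k / (1 - cc l k)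

theorem ta_nonneg : ∀ k l : Fin 4, 0 ≤ ta k l := by decide +kernel

/-- the quadruples for which the phase is trivial -/
def isM (k k' l l' : Fin 4) : Bool :=
  ((k == k') && ((l == l') || (k == l) || (k == l'))) ||
  ((l == l') && ((l == k) || (l == k'))) ||
  ((k == l) && (k' == l'))

/-- the lower bound -/
def low (k k' l l' : Fin 4) : ℚ :=
  if isM k k' l l' then cE zq zq k k' l l' * (ta k l * ta k' l')
  else -(|cE zq zq k k' l l'| * (ta k l * ta k' l'))

theorem low_bound : Glo * ∑ k, ∑ l, ta k l ^ 2 ≤ ∑ k, ∑ k', ∑ l, ∑ l', low k k' l l' := by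
  decide +kernel

end Pool.Agent.H2Sep
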