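import Pool.Agent.H2Sep.Pair
import Pool.Agent.H2Sep.Num

/-!
# Bounds for the forms of the test matrices
-/

namespace Pool.Agent.H2Sep

open Matrix

/-- real version of the arrays -/
def zqR (σ : Bool) (k l : Fin 4) : ℝ := (zq σ k l : ℝ)
/-- real version of the arrays -/
def zfR (σ : Bool) (k l : Fin 4) : ℝ := (zf σ k l : ℝ)

lemma zqR_symm (σ : Bool) (k l : Fin 4) : zqR σ k l = zqR σ l k := by
  unfold zqR; rw [zq_symm]

lemma zfR_symm (σ : Bool) (k l : Fin 4) : zfR σ k l = zfR σ l k := by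
  unfold zfR; rw [zf_symm]

lemma GE_eq (M M' : Comp) (hM : M.Dom) (hM' : M'.Dom) (y : M.ι → M'.Sp) :
    GE (M.root hM) (M'.op hM') y = ∑ k, ∑ k', ∑ l, ∑ l',
      (M.z false k k' * M'.z false l l' + 3 * (M.z true k k' * M'.z true l l'))
        * Comp.rr M M' k k' l l' (fun u v => y u v) := by
  unfold GE
  rw [Comp.NN_eq, Comp.NN_eq]
  simp only [Finset.mul_sum]
  simp only [← Finset.sum_add_distrib]
  refine Finset.sum_congr rfl fun k _ => Finset.sum_congr rfl fun k' _ =>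
    Finset.sum_congr rfl fun l _ => Finset.sum_congr rfl fun l' _ => ?_
  ring

lemma GP_eq (M M' : Comp) (hM : M.Dom) (hM' : M'.Dom) (y : M.ι → M'.Sp) :
    GP (M.root hM) (M'.op hM') y = ∑ k, ∑ k', ∑ l, ∑ l',
      (2 * (M.z true k k' * M'.z true l l') + M.z false k k' * M'.z true l l'
        + M.z true k k' * M'.z false l l')
        * Comp.rr M M' k k' l l' (fun u v => y u v) := by
  unfold GP
  rw [Comp.NN_eq, Comp.NN_eq, Comp.NN_eq]
  simp only [Finset.mul_sum]
  simp only [← Finset.sum_add_distrib]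
  refine Finset.sum_congr rfl fun k _ => Finset.sum_congr rfl fun k' _ =>
    Finset.sum_congr rfl fun l _ => Finset.sum_congr rfl fun l' _ => ?_
  ring

lemma sum_bn_sp (M M' : Comp) (y : M.ι → M'.Sp) :
    ∑ k, ∑ l, Comp.bn M M' k l (fun u v => y u v) ^ 2 = ∑ u, ‖y u‖ ^ 2 := by
  rw [Comp.sum_bn]
  refine Finset.sum_congr rfl fun u _ => ?_
  rw [EuclideanSpace.norm_sq_eq]

/-- crude Schur bound with constant weights -/
lemma crude (M M' : Comp) (y : M.ι → M'.Sp) (c : Fin 4 → Fin 4 → Fin 4 → Fin 4 → ℚ) (β : ℚ)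
    (hc : ∀ k k' l l', c k k' l l' = c k' k l' l)
    (hrow : ∀ k l, ∑ k', ∑ l', |c k k' l l'| ≤ β) :
    ∑ k, ∑ k', ∑ l, ∑ l', (c k k' l l' : ℝ) * Comp.rr M M' k k' l l' (fun u v => y u v)
      ≤ (β : ℝ) * ∑ u, ‖y u‖ ^ 2 := by
  have h := schur4 (fun k k' l l' => (c k k' l l' : ℝ))
    (fun k k' l l' => Comp.rr M M' k k' l l' (fun u v => y u v))
    (fun k l => Comp.bn M M' k l (fun u v => y u v)) (fun _ _ => 1) (fun _ _ => (β : ℝ))
    (fun k k' l l' => by simp only [hc k k' l l'])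
    (fun k k' l l' => Comp.abs_rr_le M M' k k' l l' _) (fun _ _ => one_pos)
    (fun k l => by
      have := hrow k l
      simp only [mul_one]
      exact_mod_cast this)
  refine h.trans (le_of_eq ?_)
  simp only [← Finset.mul_sum]
  rw [sum_bn_sp]

lemma cE_symm (z z' : Bool → Fin 4 → Fin 4 → ℚ) (hz : ∀ σ k l, z σ k l = z σ l k)
    (hz' : ∀ σ k l, z' σ k l = z' σ l k) (k k' l l' : Fin 4) :
    cE z z' k k' l l' = cE z z' k' k l' l := by
  unfold cE
  rw [hz false k k', hz true k k', hz' false l l', hz' true l l']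

lemma cP_symm (z z' : Bool → Fin 4 → Fin 4 → ℚ) (hz : ∀ σ k l, z σ k l = z σ l k)
    (hz' : ∀ σ k l, z' σ k l = z' σ l k) (k k' l l' : Fin 4) :
    cP z z' k k' l l' = cP z z' k' k l' l := by
  unfold cP
  rw [hz false k k', hz true k k', hz' false l l', hz' true l l']

/-- A component with rational array. -/
lemma GP_le (M M' : Comp) (hM : M.Dom) (hM' : M'.Dom) (z z' : Bool → Fin 4 → Fin 4 → ℚ)
    (hz : ∀ σ k l, z σ k l = z σ l k) (hz' : ∀ σ k l, z' σ k l = z' σ l k)
    (h : ∀ σ k l, M.z σ k l = (z σ k l : ℝ)) (h' : ∀ σ k l, M'.z σ k l = (z' σ k l : ℝ))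
    (β : ℚ) (hrow : ∀ k l, ∑ k', ∑ l', |cP z z' k k' l l'| ≤ β) (y : M.ι → M'.Sp) :
    GP (M.root hM) (M'.op hM') y ≤ (β : ℝ) * ∑ u, ‖y u‖ ^ 2 := by
  rw [GP_eq]
  refine le_trans (le_of_eq ?_) (crude M M' y (cP z z') β (cP_symm z z' hz hz') hrow)
  refine Finset.sum_congr rfl fun k _ => Finset.sum_congr rfl fun k' _ =>
    Finset.sum_congr rfl fun l _ => Finset.sum_congr rfl fun l' _ => ?_
  simp only [h, h', cP]
  push_cast
  ring

lemma GE_le_crude (M M' : Comp) (hM : M.Dom) (hM' : M'.Dom) (z z' : Bool → Fin 4 → Fin 4 → ℚ)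
    (hz : ∀ σ k l, z σ k l = z σ l k) (hz' : ∀ σ k l, z' σ k l = z' σ l k)
    (h : ∀ σ k l, M.z σ k l = (z σ k l : ℝ)) (h' : ∀ σ k l, M'.z σ k l = (z' σ k l : ℝ))
    (β : ℚ) (hrow : ∀ k l, ∑ k', ∑ l', |cE z z' k k' l l'| ≤ β) (y : M.ι → M'.Sp) :
    GE (M.root hM) (M'.op hM') y ≤ (β : ℝ) * ∑ u, ‖y u‖ ^ 2 := by
  rw [GE_eq]
  refine le_trans (le_of_eq ?_) (crude M M' y (cE z z') β (cE_symm z z' hz hz') hrow)
  refine Finset.sum_congr rfl fun k _ => Finset.sum_congr rfl fun k' _ =>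
    Finset.sum_congr rfl fun l _ => Finset.sum_congr rfl fun l' _ => ?_
  simp only [h, h', cE]
  push_cast
  ring

/-- fine bound in the symmetric sector -/
lemma GE_le_fine (M M' : Comp) (hM : M.Dom) (hM' : M'.Dom)
    (h : ∀ σ k l, M.z σ k l = zqR σ k l) (h' : ∀ σ k l, M'.z σ k l = zqR σ k l)
    (y : M.ι → M'.Sp)
    (hSW : SW M M' (fun u v => y u v)
      ≤ (3 - 1 / 5042) * ∑ k, Comp.bn M M' k k (fun u v => y u v) ^ 2) :
    GE (M.root hM) (M'.op hM') y ≤ (Gup : ℝ) * ∑ u, ‖y u‖ ^ 2 := by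
  rw [GE_eq]
  set r := fun k k' l l' => Comp.rr M M' k k' l l' (fun u v => y u v) with hr
  set a := fun k l => Comp.bn M M' k l (fun u v => y u v) with ha
  -- split off the W terms
  have e1 : ∑ k, ∑ k', ∑ l, ∑ l',
      (M.z false k k' * M'.z false l l' + 3 * (M.z true k k' * M'.z true l l'))
        * Comp.rr M M' k k' l l' (fun u v => y u v)
      = ∑ k, ∑ k', ∑ l, ∑ l', (cU k k' l l' : ℝ) * r k k' l l'
        + ((25 / 36) * (3 * eps ^ 2) : ℚ) * SW M M' (fun u v => y u v) := by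
    have e2 : ((25 / 36) * (3 * eps ^ 2) : ℚ) * SW M M' (fun u v => y u v)
        = ∑ k, ∑ k', ∑ l, ∑ l', ((if isW k k' l l' then cE zq zq k k' l l' else 0 : ℚ) : ℝ)
          * r k k' l l' := by
      unfold SW
      rw [Finset.mul_sum]
      refine Finset.sum_congr rfl fun k _ => ?_
      rw [Finset.mul_sum]
      refine Finset.sum_congr rfl fun k' _ => ?_
      rw [Finset.sum_eq_single k]
      · rw [Finset.sum_eq_single k']
        · by_cases hk : k = k'
          · subst hk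
            simp [isW]
          · rw [if_neg hk]
            have : isW k k' k k' = true := by simp [isW, hk]
            rw [if_pos this, cW k k' hk]
        · intro b _ hb
          have : isW k k' k b = false := by
            simp [isW, hb.symm]
          simp [this]
        · intro h; exact absurd (Finset.mem_univ _) h
      · intro b _ hb
        refine Finset.sum_eq_zero fun l' _ => ?_
        have : isW k k' b l' = false := by simp [isW, hb.symm]
        simp [this]
      · intro h; exact absurd (Finset.mem_univ _) h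
    rw [e2]
    simp only [← Finset.sum_add_distrib]
    refine Finset.sum_congr rfl fun k _ => Finset.sum_congr rfl fun k' _ =>
      Finset.sum_congr rfl fun l _ => Finset.sum_congr rfl fun l' _ => ?_
    rw [← add_mul]
    congr 1
    simp only [h, h', cU, zqR]
    split_ifs
    · simp only [cE]; push_cast; ring
    · simp only [cE]; push_cast; ring
  rw [e1]
  have e3 := schur4 (fun k k' l l' => (cU k k' l l' : ℝ)) r a (fun k l => (yw k l : ℝ))
    (fun k l => if k = l then (bd : ℝ) else 25 / 36)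
    (fun k k' l l' => by
      have : cU k k' l l' = cU k' k l' l := by
        unfold cU
        rw [cE_symm zq zq zq_symm zq_symm k k' l l']
        have : isW k k' l l' = isW k' k l' l := by
          unfold isW
          rw [Bool.eq_iff_iff]
          simp only [Bool.and_eq_true, beq_iff_eq, bne_iff_ne, ne_eq]
          tauto
        rw [this]
      simp only [this])
    (fun k k' l l' => Comp.abs_rr_le M M' k k' l l' _)
    (fun k l => by exact_mod_cast yw_pos k l)
    (fun k l => by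
      by_cases hkl : k = l
      · subst hkl
        rw [if_pos rfl]
        exact_mod_cast schurU_diag k
      · rw [if_neg hkl]
        have := (Rat.cast_le (K := ℝ)).2 (schurU_off k l hkl)
        push_cast at this
        exact this)
  have e4 : ∑ k, ∑ l, (if k = l then (bd : ℝ) else 25 / 36) * a k l ^ 2
      ≤ (25 / 36) * ∑ k, ∑ l, a k l ^ 2 + ((bd : ℝ) - 25 / 36) * ∑ k, a k k ^ 2 := by
    rw [Finset.mul_sum, Finset.mul_sum, ← Finset.sum_add_distrib]
    refine Finset.sum_le_sum fun k _ => ?_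
    have : ((bd : ℝ) - 25 / 36) * a k k ^ 2
        = ∑ l, (if k = l then ((bd : ℝ) - 25 / 36) * a k l ^ 2 else 0) := by simp
    rw [this, Finset.mul_sum, ← Finset.sum_add_distrib]
    refine Finset.sum_le_sum fun l _ => ?_
    split_ifs
    · apply le_of_eq; ring
    · apply le_of_eq; ring
  have e5 : ∑ k, a k k ^ 2 ≤ ∑ k, ∑ l, a k l ^ 2 :=
    Finset.sum_le_sum fun k _ => Finset.single_le_sum (f := fun l => a k l ^ 2)
      (fun l _ => sq_nonneg _) (Finset.mem_univ k)
  have e6 : ∑ k, ∑ l, a k l ^ 2 = ∑ u, ‖y u‖ ^ 2 := sum_bn_sp M M' y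
  have e7 : ((bd : ℝ)) + ((25 / 36) * (3 * eps ^ 2) : ℚ) * (3 - 1 / 5042) = (Gup : ℝ) := by
    have := congrArg (Rat.cast : ℚ → ℝ) bd_add
    push_cast at this ⊢
    exact this
  have e8 : (0 : ℝ) ≤ ((25 / 36) * (3 * eps ^ 2) : ℚ) := by
    have : (0 : ℚ) ≤ (25 / 36) * (3 * eps ^ 2) := by unfold eps; norm_num
    exact_mod_cast this
  have e9 : ((25 / 36) * (3 * eps ^ 2) : ℚ) * SW M M' (fun u v => y u v)
      ≤ ((25 / 36) * (3 * eps ^ 2) : ℚ) * ((3 - 1 / 5042) * ∑ k, a k k ^ 2) :=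
    mul_le_mul_of_nonneg_left hSW e8
  have e10 : (25 / 36 : ℝ) ≤ (Gup : ℝ) := by
    have := (Rat.cast_le (K := ℝ)).2 Gup_ge
    push_cast at this
    exact this
  have e11 : ((Gup : ℝ) - 25 / 36) * ∑ k, a k k ^ 2 ≤ ((Gup : ℝ) - 25 / 36) * ∑ u, ‖y u‖ ^ 2 := by
    rw [← e6]
    exact mul_le_mul_of_nonneg_left e5 (by linarith)
  have e12 : (Gup : ℝ) * ∑ k, a k k ^ 2
      = ((bd : ℝ) + ((25 / 36) * (3 * eps ^ 2) : ℚ) * (3 - 1 / 5042)) * ∑ k, a k k ^ 2 := by
    rw [e7]
  rw [e6] at e4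
  linarith

end Pool.Agent.H2Sep
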