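import Pool.Agent.H2Sep.Form

/-!
# Every `2 × 2` matrix of norm `≤ κ` is `z (q₁ + i q₂)` with `|z| = 1`, `q_j` in `ℝ₊ SU(2)`,
`|q₁| + |q₂| ≤ κ`.
-/

namespace Pool.Agent.H2Sep

open Finset

lemma gram_ineq (c00 c01 c10 c11 : ℂ) (κ : ℝ)
    (h : ∀ x y : ℂ, ‖x * c00 + y * c01‖ ^ 2 + ‖x * c10 + y * c11‖ ^ 2
      ≤ κ ^ 2 * (‖x‖ ^ 2 + ‖y‖ ^ 2)) :
    ‖c00‖ ^ 2 + ‖c01‖ ^ 2 + ‖c10‖ ^ 2 + ‖c11‖ ^ 2 ≤ 2 * κ ^ 2 ∧
    0 ≤ κ ^ 4 - κ ^ 2 * (‖c00‖ ^ 2 + ‖c01‖ ^ 2 + ‖c10‖ ^ 2 + ‖c11‖ ^ 2)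
      + ‖c00 * c11 - c01 * c10‖ ^ 2 := by
  have h1 := h 1 0
  have h2 := h 0 1
  simp only [one_mul, zero_mul, add_zero, zero_add, norm_one, norm_zero] at h1 h2
  refine ⟨by nlinarith, ?_⟩
  set B : ℂ := (starRingEnd ℂ) c00 * c01 + (starRingEnd ℂ) c10 * c11 with hB
  have hexp : ∀ x y : ℂ, ‖x * c00 + y * c01‖ ^ 2 + ‖x * c10 + y * c11‖ ^ 2
      = ‖x‖ ^ 2 * (‖c00‖ ^ 2 + ‖c10‖ ^ 2) + ‖y‖ ^ 2 * (‖c01‖ ^ 2 + ‖c11‖ ^ 2)
        + 2 * ((starRingEnd ℂ) x * y * B).re := by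
    intro x y
    simp only [← Complex.normSq_eq_norm_sq, hB, Complex.normSq_apply, Complex.mul_re,
      Complex.mul_im, Complex.add_re, Complex.add_im, Complex.conj_re, Complex.conj_im]
    ring
  have hdet : ‖c00 * c11 - c01 * c10‖ ^ 2
      = (‖c00‖ ^ 2 + ‖c10‖ ^ 2) * (‖c01‖ ^ 2 + ‖c11‖ ^ 2) - ‖B‖ ^ 2 := by
    simp only [← Complex.normSq_eq_norm_sq, hB, Complex.normSq_apply, Complex.mul_re,
      Complex.mul_im, Complex.add_re, Complex.add_im, Complex.sub_re, Complex.sub_im,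
      Complex.conj_re, Complex.conj_im]
    ring
  set A : ℝ := κ ^ 2 - (‖c00‖ ^ 2 + ‖c10‖ ^ 2) with hA
  set D : ℝ := κ ^ 2 - (‖c01‖ ^ 2 + ‖c11‖ ^ 2) with hD
  have hA0 : 0 ≤ A := by rw [hA]; nlinarith
  have hD0 : 0 ≤ D := by rw [hD]; nlinarith
  have form : ∀ x y : ℂ, 0 ≤ A * ‖x‖ ^ 2 + D * ‖y‖ ^ 2
      - 2 * ((starRingEnd ℂ) x * y * B).re := by
    intro x y
    have := h x y
    rw [hexp] at this
    rw [hA, hD]
    nlinarith
  have goal' : ‖B‖ ^ 2 ≤ A * D := by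
    have f1 := form D ((starRingEnd ℂ) B)
    have f2 := form B A
    have f3 := form 1 ((starRingEnd ℂ) B)
    have e1 : ((starRingEnd ℂ) (D : ℂ) * (starRingEnd ℂ) B * B).re = D * ‖B‖ ^ 2 := by
      rw [Complex.conj_ofReal, mul_assoc, mul_comm ((starRingEnd ℂ) B) B, Complex.mul_conj,
        ← Complex.ofReal_mul, Complex.ofReal_re, Complex.normSq_eq_norm_sq]
    have e2 : ((starRingEnd ℂ) B * (A : ℂ) * B).re = A * ‖B‖ ^ 2 := by
      rw [mul_comm ((starRingEnd ℂ) B) (A : ℂ), mul_assoc, mul_comm ((starRingEnd ℂ) B) B,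
        Complex.mul_conj, ← Complex.ofReal_mul, Complex.ofReal_re, Complex.normSq_eq_norm_sq]
    have e3 : ((starRingEnd ℂ) (1 : ℂ) * (starRingEnd ℂ) B * B).re = ‖B‖ ^ 2 := by
      rw [map_one, one_mul, mul_comm ((starRingEnd ℂ) B) B,
        Complex.mul_conj, Complex.ofReal_re, Complex.normSq_eq_norm_sq]
    rw [e1] at f1
    rw [e2] at f2
    rw [e3] at f3
    simp only [Complex.norm_real, Real.norm_eq_abs, sq_abs, RCLike.norm_conj, norm_one,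
      one_pow, mul_one] at f1 f2 f3
    rcases hA0.eq_or_lt with hA1 | hA1
    · rcases hD0.eq_or_lt with hD1 | hD1
      · rw [← hA1, ← hD1] at f3 ⊢
        nlinarith
      · have : 0 ≤ D * (A * D - ‖B‖ ^ 2) := by nlinarith
        nlinarith [nonneg_of_mul_nonneg_right this hD1]
    · have : 0 ≤ A * (A * D - ‖B‖ ^ 2) := by nlinarith
      nlinarith [nonneg_of_mul_nonneg_right this hA1]
  rw [hdet]
  rw [hA, hD] at goal'
  nlinarith

lemma exists_phase (d : ℂ) : ∃ w : ℂ, ‖w‖ = 1 ∧ w ^ 2 * d = (‖d‖ : ℂ) := by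
  rcases eq_or_ne d 0 with rfl | hd
  · exact ⟨1, by simp, by simp⟩
  · obtain ⟨w, hw⟩ := IsAlgClosed.exists_pow_nat_eq ((starRingEnd ℂ) d / (‖d‖ : ℂ)) (n := 2)
      (by norm_num)
    have hn : (‖d‖ : ℂ) ≠ 0 := by simpa using hd
    refine ⟨w, ?_, ?_⟩
    · have h1 : ‖w‖ ^ 2 = 1 := by
        rw [← norm_pow, hw, norm_div, RCLike.norm_conj, Complex.norm_real, norm_norm]
        exact div_self (by simpa using hd)
      nlinarith [norm_nonneg w]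
    · rw [hw, div_mul_eq_mul_div, mul_comm, Complex.mul_conj, Complex.normSq_eq_norm_sq]
      rw [div_eq_iff hn]
      push_cast
      ring

theorem contr_decomp (c : Fin 2 → Fin 2 → ℂ) (κ : ℝ) (hκ : 0 ≤ κ)
    (h : ∀ v : Fin 2 → ℂ, ∑ s, ‖mv c v s‖ ^ 2 ≤ κ ^ 2 * ∑ s, ‖v s‖ ^ 2) :
    ∃ z a b a' b' : ℂ, ‖z‖ = 1 ∧
      (∀ s s', c s s' = z * (Qm a b s s' + Complex.I * Qm a' b' s s')) ∧
      Real.sqrt (‖a‖ ^ 2 + ‖b‖ ^ 2) + Real.sqrt (‖a'‖ ^ 2 + ‖b'‖ ^ 2) ≤ κ := by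
  obtain ⟨w, hw, hwd⟩ := exists_phase (c 0 0 * c 1 1 - c 0 1 * c 1 0)
  have hg := gram_ineq (c 0 0) (c 0 1) (c 1 0) (c 1 1) κ (by
    intro x y
    have := h ![x, y]
    simpa [mv, Fin.sum_univ_two, mul_comm] using this)
  set d : ℂ := c 0 0 * c 1 1 - c 0 1 * c 1 0 with hd
  set T : ℝ := ‖c 0 0‖ ^ 2 + ‖c 0 1‖ ^ 2 + ‖c 1 0‖ ^ 2 + ‖c 1 1‖ ^ 2 with hT
  have hww : (starRingEnd ℂ) w * w = 1 := by
    rw [mul_comm, Complex.mul_conj, Complex.normSq_eq_norm_sq, hw]; simp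
  set a : ℂ := (w * c 0 0 + (starRingEnd ℂ) (w * c 1 1)) / 2 with ha
  set b : ℂ := (w * c 0 1 - (starRingEnd ℂ) (w * c 1 0)) / 2 with hb
  set a' : ℂ := (w * c 0 0 - (starRingEnd ℂ) (w * c 1 1)) / (2 * Complex.I) with ha'
  set b' : ℂ := (w * c 0 1 + (starRingEnd ℂ) (w * c 1 0)) / (2 * Complex.I) with hb'
  have hre : (w * c 0 0 * (w * c 1 1) - w * c 0 1 * (w * c 1 0)).re = ‖d‖ := by
    have : w * c 0 0 * (w * c 1 1) - w * c 0 1 * (w * c 1 0) = w ^ 2 * d := by rw [hd]; ring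
    rw [this, hwd, Complex.ofReal_re]
  have hI : ∀ u : ℂ, ‖u / (2 * Complex.I)‖ ^ 2 = ‖u / 2‖ ^ 2 := by
    intro u; simp
  have hnw : ∀ u : ℂ, ‖w * u‖ = ‖u‖ := by intro u; rw [norm_mul, hw, one_mul]
  have hT' : T = ‖w * c 0 0‖ ^ 2 + ‖w * c 0 1‖ ^ 2 + ‖w * c 1 0‖ ^ 2 + ‖w * c 1 1‖ ^ 2 := by
    simp_rw [hnw]; rfl
  have hr : ‖a‖ ^ 2 + ‖b‖ ^ 2 = (T + 2 * ‖d‖) / 4 := by
    rw [hT', ← hre, ha, hb]
    generalize w * c 0 0 = p
    generalize w * c 0 1 = q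
    generalize w * c 1 0 = r
    generalize w * c 1 1 = s
    simp only [norm_div, div_pow, ← Complex.normSq_eq_norm_sq, Complex.normSq_apply,
      Complex.mul_re, Complex.mul_im, Complex.add_re, Complex.add_im, Complex.sub_re,
      Complex.sub_im, Complex.conj_re, Complex.conj_im, Complex.re_ofNat, Complex.im_ofNat]
    ring
  have ht : ‖a'‖ ^ 2 + ‖b'‖ ^ 2 = (T - 2 * ‖d‖) / 4 := by
    rw [ha', hb', hI, hI, hT', ← hre]
    generalize w * c 0 0 = p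
    generalize w * c 0 1 = q
    generalize w * c 1 0 = r
    generalize w * c 1 1 = s
    simp only [norm_div, div_pow, ← Complex.normSq_eq_norm_sq, Complex.normSq_apply,
      Complex.mul_re, Complex.mul_im, Complex.add_re, Complex.add_im, Complex.sub_re,
      Complex.sub_im, Complex.conj_re, Complex.conj_im, Complex.re_ofNat, Complex.im_ofNat]
    ring
  refine ⟨(starRingEnd ℂ) w, a, b, a', b', by simpa using hw, ?_, ?_⟩
  · have hkey : ∀ (x y : ℂ), w * x = y → x = (starRingEnd ℂ) w * y := by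
      intro x y hxy
      rw [← hxy, ← mul_assoc, hww, one_mul]
    have hI2 : (2 * Complex.I) ≠ 0 := by simp
    have hIa : Complex.I * a' = (w * c 0 0 - (starRingEnd ℂ) (w * c 1 1)) / 2 := by
      rw [ha']; field_simp
    have hIb : Complex.I * b' = (w * c 0 1 + (starRingEnd ℂ) (w * c 1 0)) / 2 := by
      rw [hb']; field_simp
    have hIa2 : Complex.I * (starRingEnd ℂ) a' = (w * c 1 1 - (starRingEnd ℂ) (w * c 0 0)) / 2 := by
      have : (starRingEnd ℂ) (Complex.I * a') = -(Complex.I * (starRingEnd ℂ) a') := by simp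
      rw [hIa] at this
      rw [← neg_eq_iff_eq_neg] at this
      rw [← this]
      simp only [map_div₀, map_sub, Complex.conj_conj, map_ofNat]
      ring
    have hIb2 : Complex.I * (starRingEnd ℂ) b' = -(w * c 1 0 + (starRingEnd ℂ) (w * c 0 1)) / 2 := by
      have : (starRingEnd ℂ) (Complex.I * b') = -(Complex.I * (starRingEnd ℂ) b') := by simp
      rw [hIb] at this
      rw [← neg_eq_iff_eq_neg] at this
      rw [← this]
      simp only [map_div₀, map_add, Complex.conj_conj, map_ofNat]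
      ring
    intro s s'
    apply hkey
    fin_cases s <;> fin_cases s'
    · simp only [Qm, Fin.zero_eta, Fin.isValue, Matrix.cons_val_zero]
      rw [hIa, ha]; ring
    · simp only [Qm, Fin.zero_eta, Fin.isValue, Fin.mk_one, Matrix.cons_val_zero,
        Matrix.cons_val_one]
      rw [hIb, hb]; ring
    · simp only [Qm, Fin.zero_eta, Fin.isValue, Fin.mk_one, Matrix.cons_val_zero,
        Matrix.cons_val_one]
      rw [mul_neg, hIb2, hb]
      simp only [map_div₀, map_sub, Complex.conj_conj, map_ofNat]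
      ring
    · change w * c 1 1 = (starRingEnd ℂ) a + Complex.I * (starRingEnd ℂ) a'
      rw [hIa2, ha]
      simp only [map_div₀, map_add, Complex.conj_conj, map_ofNat]
      ring
  · rw [hr, ht]
    obtain ⟨h1, h2⟩ := hg
    have hT2d : 0 ≤ (T - 2 * ‖d‖) / 4 := by rw [← ht]; positivity
    have hd0 : 0 ≤ ‖d‖ := norm_nonneg d
    set r := Real.sqrt ((T + 2 * ‖d‖) / 4) with hrdef
    set t := Real.sqrt ((T - 2 * ‖d‖) / 4) with htdef
    have hr2 : r ^ 2 = (T + 2 * ‖d‖) / 4 := Real.sq_sqrt (by linarith)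
    have ht2 : t ^ 2 = (T - 2 * ‖d‖) / 4 := Real.sq_sqrt hT2d
    have hr0 : 0 ≤ r := Real.sqrt_nonneg _
    have ht0 : 0 ≤ t := Real.sqrt_nonneg _
    by_contra hcon
    push Not at hcon
    have hprod : 0 ≤ ((r + t) ^ 2 - κ ^ 2) * ((r - t) ^ 2 - κ ^ 2) := by
      have : ((r + t) ^ 2 - κ ^ 2) * ((r - t) ^ 2 - κ ^ 2)
          = (r ^ 2 - t ^ 2) ^ 2 - 2 * κ ^ 2 * (r ^ 2 + t ^ 2) + κ ^ 4 := by ring
      rw [this, hr2, ht2]
      have e : ((T + 2 * ‖d‖) / 4 - (T - 2 * ‖d‖) / 4) ^ 2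
          - 2 * κ ^ 2 * ((T + 2 * ‖d‖) / 4 + (T - 2 * ‖d‖) / 4) + κ ^ 4
          = κ ^ 4 - κ ^ 2 * T + ‖d‖ ^ 2 := by ring
      rw [e]
      exact h2
    have hpos : 0 < (r + t) ^ 2 - κ ^ 2 := by
      have : κ ^ 2 < (r + t) ^ 2 := pow_lt_pow_left₀ hcon hκ two_ne_zero
      linarith
    have h3 : 0 ≤ (r - t) ^ 2 - κ ^ 2 := nonneg_of_mul_nonneg_right hprod hpos
    have h4 : (r + t) ^ 2 + (r - t) ^ 2 = T := by
      have : (r + t) ^ 2 + (r - t) ^ 2 = 2 * r ^ 2 + 2 * t ^ 2 := by ring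
      rw [this, hr2, ht2]; ring
    linarith

section

variable {V : Type*} [NormedAddCommGroup V] [InnerProductSpace ℂ V]

lemma norm_add_sq_le {x y : V} {r t : ℝ} (hr : 0 < r) (ht : 0 < t) :
    r * t * ‖x + y‖ ^ 2 ≤ t * (r + t) * ‖x‖ ^ 2 + r * (r + t) * ‖y‖ ^ 2 := by
  have h1 : ‖x + y‖ ^ 2 ≤ (‖x‖ + ‖y‖) ^ 2 := by
    have := norm_add_le x y
    have h0 := norm_nonneg (x + y)
    nlinarith
  have h2 : r * t * ‖x + y‖ ^ 2 ≤ r * t * (‖x‖ + ‖y‖) ^ 2 :=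
    mul_le_mul_of_nonneg_left h1 (by positivity)
  nlinarith [sq_nonneg (t * ‖x‖ - r * ‖y‖)]

lemma CF_add_le {m n : Type*} [Fintype m] [Fintype n] (C : Bool → V →L[ℂ] V)
    (α β : m → n → Fin 2 → ℂ) (ξ : n → Fin 2 → V) {r t : ℝ} (hr : 0 < r) (ht : 0 < t) :
    r * t * CF C (fun p q s => α p q s + β p q s) ξ
      ≤ t * (r + t) * CF C α ξ + r * (r + t) * CF C β ξ := by
  unfold CF
  simp_rw [Finset.mul_sum, ← Finset.sum_add_distrib]
  refine Finset.sum_le_sum fun p _ => Finset.sum_le_sum fun σ _ =>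
    Finset.sum_le_sum fun s _ => Finset.sum_le_sum fun t' _ => ?_
  have e : C σ (∑ q, ((α p q s + β p q s) • ξ q t' + sgn σ • (α p q t' + β p q t') • ξ q s))
      = C σ (∑ q, (α p q s • ξ q t' + sgn σ • α p q t' • ξ q s))
        + C σ (∑ q, (β p q s • ξ q t' + sgn σ • β p q t' • ξ q s)) := by
    rw [← map_add, ← Finset.sum_add_distrib]
    congr 1
    refine Finset.sum_congr rfl fun q _ => ?_
    module
  rw [e]
  have := norm_add_sq_le (x := C σ (∑ q, (α p q s • ξ q t' + sgn σ • α p q t' • ξ q s)))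
    (y := C σ (∑ q, (β p q s • ξ q t' + sgn σ • β p q t' • ξ q s))) hr ht
  linarith

lemma CF_quat_le {m n : Type*} [Fintype m] [Fintype n] (C : Bool → V →L[ℂ] V)
    (α : m → n → Fin 2 → ℂ) (K : ℝ) (hα : ∀ ξ : n → Fin 2 → V, CF C α ξ ≤ K * nsq ξ)
    (a b : ℂ) (ξ : n → Fin 2 → V) :
    CF C (fun p q => mv (Qm a b) (α p q)) ξ ≤ (‖a‖ ^ 2 + ‖b‖ ^ 2) * (K * nsq ξ) := by
  rw [CF_quat]
  refine (hα _).trans (le_of_eq ?_)
  rw [nsq_mv, RCLike.norm_conj, norm_neg]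
  ring

/-- the form is contractive under contractions of `ℂ²`: homogeneity -/
theorem CF_contr {m n : Type*} [Fintype m] [Fintype n] (C : Bool → V →L[ℂ] V)
    (α : m → n → Fin 2 → ℂ) (K : ℝ) (hα : ∀ ξ : n → Fin 2 → V, CF C α ξ ≤ K * nsq ξ)
    (c : Fin 2 → Fin 2 → ℂ) (κ : ℝ) (hκ : 0 ≤ κ)
    (h : ∀ v : Fin 2 → ℂ, ∑ s, ‖mv c v s‖ ^ 2 ≤ κ ^ 2 * ∑ s, ‖v s‖ ^ 2)
    (ξ : n → Fin 2 → V) :
    CF C (fun p q => mv c (α p q)) ξ ≤ κ ^ 2 * (K * nsq ξ) := by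
  obtain ⟨z, a, b, a', b', hz, hc, hrt⟩ := contr_decomp c κ hκ h
  have hN : 0 ≤ K * nsq ξ := (CF_nonneg C α ξ).trans (hα ξ)
  have e1 : CF C (fun p q => mv c (α p q)) ξ
      = CF C (fun p q s => mv (Qm a b) (α p q) s
          + Complex.I * mv (Qm a' b') (α p q) s) ξ := by
    have : (fun p q => mv c (α p q)) = fun p q s => z * (mv (Qm a b) (α p q) s
          + Complex.I * mv (Qm a' b') (α p q) s) := by
      funext p q s
      simp only [mv, Fin.sum_univ_two, hc, smul_eq_mul]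
      ring
    rw [this, CF_smul_left, hz]
    ring
  rw [e1]
  have h1 : CF C (fun p q => mv (Qm a b) (α p q)) ξ ≤ (‖a‖ ^ 2 + ‖b‖ ^ 2) * (K * nsq ξ) :=
    CF_quat_le C α K hα a b ξ
  have h2 : CF C (fun p q s => Complex.I * mv (Qm a' b') (α p q) s) ξ
      ≤ (‖a'‖ ^ 2 + ‖b'‖ ^ 2) * (K * nsq ξ) := by
    rw [CF_smul_left]
    simpa using CF_quat_le C α K hα a' b' ξ
  set r := Real.sqrt (‖a‖ ^ 2 + ‖b‖ ^ 2) with hr
  set t := Real.sqrt (‖a'‖ ^ 2 + ‖b'‖ ^ 2) with ht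
  have hr2 : r ^ 2 = ‖a‖ ^ 2 + ‖b‖ ^ 2 := Real.sq_sqrt (by positivity)
  have ht2 : t ^ 2 = ‖a'‖ ^ 2 + ‖b'‖ ^ 2 := Real.sq_sqrt (by positivity)
  have hr0 : 0 ≤ r := Real.sqrt_nonneg _
  have ht0 : 0 ≤ t := Real.sqrt_nonneg _
  rw [← hr2] at h1
  rw [← ht2] at h2
  have hfin : (r + t) ^ 2 * (K * nsq ξ) ≤ κ ^ 2 * (K * nsq ξ) := by
    apply mul_le_mul_of_nonneg_right _ hN
    exact pow_le_pow_left₀ (by positivity) hrt 2
  refine le_trans ?_ hfin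
  have hQ0 : Qm 0 0 = fun _ _ => 0 := by
    funext i j; fin_cases i <;> fin_cases j <;> simp [Qm]
  rcases hr0.eq_or_lt with hr1 | hr1
  · have hab : ‖a‖ ^ 2 + ‖b‖ ^ 2 = 0 := by rw [← hr2, ← hr1]; ring
    have ha : a = 0 := by
      have : ‖a‖ ^ 2 = 0 := by nlinarith [sq_nonneg ‖a‖, sq_nonneg ‖b‖]
      simpa using this
    have hb : b = 0 := by
      have : ‖b‖ ^ 2 = 0 := by nlinarith [sq_nonneg ‖a‖, sq_nonneg ‖b‖]
      simpa using this
    have : (fun p q s => mv (Qm a b) (α p q) s + Complex.I * mv (Qm a' b') (α p q) s)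
        = fun p q s => Complex.I * mv (Qm a' b') (α p q) s := by
      funext p q s
      rw [ha, hb, hQ0]
      simp [mv]
    rw [this, ← hr1, zero_add]
    exact h2
  · rcases ht0.eq_or_lt with ht1 | ht1
    · have hab : ‖a'‖ ^ 2 + ‖b'‖ ^ 2 = 0 := by rw [← ht2, ← ht1]; ring
      have ha : a' = 0 := by
        have : ‖a'‖ ^ 2 = 0 := by nlinarith [sq_nonneg ‖a'‖, sq_nonneg ‖b'‖]
        simpa using this
      have hb : b' = 0 := by
        have : ‖b'‖ ^ 2 = 0 := by nlinarith [sq_nonneg ‖a'‖, sq_nonneg ‖b'‖]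
        simpa using this
      have : (fun p q s => mv (Qm a b) (α p q) s + Complex.I * mv (Qm a' b') (α p q) s)
          = fun p q => mv (Qm a b) (α p q) := by
        funext p q s
        rw [ha, hb, hQ0]
        simp [mv]
      rw [this, ← ht1, add_zero]
      exact h1
    · have h3 := CF_add_le C (fun p q => mv (Qm a b) (α p q))
        (fun p q s => Complex.I * mv (Qm a' b') (α p q) s) ξ hr1 ht1
      have h4 : t * (r + t) * CF C (fun p q => mv (Qm a b) (α p q)) ξ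
          ≤ t * (r + t) * (r ^ 2 * (K * nsq ξ)) :=
        mul_le_mul_of_nonneg_left h1 (by positivity)
      have h5 : r * (r + t) * CF C (fun p q s => Complex.I * mv (Qm a' b') (α p q) s) ξ
          ≤ r * (r + t) * (t ^ 2 * (K * nsq ξ)) :=
        mul_le_mul_of_nonneg_left h2 (by positivity)
      have h6 : r * t * CF C (fun p q s => mv (Qm a b) (α p q) s
          + Complex.I * mv (Qm a' b') (α p q) s) ξ ≤ r * t * ((r + t) ^ 2 * (K * nsq ξ)) := by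
        nlinarith
      exact le_of_mul_le_mul_left h6 (by positivity)

end

end Pool.Agent.H2Sep
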