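import Pool.Agent.H2Sep.Basic
import Pool.Agent.H2Sep.Contr

/-!
# The homogeneous Hilbertian operator space of a pair of operators
-/

open scoped ENNReal

namespace Pool.Agent.H2Sep

section

variable {V : Type} [NormedAddCommGroup V] [InnerProductSpace ℂ V] [CompleteSpace V]

/-- index set of the eight summands -/
abbrev Idx : Type := Fin 2 × Fin 2 × Bool

/-- the Hilbert space `C² ⊗ C² ⊗ C² ⊗ V`. -/
abbrev HV (V : Type) [NormedAddCommGroup V] : Type := PiLp 2 (fun _ : Idx => V)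

/-- the operator `x(v)`. -/
noncomputable def xOp (C : Bool → V →L[ℂ] V) (v : Fin 2 → ℂ) : HV V →L[ℂ] HV V :=
  (PiLp.continuousLinearEquiv 2 ℂ (fun _ : Idx => V)).symm.toContinuousLinearMap ∘L
    ContinuousLinearMap.pi (fun i : Idx => (1 / 2 : ℂ) • (C i.2.2 ∘L
      (v i.1 • PiLp.proj 2 (fun _ : Idx => V) ((0, i.2.1, true) : Idx)
        + (sgn i.2.2 * v i.2.1) • PiLp.proj 2 (fun _ : Idx => V) ((0, i.1, true) : Idx))))

lemma xOp_apply (C : Bool → V →L[ℂ] V) (v : Fin 2 → ℂ) (ξ : HV V) (s t : Fin 2) (σ : Bool) :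
    xOp C v ξ (s, t, σ)
      = (1 / 2 : ℂ) • C σ (v s • ξ (0, t, true) + sgn σ • v t • ξ (0, s, true)) := by
  simp [xOp, mul_smul]

/-- the linear map `v ↦ x(v)`. -/
noncomputable def xLin (C : Bool → V →L[ℂ] V) :
    EuclideanSpace ℂ (Fin 2) →ₗ[ℂ] (HV V →L[ℂ] HV V) where
  toFun v := xOp C v.ofLp
  map_add' v w := by
    ext ξ i
    obtain ⟨s, t, σ⟩ := i
    rw [xOp_apply]
    change _ = xOp C v.ofLp ξ (s, t, σ) + xOp C w.ofLp ξ (s, t, σ)
    rw [xOp_apply, xOp_apply, ← smul_add, ← map_add]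
    congr 2
    simp only [WithLp.ofLp_add, Pi.add_apply]
    module
  map_smul' c v := by
    ext ξ i
    obtain ⟨s, t, σ⟩ := i
    rw [xOp_apply]
    change _ = c • xOp C v.ofLp ξ (s, t, σ)
    rw [xOp_apply, smul_comm c (1 / 2 : ℂ), ← map_smul (C σ) c]
    congr 2
    simp only [WithLp.ofLp_smul, Pi.smul_apply, smul_eq_mul]
    module

lemma xLin_apply (C : Bool → V →L[ℂ] V) (v : EuclideanSpace ℂ (Fin 2)) :
    xLin C v = xOp C v.ofLp := rfl

/-- the matrix form of `x`. -/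
lemma sum_xOp {m n : Type*} [Fintype m] [Fintype n] (C : Bool → V →L[ℂ] V)
    (α : m → n → Fin 2 → ℂ) (x : n → HV V) :
    ∑ p, ‖∑ q, xOp C (α p q) (x q)‖ ^ 2 = CF C α (fun q t => x q (0, t, true)) := by
  unfold CF
  refine Finset.sum_congr rfl fun p _ => ?_
  rw [PiLp.norm_sq_eq_of_L2]
  have key : ∀ (s t : Fin 2) (σ : Bool), ‖(∑ q, xOp C (α p q) (x q)) (s, t, σ)‖ ^ 2
      = (1 / 4 : ℝ) * ‖C σ (∑ q, (α p q s • x q (0, t, true)
        + sgn σ • α p q t • x q (0, s, true)))‖ ^ 2 := by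
    intro s t σ
    have e1 : (∑ q, xOp C (α p q) (x q)) (s, t, σ)
        = (1 / 2 : ℂ) • C σ (∑ q, (α p q s • x q (0, t, true)
          + sgn σ • α p q t • x q (0, s, true))) := by
      rw [map_sum, Finset.smul_sum, WithLp.ofLp_sum, Finset.sum_apply]
      exact Finset.sum_congr rfl fun q _ => xOp_apply _ _ _ _ _ _
    rw [e1, norm_smul, mul_pow]
    norm_num
  simp only [Fintype.sum_prod_type, Fin.sum_univ_two, Fintype.sum_bool] at key ⊢
  simp only [key]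
  ring

lemma nsq_le {n : Type*} [Fintype n] (x : n → HV V) :
    nsq (fun q t => x q (0, t, true)) ≤ ∑ q, ‖x q‖ ^ 2 := by
  unfold nsq
  refine Finset.sum_le_sum fun q _ => ?_
  rw [PiLp.norm_sq_eq_of_L2]
  simp only [Fintype.sum_prod_type, Fin.sum_univ_two, Fintype.sum_bool]
  have : ∀ i, 0 ≤ ‖(x q).ofLp i‖ ^ 2 := fun i => by positivity
  linarith [this (0, 0, false), this (0, 1, false), this (1, 0, true), this (1, 0, false),
    this (1, 1, true), this (1, 1, false)]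

/-- embed a pair of vectors. -/
noncomputable def emb (y : Fin 2 → V) : HV V :=
  WithLp.toLp 2 (fun i : Idx => if i.1 = 0 ∧ i.2.2 = true then y i.2.1 else 0)

lemma emb_apply (y : Fin 2 → V) (t : Fin 2) : emb y (0, t, true) = y t := by
  simp [emb]

lemma norm_emb (y : Fin 2 → V) : ‖emb y‖ ^ 2 = ∑ t, ‖y t‖ ^ 2 := by
  rw [PiLp.norm_sq_eq_of_L2]
  simp [Fintype.sum_prod_type, Fin.sum_univ_two, Fintype.sum_bool, emb]

/-- description of the matrix norm of the space through the form `CF`. -/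
lemma matNorm_le_iff {k : ℕ} (C : Bool → V →L[ℂ] V)
    (α : Fin k → Fin k → EuclideanSpace ℂ (Fin 2)) {D : ℝ} (hD : 0 ≤ D) :
    matNorm (fun i j => xLin C (α i j)) ≤ D ↔
      ∀ ξ : Fin k → Fin 2 → V, CF C (fun i j => (α i j).ofLp) ξ ≤ D ^ 2 * nsq ξ := by
  constructor
  · intro h ξ
    have h1 := matNorm_spec (fun i j => xLin C (α i j)) (fun q => emb (ξ q))
    simp_rw [xLin_apply, sum_xOp, emb_apply, norm_emb] at h1
    refine h1.trans (mul_le_mul_of_nonneg_right ?_ (nsq_nonneg ξ))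
    exact pow_le_pow_left₀ (matNorm_nonneg _) h 2
  · intro h
    refine matNorm_le hD fun x => ?_
    simp_rw [xLin_apply]
    rw [sum_xOp]
    exact (h _).trans (mul_le_mul_of_nonneg_left (nsq_le x) (by positivity))

/-- The standing assumptions. -/
structure Good (C : Bool → V →L[ℂ] V) : Prop where
  h1 : ∀ y, (1 / 2 : ℝ) * ‖C true y‖ ^ 2 + (1 / 2) * ‖C false y‖ ^ 2 ≤ ‖y‖ ^ 2
  h2 : ∀ y, ‖C true y‖ ^ 2 ≤ ‖y‖ ^ 2
  h3 : ∃ y, y ≠ 0 ∧ ∀ σ, ‖C σ y‖ = ‖y‖

lemma CF_single_le {C : Bool → V →L[ℂ] V} (hC : Good C) (v : Fin 2 → ℂ)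
    (ξ : Unit → Fin 2 → V) :
    CF C (fun (_ : Unit) (_ : Unit) => v) ξ ≤ (∑ s, ‖v s‖ ^ 2) * nsq ξ := by
  have h0 : ∀ ζ : Unit → Fin 2 → V,
      CF C (fun (_ : Unit) (_ : Unit) => (![1, 0] : Fin 2 → ℂ)) ζ ≤ 1 * nsq ζ := by
    intro ζ
    unfold CF nsq
    simp only [Finset.univ_unique, Finset.sum_singleton, Fin.sum_univ_two, Fintype.sum_bool,
      Matrix.cons_val_zero, Matrix.cons_val_one, one_smul, zero_smul, smul_zero, add_zero,
      zero_add, map_smul, norm_smul, map_add, map_zero, norm_zero, sgn, if_true]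
    have a1 := hC.h1 (ζ default 1)
    have a2 := hC.h2 (ζ default 0)
    have e : ∀ y : V, ‖y + y‖ ^ 2 = 4 * ‖y‖ ^ 2 := by
      intro y
      rw [← two_smul ℂ y, norm_smul, mul_pow]; norm_num
    rw [e]
    simp
    nlinarith
  have h1 := CF_quat_le C (fun (_ : Unit) (_ : Unit) => (![1, 0] : Fin 2 → ℂ)) 1 h0
    (v 0) (-(starRingEnd ℂ) (v 1)) ξ
  have h2 : mv (Qm (v 0) (-(starRingEnd ℂ) (v 1))) ![1, 0] = v := by
    funext s
    fin_cases s <;> simp [mv, Qm, Fin.sum_univ_two]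
  rw [h2] at h1
  rw [Fin.sum_univ_two]
  simpa using h1

lemma xOp_norm_le {C : Bool → V →L[ℂ] V} (hC : Good C) (v : EuclideanSpace ℂ (Fin 2)) :
    ‖xLin C v‖ ≤ ‖v‖ := by
  refine ContinuousLinearMap.opNorm_le_bound _ (norm_nonneg _) fun x => ?_
  have h1 := sum_xOp C (fun (_ : Unit) (_ : Unit) => v.ofLp) (fun _ => x)
  have h2 := CF_single_le hC v.ofLp (fun (_ : Unit) t => x (0, t, true))
  have h3 := nsq_le (fun (_ : Unit) => x)
  simp only [Finset.univ_unique, Finset.sum_singleton] at h1 h3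
  rw [← h1, ← EuclideanSpace.norm_sq_eq] at h2
  have h4 : ‖xLin C v x‖ ^ 2 ≤ (‖v‖ * ‖x‖) ^ 2 := by
    rw [mul_pow]
    exact h2.trans (mul_le_mul_of_nonneg_left h3 (by positivity))
  exact le_of_sq_le_sq h4 (by positivity)

lemma le_xOp_norm {C : Bool → V →L[ℂ] V} (hC : Good C) (v : EuclideanSpace ℂ (Fin 2)) :
    ‖v‖ ≤ ‖xLin C v‖ := by
  obtain ⟨y, hy0, hy⟩ := hC.h3
  have h1 := sum_xOp C (fun (_ : Unit) (_ : Unit) => v.ofLp) (fun _ => emb ![y, 0])
  simp only [emb_apply] at h1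
  simp only [Finset.univ_unique, Finset.sum_singleton] at h1
  have h2 : CF C (fun (_ : Unit) (_ : Unit) => v.ofLp) (fun _ t => (![y, 0] : Fin 2 → V) t)
      = ‖v‖ ^ 2 * ‖y‖ ^ 2 := by
    unfold CF
    rw [EuclideanSpace.norm_sq_eq]
    simp only [Finset.univ_unique, Finset.sum_singleton, Fin.sum_univ_two, Fintype.sum_bool,
      Matrix.cons_val_zero, Matrix.cons_val_one, smul_zero, add_zero,
      zero_add, sgn, if_true]
    simp only [one_smul, Bool.false_eq_true, if_false, neg_smul, add_neg_cancel, map_zero,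
      norm_zero, map_neg, norm_neg, map_smul, norm_smul, hy, map_add]
    have e : ∀ z : V, ‖z + z‖ ^ 2 = 4 * ‖z‖ ^ 2 := by
      intro z
      rw [← two_smul ℂ z, norm_smul, mul_pow]; norm_num
    rw [e, norm_smul, hy]
    ring
  rw [h2] at h1
  have h3 : ‖(xLin C v) (emb ![y, 0])‖ ≤ ‖xLin C v‖ * ‖emb ![y, 0]‖ :=
    ContinuousLinearMap.le_opNorm _ _
  have h4 : ‖emb ![y, 0]‖ ^ 2 = ‖y‖ ^ 2 := by
    rw [norm_emb]; simp [Fin.sum_univ_two]
  have h5 : ‖emb ![y, 0]‖ = ‖y‖ := by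
    have := congrArg Real.sqrt h4
    rwa [Real.sqrt_sq (norm_nonneg _), Real.sqrt_sq (norm_nonneg _)] at this
  have h6 : ‖(xLin C v) (emb ![y, 0])‖ = ‖v‖ * ‖y‖ := by
    have := congrArg Real.sqrt h1
    rw [← mul_pow, Real.sqrt_sq (norm_nonneg _), Real.sqrt_sq (by positivity)] at this
    exact this
  rw [h5, h6] at h3
  exact le_of_mul_le_mul_right h3 (norm_pos_iff.2 hy0)

/-- the isometric embedding `ℓ₂² → B(H)`. -/
noncomputable def xIso (C : Bool → V →L[ℂ] V) (hC : Good C) :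
    EuclideanSpace ℂ (Fin 2) →ₗᵢ[ℂ] (HV V →L[ℂ] HV V) where
  toLinearMap := xLin C
  norm_map' v := le_antisymm (xOp_norm_le hC v) (le_xOp_norm hC v)

/-- the operator space -/
noncomputable def space (C : Bool → V →L[ℂ] V) (hC : Good C) : OpSpace 2 where
  H := HV V
  E := LinearMap.range (xIso C hC).toLinearMap
  fin := inferInstance
  dim := by
    rw [← (xIso C hC).equivRange.toLinearEquiv.finrank_eq]
    simp

/-- coordinates -/
noncomputable def coord (C : Bool → V →L[ℂ] V) (hC : Good C) :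
    EuclideanSpace ℂ (Fin 2) ≃ₗᵢ[ℂ] (space C hC).E := (xIso C hC).equivRange

lemma coord_coe (C : Bool → V →L[ℂ] V) (hC : Good C) (v : EuclideanSpace ℂ (Fin 2)) :
    ((coord C hC v).1 : (space C hC).H →L[ℂ] (space C hC).H) = xLin C v := rfl

lemma hilbertian_space (C : Bool → V →L[ℂ] V) (hC : Good C) : Hilbertian (space C hC) :=
  ⟨(coord C hC).symm⟩

/-- homogeneity in coordinates -/
lemma matNorm_contr (C : Bool → V →L[ℂ] V) {k : ℕ} (α : Fin k → Fin k → EuclideanSpace ℂ (Fin 2))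
    (T : EuclideanSpace ℂ (Fin 2) →ₗ[ℂ] EuclideanSpace ℂ (Fin 2)) {κ : ℝ} (hκ : 0 ≤ κ)
    (hT : ∀ v, ‖T v‖ ≤ κ * ‖v‖) :
    matNorm (fun i j => xLin C (T (α i j))) ≤ κ * matNorm (fun i j => xLin C (α i j)) := by
  set c : Fin 2 → Fin 2 → ℂ := fun s s' => T (EuclideanSpace.single s' 1) s with hc
  have hT' : ∀ v : EuclideanSpace ℂ (Fin 2), (T v).ofLp = mv c v.ofLp := by
    intro v
    have e : v = ∑ s', v s' • EuclideanSpace.single s' (1 : ℂ) := by
      ext s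
      fin_cases s <;> simp [Fin.sum_univ_two]
    funext s
    conv_lhs => rw [e]
    simp only [map_sum, map_smul, mv, hc]
    simp [Fin.sum_univ_two, mul_comm]
  rw [matNorm_le_iff C _ (mul_nonneg hκ (matNorm_nonneg _))]
  intro ξ
  simp_rw [hT']
  rw [mul_pow, mul_assoc]
  refine CF_contr C _ _ ?_ c κ hκ ?_ ξ
  · exact (matNorm_le_iff C α (matNorm_nonneg _)).1 le_rfl
  · intro v
    have h1 := hT (WithLp.toLp 2 v)
    have h2 : ‖T (WithLp.toLp 2 v)‖ ^ 2 ≤ (κ * ‖WithLp.toLp 2 v‖) ^ 2 :=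
      pow_le_pow_left₀ (norm_nonneg _) h1 2
    rw [mul_pow, EuclideanSpace.norm_sq_eq, EuclideanSpace.norm_sq_eq, hT'] at h2
    exact h2

lemma le_cbNorm {m n : ℕ} {E : OpSpace m} {F : OpSpace n} (u : E.E →L[ℂ] F.E) :
    ENNReal.ofReal ‖u‖ ≤ cbNorm E F (u : E.E →ₗ[ℂ] F.E) := by
  rcases eq_or_ne (cbNorm E F (u : E.E →ₗ[ℂ] F.E)) ⊤ with h | h
  · rw [h]; exact le_top
  · have h1 : CB E F (u : E.E →ₗ[ℂ] F.E) (cbNorm E F (u : E.E →ₗ[ℂ] F.E)).toReal :=
      CB_of_cbNorm_le ENNReal.toReal_nonneg (by rw [ENNReal.ofReal_toReal h])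
    have h2 : ‖u‖ ≤ (cbNorm E F (u : E.E →ₗ[ℂ] F.E)).toReal :=
      ContinuousLinearMap.opNorm_le_bound _ ENNReal.toReal_nonneg
        fun e => norm_apply_le_of_CB h1 e
    calc ENNReal.ofReal ‖u‖ ≤ ENNReal.ofReal (cbNorm E F (u : E.E →ₗ[ℂ] F.E)).toReal :=
          ENNReal.ofReal_le_ofReal h2
      _ = _ := ENNReal.ofReal_toReal h

lemma homogeneous_space (C : Bool → V →L[ℂ] V) (hC : Good C) : Homogeneous (space C hC) := by
  intro u
  refine le_antisymm (cbNorm_le_of_CB (ContinuousLinearMap.opNorm_nonneg u) ?_) (le_cbNorm u)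
  intro k a
  set X := coord C hC with hX
  let T : EuclideanSpace ℂ (Fin 2) →ₗ[ℂ] EuclideanSpace ℂ (Fin 2) :=
    X.symm.toLinearEquiv.toLinearMap ∘ₗ (u : (space C hC).E →ₗ[ℂ] (space C hC).E) ∘ₗ
      X.toLinearEquiv.toLinearMap
  have hT : ∀ v, ‖T v‖ ≤ ‖u‖ * ‖v‖ := by
    intro v
    change ‖X.symm (u (X v))‖ ≤ _
    rw [LinearIsometryEquiv.norm_map]
    refine (u.le_opNorm _).trans ?_
    rw [LinearIsometryEquiv.norm_map]
  have h := matNorm_contr C (fun i j => X.symm (a i j)) T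
    (ContinuousLinearMap.opNorm_nonneg u) hT
  have e1 : ∀ i j, xLin C (T (X.symm (a i j)))
      = ((u (a i j)).1 : (space C hC).H →L[ℂ] (space C hC).H) := by
    intro i j
    rw [← coord_coe C hC]
    change (X (X.symm (u (X (X.symm (a i j)))))).1 = _
    rw [LinearIsometryEquiv.apply_symm_apply, LinearIsometryEquiv.apply_symm_apply]
  have e2 : ∀ i j, xLin C (X.symm (a i j))
      = ((a i j).1 : (space C hC).H →L[ℂ] (space C hC).H) := by
    intro i j
    rw [← coord_coe C hC, ← hX, LinearIsometryEquiv.apply_symm_apply]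
  simp_rw [e1, e2] at h
  exact h

end

end Pool.Agent.H2Sep
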