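import Mathlib

/-!
# The quadratic form of the spaces `x(v) : C² ⊗ L → C² ⊗ C² ⊗ L`, and SU(2)-equivariance
-/

namespace Pool.Agent.H2Sep

open Finset

/-- the sign attached to a Boolean -/
def sgn (σ : Bool) : ℂ := if σ then 1 else -1

section

variable {V : Type*} [NormedAddCommGroup V] [InnerProductSpace ℂ V]

/-- `CF C α ξ = ‖∑ α ⊗ x (ξ)‖²`. -/
noncomputable def CF {m n : Type*} [Fintype m] [Fintype n] (C : Bool → V →L[ℂ] V)
    (α : m → n → Fin 2 → ℂ) (ξ : n → Fin 2 → V) : ℝ :=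
  ∑ p, ∑ σ, ∑ s, ∑ t,
    (1 / 4 : ℝ) * ‖C σ (∑ q, (α p q s • ξ q t + sgn σ • α p q t • ξ q s))‖ ^ 2

/-- squared norm of the vector `ξ`. -/
noncomputable def nsq {n : Type*} [Fintype n] (ξ : n → Fin 2 → V) : ℝ := ∑ q, ∑ t, ‖ξ q t‖ ^ 2

/-- the matrix `[[a, b], [-b̄, ā]]`. -/
def Qm (a b : ℂ) : Fin 2 → Fin 2 → ℂ := ![![a, b], ![-(starRingEnd ℂ) b, (starRingEnd ℂ) a]]

/-- matrix applied to a vector -/
def mv {W : Type*} [AddCommGroup W] [Module ℂ W] (Q : Fin 2 → Fin 2 → ℂ) (v : Fin 2 → W) :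
    Fin 2 → W := fun s => ∑ s', Q s s' • v s'

lemma Qm_iso (a b : ℂ) (y : Fin 2 → V) :
    ∑ s, ‖∑ s', Qm a b s s' • y s'‖ ^ 2 = (‖a‖ ^ 2 + ‖b‖ ^ 2) * ∑ s, ‖y s‖ ^ 2 := by
  simp only [Fin.sum_univ_two, Qm, Matrix.cons_val_zero, Matrix.cons_val_one]
  rw [@norm_add_sq ℂ, @norm_add_sq ℂ]
  simp only [norm_smul, inner_smul_left, inner_smul_right, map_neg, Complex.conj_conj, norm_neg,
    RCLike.norm_conj, RCLike.re_to_complex]
  have : ((starRingEnd ℂ) a * (-b * inner ℂ (y 0) (y 1))).re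
      = -(b * ((starRingEnd ℂ) a * inner ℂ (y 0) (y 1))).re := by
    rw [← Complex.neg_re]; congr 1; ring
  rw [this]
  ring

lemma Qm_iso2 (a b : ℂ) (M : Fin 2 → Fin 2 → V) :
    ∑ s, ∑ t, ‖∑ s', ∑ t', Qm a b s s' • Qm a b t t' • M s' t'‖ ^ 2
      = (‖a‖ ^ 2 + ‖b‖ ^ 2) ^ 2 * ∑ s, ∑ t, ‖M s t‖ ^ 2 := by
  have h1 : ∀ s, ∑ t, ‖∑ s', ∑ t', Qm a b s s' • Qm a b t t' • M s' t'‖ ^ 2
      = (‖a‖ ^ 2 + ‖b‖ ^ 2) * ∑ t', ‖∑ s', Qm a b s s' • M s' t'‖ ^ 2 := by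
    intro s
    rw [← Qm_iso]
    refine Finset.sum_congr rfl fun t _ => ?_
    congr 2
    rw [Finset.sum_comm]
    refine Finset.sum_congr rfl fun t' _ => ?_
    rw [Finset.smul_sum]
    refine Finset.sum_congr rfl fun s' _ => ?_
    rw [smul_comm]
  simp_rw [h1, ← Finset.mul_sum]
  rw [Finset.sum_comm]
  simp_rw [Qm_iso, ← Finset.mul_sum]
  rw [Finset.sum_comm]
  ring

lemma CF_equiv {m n : Type*} [Fintype m] [Fintype n] (C : Bool → V →L[ℂ] V)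
    (α : m → n → Fin 2 → ℂ) (ξ : n → Fin 2 → V) (a b : ℂ) :
    CF C (fun p q => mv (Qm a b) (α p q)) (fun q => mv (Qm a b) (ξ q))
      = (‖a‖ ^ 2 + ‖b‖ ^ 2) ^ 2 * CF C α ξ := by
  unfold CF
  rw [Finset.mul_sum]
  refine Finset.sum_congr rfl fun p _ => ?_
  rw [Finset.mul_sum]
  refine Finset.sum_congr rfl fun σ _ => ?_
  have key : ∀ s t, C σ (∑ q, (mv (Qm a b) (α p q) s • mv (Qm a b) (ξ q) t
        + sgn σ • mv (Qm a b) (α p q) t • mv (Qm a b) (ξ q) s))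
      = ∑ s', ∑ t', Qm a b s s' • Qm a b t t' •
        C σ (∑ q, (α p q s' • ξ q t' + sgn σ • α p q t' • ξ q s')) := by
    intro s t
    simp_rw [← map_smul, ← map_sum]
    congr 1
    simp_rw [Finset.smul_sum]
    have e1 : ∀ q : n, (mv (Qm a b) (α p q) s • mv (Qm a b) (ξ q) t
        + sgn σ • mv (Qm a b) (α p q) t • mv (Qm a b) (ξ q) s)
        = ∑ s', ∑ t', Qm a b s s' • Qm a b t t' •
          (α p q s' • ξ q t' + sgn σ • α p q t' • ξ q s') := by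
      intro q
      simp only [mv, Fin.sum_univ_two, smul_eq_mul]
      module
    simp_rw [e1]
    rw [Finset.sum_comm]
    refine Finset.sum_congr rfl fun s' _ => ?_
    rw [Finset.sum_comm]
  simp_rw [key, ← Finset.mul_sum]
  rw [Qm_iso2]
  ring

lemma mv_mv_star (a b : ℂ) (y : Fin 2 → V) :
    mv (Qm a b) (mv (Qm ((starRingEnd ℂ) a) (-b)) y) = fun t => ((‖a‖ ^ 2 + ‖b‖ ^ 2 : ℝ) : ℂ) • y t := by
  have ha : a * (starRingEnd ℂ) a = ((‖a‖ ^ 2 : ℝ) : ℂ) := by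
    rw [Complex.mul_conj, Complex.normSq_eq_norm_sq]
  have hb : b * (starRingEnd ℂ) b = ((‖b‖ ^ 2 : ℝ) : ℂ) := by
    rw [Complex.mul_conj, Complex.normSq_eq_norm_sq]
  rw [Complex.ofReal_add, ← ha, ← hb]
  funext t
  fin_cases t
  · simp only [mv, Fin.sum_univ_two, Qm, Matrix.cons_val_zero, Matrix.cons_val_one, map_neg,
      Complex.conj_conj, Fin.zero_eta, Fin.isValue, neg_neg]
    module
  · simp only [mv, Fin.sum_univ_two, Qm, Matrix.cons_val_zero, Matrix.cons_val_one, map_neg,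
      Complex.conj_conj, Fin.mk_one, Fin.isValue, neg_neg]
    module

lemma CF_smul_right {m n : Type*} [Fintype m] [Fintype n] (C : Bool → V →L[ℂ] V)
    (α : m → n → Fin 2 → ℂ) (ξ : n → Fin 2 → V) (c : ℂ) :
    CF C α (fun q t => c • ξ q t) = ‖c‖ ^ 2 * CF C α ξ := by
  unfold CF
  simp_rw [Finset.mul_sum]
  refine Finset.sum_congr rfl fun p _ => Finset.sum_congr rfl fun σ _ =>
    Finset.sum_congr rfl fun s _ => Finset.sum_congr rfl fun t _ => ?_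
  have : (∑ q, (α p q s • c • ξ q t + sgn σ • α p q t • c • ξ q s))
      = c • ∑ q, (α p q s • ξ q t + sgn σ • α p q t • ξ q s) := by
    rw [Finset.smul_sum]
    refine Finset.sum_congr rfl fun q _ => ?_
    module
  rw [this, map_smul, norm_smul]
  ring

lemma CF_smul_left {m n : Type*} [Fintype m] [Fintype n] (C : Bool → V →L[ℂ] V)
    (α : m → n → Fin 2 → ℂ) (ξ : n → Fin 2 → V) (c : ℂ) :
    CF C (fun p q t => c * α p q t) ξ = ‖c‖ ^ 2 * CF C α ξ := by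
  unfold CF
  simp_rw [Finset.mul_sum]
  refine Finset.sum_congr rfl fun p _ => Finset.sum_congr rfl fun σ _ =>
    Finset.sum_congr rfl fun s _ => Finset.sum_congr rfl fun t _ => ?_
  have : (∑ q, ((c * α p q s) • ξ q t + sgn σ • (c * α p q t) • ξ q s))
      = c • ∑ q, (α p q s • ξ q t + sgn σ • α p q t • ξ q s) := by
    rw [Finset.smul_sum]
    refine Finset.sum_congr rfl fun q _ => ?_
    module
  rw [this, map_smul, norm_smul]
  ring

lemma nsq_smul {n : Type*} [Fintype n] (ξ : n → Fin 2 → V) (c : ℂ) :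
    nsq (fun q t => c • ξ q t) = ‖c‖ ^ 2 * nsq ξ := by
  unfold nsq
  simp_rw [Finset.mul_sum, norm_smul, mul_pow]

lemma CF_nonneg {m n : Type*} [Fintype m] [Fintype n] (C : Bool → V →L[ℂ] V)
    (α : m → n → Fin 2 → ℂ) (ξ : n → Fin 2 → V) : 0 ≤ CF C α ξ := by
  unfold CF
  positivity

lemma nsq_nonneg {n : Type*} [Fintype n] (ξ : n → Fin 2 → V) : 0 ≤ nsq ξ := by
  unfold nsq
  positivity

lemma nsq_mv {n : Type*} [Fintype n] (ξ : n → Fin 2 → V) (a b : ℂ) :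
    nsq (fun q => mv (Qm a b) (ξ q)) = (‖a‖ ^ 2 + ‖b‖ ^ 2) * nsq ξ := by
  unfold nsq mv
  simp_rw [Qm_iso, ← Finset.mul_sum]

/-- covariance of the form -/
lemma CF_quat {m n : Type*} [Fintype m] [Fintype n] (C : Bool → V →L[ℂ] V)
    (α : m → n → Fin 2 → ℂ) (ξ : n → Fin 2 → V) (a b : ℂ) :
    CF C (fun p q => mv (Qm a b) (α p q)) ξ
      = CF C α (fun q => mv (Qm ((starRingEnd ℂ) a) (-b)) (ξ q)) := by
  rcases eq_or_ne (‖a‖ ^ 2 + ‖b‖ ^ 2) 0 with h | h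
  · have ha : a = 0 := by
      have : ‖a‖ ^ 2 = 0 := by nlinarith [sq_nonneg ‖a‖, sq_nonneg ‖b‖]
      simpa using this
    have hb : b = 0 := by
      have : ‖b‖ ^ 2 = 0 := by nlinarith [sq_nonneg ‖a‖, sq_nonneg ‖b‖]
      simpa using this
    subst ha hb
    have hQ : Qm 0 0 = fun _ _ => 0 := by
      funext i j; fin_cases i <;> fin_cases j <;> simp [Qm]
    simp [CF, mv, hQ]
  · have h1 := CF_equiv C α (fun q => mv (Qm ((starRingEnd ℂ) a) (-b)) (ξ q)) a b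
    simp_rw [mv_mv_star] at h1
    rw [CF_smul_right] at h1
    rw [Complex.norm_real, Real.norm_eq_abs, sq_abs] at h1
    exact mul_left_cancel₀ (pow_ne_zero 2 h) h1

end

end Pool.Agent.H2Sep
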