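import Pool.Agent.H2Sep.Root
import Pool.Agent.H2Sep.Form

/-!
# Components: block matrices with monomial unitary blocks
-/

namespace Pool.Agent.H2Sep

open Matrix
open scoped ComplexOrder

/-- a component: a finite set with monomial unitaries `(U_{kl} f)(x) = φ_{kl}(x) f(π_{kl} x)`,
`U_{lk} = U_{kl}⁻¹`, and the real coefficients of the two block matrices. -/
structure Comp where
  Ω : Type
  [fin : Fintype Ω]
  [dec : DecidableEq Ω]
  [ne : Nonempty Ω]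
  π : Fin 4 → Fin 4 → Equiv.Perm Ω
  φ : Fin 4 → Fin 4 → Ω → ℂ
  nφ : ∀ k l x, ‖φ k l x‖ = 1
  πdiag : ∀ k x, π k k x = x
  φdiag : ∀ k x, φ k k x = 1
  πinv : ∀ k l x, π l k (π k l x) = x
  φinv : ∀ k l x, φ l k (π k l x) = (starRingEnd ℂ) (φ k l x)
  z : Bool → Fin 4 → Fin 4 → ℝ
  zsymm : ∀ σ k l, z σ k l = z σ l k

attribute [instance] Comp.fin Comp.dec Comp.ne

namespace Comp

variable (M M' : Comp)

/-- index set of the block matrices -/
abbrev ι : Type := Fin 4 × M.Ω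

/-- the block matrix -/
noncomputable def mat (σ : Bool) : Matrix M.ι M.ι ℂ :=
  fun i j => if j.2 = M.π i.1 j.1 i.2 then (M.z σ i.1 j.1 : ℂ) * M.φ i.1 j.1 i.2 else 0

lemma mat_herm (σ : Bool) : (M.mat σ).IsHermitian := by
  ext ⟨k, x⟩ ⟨l, y⟩
  rw [conjTranspose_apply]
  unfold mat
  simp only
  by_cases h : y = M.π k l x
  · have h' : x = M.π l k y := by rw [h, M.πinv]
    rw [if_pos h, if_pos h']
    simp only [Complex.star_def, map_mul, Complex.conj_ofReal]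
    rw [M.zsymm σ l k, h, M.φinv, Complex.conj_conj]
  · have h' : ¬ x = M.π l k y := by
      intro hx
      apply h
      rw [hx, M.πinv]
    rw [if_neg h, if_neg h', star_zero]

/-- the elementary forms -/
noncomputable def rr (k k' l l' : Fin 4) (y : M.ι → M'.ι → ℂ) : ℝ :=
  (∑ x, ∑ x', (starRingEnd ℂ) (y (k, x) (l, x')) * ((starRingEnd ℂ) (M.φ k k' x) *
    M'.φ l l' x' * y (k', M.π k k' x) (l', M'.π l l' x'))).re

/-- block norms -/
noncomputable def bn (k l : Fin 4) (y : M.ι → M'.ι → ℂ) : ℝ :=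
  Real.sqrt (∑ x, ∑ x', ‖y (k, x) (l, x')‖ ^ 2)

lemma bn_nonneg (k l : Fin 4) (y : M.ι → M'.ι → ℂ) : 0 ≤ bn M M' k l y := Real.sqrt_nonneg _

lemma bn_sq (k l : Fin 4) (y : M.ι → M'.ι → ℂ) :
    bn M M' k l y ^ 2 = ∑ x, ∑ x', ‖y (k, x) (l, x')‖ ^ 2 := by
  unfold bn
  rw [Real.sq_sqrt (by positivity)]

lemma sum_bn (y : M.ι → M'.ι → ℂ) :
    ∑ k, ∑ l, bn M M' k l y ^ 2 = ∑ u, ∑ v, ‖y u v‖ ^ 2 := by
  simp_rw [bn_sq, Fintype.sum_prod_type]
  refine Finset.sum_congr rfl fun k _ => ?_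
  rw [Finset.sum_comm]

lemma rr_diag (k l : Fin 4) (y : M.ι → M'.ι → ℂ) : rr M M' k k l l y = bn M M' k l y ^ 2 := by
  rw [bn_sq]
  unfold rr
  simp only [M.φdiag, M.πdiag, M'.φdiag, M'.πdiag, map_one, one_mul]
  rw [Complex.re_sum]
  refine Finset.sum_congr rfl fun x _ => ?_
  rw [Complex.re_sum]
  refine Finset.sum_congr rfl fun x' _ => ?_
  rw [mul_comm, Complex.mul_conj, Complex.ofReal_re, Complex.normSq_eq_norm_sq]

lemma abs_rr_le (k k' l l' : Fin 4) (y : M.ι → M'.ι → ℂ) :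
    |rr M M' k k' l l' y| ≤ bn M M' k l y * bn M M' k' l' y := by
  have h1 : |rr M M' k k' l l' y| ≤ ∑ p : M.Ω × M'.Ω, ‖y (k, p.1) (l, p.2)‖
      * ‖y (k', M.π k k' p.1) (l', M'.π l l' p.2)‖ := by
    unfold rr
    refine (Complex.abs_re_le_norm _).trans ?_
    rw [← Fintype.sum_prod_type' (f := fun x x' => (starRingEnd ℂ) (y (k, x) (l, x')) *
      ((starRingEnd ℂ) (M.φ k k' x) * M'.φ l l' x' * y (k', M.π k k' x) (l', M'.π l l' x')))]
    refine (norm_sum_le _ _).trans (Finset.sum_le_sum fun p _ => ?_)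
    rw [norm_mul, norm_mul, norm_mul, RCLike.norm_conj, RCLike.norm_conj, M.nφ, M'.nφ, one_mul,
      one_mul]
  refine h1.trans ?_
  refine (Real.sum_mul_le_sqrt_mul_sqrt _ _ _).trans ?_
  unfold bn
  have e1 : ∑ p : M.Ω × M'.Ω, ‖y (k, p.1) (l, p.2)‖ ^ 2 = ∑ x, ∑ x', ‖y (k, x) (l, x')‖ ^ 2 := by
    rw [Fintype.sum_prod_type]
  have e2 : ∑ p : M.Ω × M'.Ω, ‖y (k', M.π k k' p.1) (l', M'.π l l' p.2)‖ ^ 2
      = ∑ x, ∑ x', ‖y (k', x) (l', x')‖ ^ 2 := by
    rw [Fintype.sum_prod_type]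
    rw [Equiv.sum_comp (M.π k k') (fun x => ∑ x', ‖y (k', x) (l', M'.π l l' x')‖ ^ 2)]
    refine Finset.sum_congr rfl fun x _ => ?_
    rw [Equiv.sum_comp (M'.π l l') (fun x' => ‖y (k', x) (l', x')‖ ^ 2)]
  rw [e1, e2]

omit M M' in
lemma swap22 {A B C D : Type} [Fintype A] [Fintype B] [Fintype C] [Fintype D]
    (F : A → B → C → D → ℂ) :
    ∑ a, ∑ b, ∑ c, ∑ d, F a b c d = ∑ c, ∑ d, ∑ a, ∑ b, F a b c d := by
  calc ∑ a, ∑ b, ∑ c, ∑ d, F a b c d = ∑ a, ∑ c, ∑ b, ∑ d, F a b c d :=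
        Finset.sum_congr rfl fun a _ => Finset.sum_comm
    _ = ∑ c, ∑ a, ∑ b, ∑ d, F a b c d := Finset.sum_comm
    _ = ∑ c, ∑ a, ∑ d, ∑ b, F a b c d :=
        Finset.sum_congr rfl fun c _ => Finset.sum_congr rfl fun a _ => Finset.sum_comm
    _ = ∑ c, ∑ d, ∑ a, ∑ b, F a b c d := Finset.sum_congr rfl fun c _ => Finset.sum_comm

/-- evaluation of the form of two block matrices. -/
lemma form_eval (σ σ' : Bool) (y : M.ι → M'.ι → ℂ) :
    (∑ u, ∑ v, ∑ u', ∑ v', (starRingEnd ℂ) (y u v) *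
      ((starRingEnd ℂ) (M.mat σ u u') * M'.mat σ' v v' * y u' v')).re
      = ∑ k, ∑ k', ∑ l, ∑ l', M.z σ k k' * M'.z σ' l l' * rr M M' k k' l l' y := by
  have inner : ∀ (k : Fin 4) (x : M.Ω) (l : Fin 4) (x' : M'.Ω),
      (∑ u' : M.ι, ∑ v' : M'.ι, (starRingEnd ℂ) (y (k, x) (l, x')) *
      ((starRingEnd ℂ) (M.mat σ (k, x) u') * M'.mat σ' (l, x') v' * y u' v'))
      = ∑ k', ∑ l', ((M.z σ k k' * M'.z σ' l l' : ℝ) : ℂ) *
        ((starRingEnd ℂ) (y (k, x) (l, x')) * ((starRingEnd ℂ) (M.φ k k' x) *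
          M'.φ l l' x' * y (k', M.π k k' x) (l', M'.π l l' x'))) := by
    intro k x l x'
    rw [Fintype.sum_prod_type]
    refine Finset.sum_congr rfl fun k' _ => ?_
    rw [Finset.sum_eq_single (M.π k k' x)]
    · rw [Fintype.sum_prod_type]
      refine Finset.sum_congr rfl fun l' _ => ?_
      rw [Finset.sum_eq_single (M'.π l l' x')]
      · unfold mat
        simp only [if_true]
        push_cast
        rw [map_mul, Complex.conj_ofReal]
        ring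
      · intro b _ hb
        unfold mat
        simp only [if_neg hb]
        ring
      · intro h; exact absurd (Finset.mem_univ _) h
    · intro b _ hb
      unfold mat
      simp only [if_neg hb]
      simp
    · intro h; exact absurd (Finset.mem_univ _) h
  have e1 : (∑ u, ∑ v, ∑ u', ∑ v', (starRingEnd ℂ) (y u v) *
      ((starRingEnd ℂ) (M.mat σ u u') * M'.mat σ' v v' * y u' v'))
      = ∑ k, ∑ k', ∑ l, ∑ l', ((M.z σ k k' * M'.z σ' l l' : ℝ) : ℂ) *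
        ∑ x, ∑ x', ((starRingEnd ℂ) (y (k, x) (l, x')) * ((starRingEnd ℂ) (M.φ k k' x) *
          M'.φ l l' x' * y (k', M.π k k' x) (l', M'.π l l' x'))) := by
    rw [Fintype.sum_prod_type]
    refine Finset.sum_congr rfl fun k _ => ?_
    have e2 : ∀ x : M.Ω, (∑ v : M'.ι, ∑ u' : M.ι, ∑ v' : M'.ι, (starRingEnd ℂ) (y (k, x) v) *
      ((starRingEnd ℂ) (M.mat σ (k, x) u') * M'.mat σ' v v' * y u' v'))
      = ∑ l, ∑ x', ∑ k', ∑ l', ((M.z σ k k' * M'.z σ' l l' : ℝ) : ℂ) *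
        ((starRingEnd ℂ) (y (k, x) (l, x')) * ((starRingEnd ℂ) (M.φ k k' x) *
          M'.φ l l' x' * y (k', M.π k k' x) (l', M'.π l l' x'))) := by
      intro x
      rw [Fintype.sum_prod_type]
      exact Finset.sum_congr rfl fun l _ => Finset.sum_congr rfl fun x' _ => inner k x l x'
    rw [Finset.sum_congr rfl fun x _ => e2 x, Finset.sum_comm]
    simp_rw [Finset.mul_sum]
    rw [Finset.sum_comm (s := (Finset.univ : Finset (Fin 4))) (t := (Finset.univ : Finset (Fin 4)))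
      (f := fun k' l => ∑ l', ∑ x, ∑ x', ((M.z σ k k' * M'.z σ' l l' : ℝ) : ℂ) *
        ((starRingEnd ℂ) (y (k, x) (l, x')) * ((starRingEnd ℂ) (M.φ k k' x) *
          M'.φ l l' x' * y (k', M.π k k' x) (l', M'.π l l' x'))))]
    refine Finset.sum_congr rfl fun l _ => ?_
    exact swap22 (fun x x' k' l' => ((M.z σ k k' * M'.z σ' l l' : ℝ) : ℂ) *
        ((starRingEnd ℂ) (y (k, x) (l, x')) * ((starRingEnd ℂ) (M.φ k k' x) *
          M'.φ l l' x' * y (k', M.π k k' x) (l', M'.π l l' x'))))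
  rw [e1]
  unfold rr
  simp only [Complex.re_sum, Complex.re_ofReal_mul]

end Comp

end Pool.Agent.H2Sep
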