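import Mathlib

/-!
# The Schur test
-/

namespace Pool.Agent.H2Sep

lemma schur {I : Type} [Fintype I] (c r : I → I → ℝ) (a y β : I → ℝ)
    (hc : ∀ i j, |c i j| = |c j i|) (hr : ∀ i j, |r i j| ≤ a i * a j) (hy : ∀ i, 0 < y i)
    (hrow : ∀ i, ∑ j, |c i j| * y j ≤ β i * y i) :
    ∑ i, ∑ j, c i j * r i j ≤ ∑ i, β i * a i ^ 2 := by
  have h1 : ∀ i j, c i j * r i j
      ≤ (1 / 2) * (|c i j| * (a i ^ 2 * (y j / y i))) + (1 / 2) * (|c j i| * (a j ^ 2 * (y i / y j))) := by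
    intro i j
    have e1 : c i j * r i j ≤ |c i j| * (a i * a j) := by
      refine (le_abs_self _).trans ?_
      rw [abs_mul]
      exact mul_le_mul_of_nonneg_left (hr i j) (abs_nonneg _)
    have e2 : a i * a j ≤ (1 / 2) * (a i ^ 2 * (y j / y i)) + (1 / 2) * (a j ^ 2 * (y i / y j)) := by
      have hi := hy i
      have hj := hy j
      have h3 : (1 / 2) * (a i ^ 2 * (y j / y i)) + (1 / 2) * (a j ^ 2 * (y i / y j)) - a i * a j
          = (1 / 2) * ((a i * y j - a j * y i) ^ 2 / (y i * y j)) := by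
        field_simp
        ring
      have h4 : 0 ≤ (1 / 2) * ((a i * y j - a j * y i) ^ 2 / (y i * y j)) := by positivity
      linarith
    rw [← hc i j]
    have := mul_le_mul_of_nonneg_left e2 (abs_nonneg (c i j))
    linarith
  have h2 : ∑ i, ∑ j, c i j * r i j ≤ ∑ i, ∑ j, |c i j| * (a i ^ 2 * (y j / y i)) := by
    calc ∑ i, ∑ j, c i j * r i j
        ≤ ∑ i, ∑ j, ((1 / 2) * (|c i j| * (a i ^ 2 * (y j / y i)))
          + (1 / 2) * (|c j i| * (a j ^ 2 * (y i / y j)))) :=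
          Finset.sum_le_sum fun i _ => Finset.sum_le_sum fun j _ => h1 i j
      _ = ∑ i, ∑ j, (1 / 2) * (|c i j| * (a i ^ 2 * (y j / y i)))
          + ∑ i, ∑ j, (1 / 2) * (|c j i| * (a j ^ 2 * (y i / y j))) := by
          simp_rw [Finset.sum_add_distrib]
      _ = ∑ i, ∑ j, (1 / 2) * (|c i j| * (a i ^ 2 * (y j / y i)))
          + ∑ i, ∑ j, (1 / 2) * (|c i j| * (a i ^ 2 * (y j / y i))) := by
          congr 1
          exact Finset.sum_comm
      _ = ∑ i, ∑ j, |c i j| * (a i ^ 2 * (y j / y i)) := by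
          rw [← Finset.sum_add_distrib]
          refine Finset.sum_congr rfl fun i _ => ?_
          rw [← Finset.sum_add_distrib]
          refine Finset.sum_congr rfl fun j _ => ?_
          ring
  refine h2.trans (Finset.sum_le_sum fun i _ => ?_)
  have hi := hy i
  have e3 : ∑ j, |c i j| * (a i ^ 2 * (y j / y i)) = (a i ^ 2 / y i) * ∑ j, |c i j| * y j := by
    rw [Finset.mul_sum]
    refine Finset.sum_congr rfl fun j _ => ?_
    ring
  rw [e3]
  have e4 : (a i ^ 2 / y i) * ∑ j, |c i j| * y j ≤ (a i ^ 2 / y i) * (β i * y i) :=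
    mul_le_mul_of_nonneg_left (hrow i) (by positivity)
  refine e4.trans (le_of_eq ?_)
  field_simp

lemma sum4 (F : Fin 4 → Fin 4 → Fin 4 → Fin 4 → ℝ) :
    ∑ k, ∑ k', ∑ l, ∑ l', F k k' l l'
      = ∑ i : Fin 4 × Fin 4, ∑ j : Fin 4 × Fin 4, F i.1 j.1 i.2 j.2 := by
  simp_rw [Fintype.sum_prod_type]
  refine Finset.sum_congr rfl fun k _ => ?_
  exact Finset.sum_comm

/-- the Schur test for the four-index forms. -/
lemma schur4 (c r : Fin 4 → Fin 4 → Fin 4 → Fin 4 → ℝ) (a y β : Fin 4 → Fin 4 → ℝ)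
    (hc : ∀ k k' l l', |c k k' l l'| = |c k' k l' l|)
    (hr : ∀ k k' l l', |r k k' l l'| ≤ a k l * a k' l') (hy : ∀ k l, 0 < y k l)
    (hrow : ∀ k l, ∑ k', ∑ l', |c k k' l l'| * y k' l' ≤ β k l * y k l) :
    ∑ k, ∑ k', ∑ l, ∑ l', c k k' l l' * r k k' l l' ≤ ∑ k, ∑ l, β k l * a k l ^ 2 := by
  rw [sum4 (fun k k' l l' => c k k' l l' * r k k' l l')]
  have := schur (I := Fin 4 × Fin 4) (fun i j => c i.1 j.1 i.2 j.2) (fun i j => r i.1 j.1 i.2 j.2)
    (fun i => a i.1 i.2) (fun i => y i.1 i.2) (fun i => β i.1 i.2)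
    (fun i j => hc _ _ _ _) (fun i j => hr _ _ _ _) (fun i => hy _ _)
    (fun i => by rw [Fintype.sum_prod_type]; exact hrow _ _)
  refine this.trans (le_of_eq ?_)
  rw [Fintype.sum_prod_type]

end Pool.Agent.H2Sep
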