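import Pool.Agent.H2Sep.Form

/-!
# The test matrix of a component and its form on another component
-/

namespace Pool.Agent.H2Sep

section

variable {V : Type} [NormedAddCommGroup V] [InnerProductSpace ℂ V]

lemma CF_four {m n : Type*} [Fintype m] [Fintype n] (C : Bool → V →L[ℂ] V)
    (α : m → n → Fin 2 → ℂ) (ξ : n → Fin 2 → V) :
    CF C α ξ = ∑ p, (‖C true (∑ q, α p q 0 • ξ q 0)‖ ^ 2 + ‖C true (∑ q, α p q 1 • ξ q 1)‖ ^ 2
      + (1 / 2) * ‖C true ((∑ q, α p q 0 • ξ q 1) + (∑ q, α p q 1 • ξ q 0))‖ ^ 2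
      + (1 / 2) * ‖C false ((∑ q, α p q 0 • ξ q 1) - (∑ q, α p q 1 • ξ q 0))‖ ^ 2) := by
  unfold CF
  refine Finset.sum_congr rfl fun p _ => ?_
  have e : ∀ y : V, ‖y + y‖ ^ 2 = 4 * ‖y‖ ^ 2 := by
    intro y
    rw [← two_smul ℂ y, norm_smul, mul_pow]; norm_num
  simp only [Fintype.sum_bool, Fin.sum_univ_two, sgn, if_true, one_smul, Bool.false_eq_true,
    if_false, neg_smul, Finset.sum_add_distrib, Finset.sum_neg_distrib, add_neg_cancel, map_zero,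
    norm_zero]
  rw [map_add (C true) (∑ q, α p q 0 • ξ q 0) (∑ q, α p q 0 • ξ q 0), e,
    map_add (C true) (∑ q, α p q 1 • ξ q 1) (∑ q, α p q 1 • ξ q 1), e]
  have e2 : (∑ q, α p q 1 • ξ q 0) + (∑ q, α p q 0 • ξ q 1)
      = (∑ q, α p q 0 • ξ q 1) + (∑ q, α p q 1 • ξ q 0) := add_comm _ _
  have e3 : ‖C false ((∑ q, α p q 1 • ξ q 0) + -(∑ q, α p q 0 • ξ q 1))‖
      = ‖C false ((∑ q, α p q 0 • ξ q 1) - (∑ q, α p q 1 • ξ q 0))‖ := by
    rw [← norm_neg, ← map_neg]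
    congr 2
    abel
  rw [e2, e3, ← sub_eq_add_neg]
  ring

/-- scalar coefficients of the test matrix -/
noncomputable def coefA : Fin 4 → Fin 2 → Fin 2 → ℂ :=
  ![![![1, 0], ![0, 0]], ![![0, 0], ![0, 1]],
    ![![0, ((Real.sqrt 2)⁻¹ : ℝ)], ![((Real.sqrt 2)⁻¹ : ℝ), 0]],
    ![![0, -((Real.sqrt 2)⁻¹ : ℝ)], ![((Real.sqrt 2)⁻¹ : ℝ), 0]]]

/-- which of the two matrices is used in a row -/
def sg : Fin 4 → Bool := ![true, true, true, false]

/-- the test matrix -/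
noncomputable def tm {ι : Type} (C : Bool → ι → ι → ℂ) :
    (Fin 4 × ι) → (Fin 2 × ι) → Fin 2 → ℂ :=
  fun p q i => coefA p.1 q.1 i * (starRingEnd ℂ) (C (sg p.1) p.2 q.2)

/-- the conjugate matrix applied to a family of vectors -/
noncomputable def cv {ι : Type} [Fintype ι] (C : ι → ι → ℂ) (y : ι → V) (r : ι) : V :=
  ∑ u, (starRingEnd ℂ) (C r u) • y u

/-- the basic forms -/
noncomputable def NN {ι : Type} [Fintype ι] (C : ι → ι → ℂ) (D : V →L[ℂ] V) (y : ι → V) : ℝ :=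
  ∑ r, ‖D (cv C y r)‖ ^ 2

lemma cv_add {ι : Type} [Fintype ι] (C : ι → ι → ℂ) (y y' : ι → V) (r : ι) :
    cv C (fun u => y u + y' u) r = cv C y r + cv C y' r := by
  unfold cv
  rw [← Finset.sum_add_distrib]
  exact Finset.sum_congr rfl fun u _ => smul_add _ _ _

lemma cv_sub {ι : Type} [Fintype ι] (C : ι → ι → ℂ) (y y' : ι → V) (r : ι) :
    cv C (fun u => y u - y' u) r = cv C y r - cv C y' r := by
  unfold cv
  rw [← Finset.sum_sub_distrib]
  exact Finset.sum_congr rfl fun u _ => smul_sub _ _ _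

lemma tm_sum {ι : Type} [Fintype ι] (C : Bool → ι → ι → ℂ) (ξ : (Fin 2 × ι) → Fin 2 → V)
    (p : Fin 4 × ι) (i t : Fin 2) :
    ∑ q, tm C p q i • ξ q t = coefA p.1 0 i • cv (C (sg p.1)) (fun u => ξ (0, u) t) p.2
      + coefA p.1 1 i • cv (C (sg p.1)) (fun u => ξ (1, u) t) p.2 := by
  rw [Fintype.sum_prod_type, Fin.sum_univ_two]
  unfold tm cv
  rw [Finset.smul_sum, Finset.smul_sum]
  simp only [mul_smul]

/-- the form of the test matrix -/
lemma CF_tm {ι : Type} [Fintype ι] (C : Bool → ι → ι → ℂ) (D : Bool → V →L[ℂ] V)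
    (ξ : (Fin 2 × ι) → Fin 2 → V) :
    CF D (tm C) ξ
      = NN (C true) (D true) (fun u => ξ (0, u) 0) + NN (C true) (D true) (fun u => ξ (1, u) 1)
      + NN (C true) (D true) (fun u => ξ (0, u) 1) + NN (C true) (D true) (fun u => ξ (1, u) 0)
      + (1 / 4) * NN (C true) (D true) (fun u => ξ (1, u) 1 + ξ (0, u) 0)
      + (1 / 4) * NN (C false) (D false) (fun u => ξ (1, u) 1 + ξ (0, u) 0)
      + (1 / 2) * NN (C true) (D false) (fun u => ξ (0, u) 1)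
      + (1 / 2) * NN (C true) (D false) (fun u => ξ (1, u) 0)
      + (1 / 4) * NN (C true) (D false) (fun u => ξ (1, u) 1 - ξ (0, u) 0)
      + (1 / 2) * NN (C false) (D true) (fun u => ξ (0, u) 1)
      + (1 / 2) * NN (C false) (D true) (fun u => ξ (1, u) 0)
      + (1 / 4) * NN (C false) (D true) (fun u => ξ (1, u) 1 - ξ (0, u) 0) := by
  rw [CF_four, Fintype.sum_prod_type, Fin.sum_univ_four]
  simp_rw [tm_sum]
  have hk : ‖(((Real.sqrt 2)⁻¹ : ℝ) : ℂ)‖ ^ 2 = 1 / 2 := by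
    rw [Complex.norm_real, Real.norm_eq_abs, sq_abs, inv_pow, Real.sq_sqrt (by norm_num)]
    norm_num
  have hk' : ∀ y : V, ‖(((Real.sqrt 2)⁻¹ : ℝ) : ℂ) • y‖ ^ 2 = (1 / 2) * ‖y‖ ^ 2 := by
    intro y
    rw [norm_smul, mul_pow, hk]
  generalize hκ : (((Real.sqrt 2)⁻¹ : ℝ) : ℂ) = κ at hk hk'
  have c0 : coefA 0 = ![![1, 0], ![0, 0]] := rfl
  have c1 : coefA 1 = ![![0, 0], ![0, 1]] := rfl
  have c2 : coefA 2 = ![![0, κ], ![κ, 0]] := by rw [← hκ]; rfl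
  have c3 : coefA 3 = ![![0, -κ], ![κ, 0]] := by rw [← hκ]; rfl
  have s0 : sg 0 = true := rfl
  have s1 : sg 1 = true := rfl
  have s2 : sg 2 = true := rfl
  have s3 : sg 3 = false := rfl
  simp only [c0, c1, c2, c3, s0, s1, s2, s3, Matrix.cons_val_zero, Matrix.cons_val_one,
    one_smul, zero_smul, add_zero, zero_add, map_zero, norm_zero, neg_smul]
  unfold NN
  simp only [Finset.mul_sum, ← Finset.sum_add_distrib]
  refine Finset.sum_congr rfl fun r _ => ?_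
  simp only [cv_add, cv_sub]
  generalize cv (C true) (fun u => ξ (0, u) 0) r = a00
  generalize cv (C true) (fun u => ξ (1, u) 1) r = a11
  generalize cv (C true) (fun u => ξ (0, u) 1) r = a01
  generalize cv (C true) (fun u => ξ (1, u) 0) r = a10
  generalize cv (C false) (fun u => ξ (0, u) 0) r = b00
  generalize cv (C false) (fun u => ξ (1, u) 1) r = b11
  generalize cv (C false) (fun u => ξ (0, u) 1) r = b01
  generalize cv (C false) (fun u => ξ (1, u) 0) r = b10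
  simp only [← smul_add, ← smul_sub, map_smul, hk', zero_sub, map_neg, norm_neg]
  have e1 : κ • b11 + -(κ • b00) = κ • (b11 - b00) := by module
  have e2 : κ • b11 - -(κ • b00) = κ • (b11 + b00) := by module
  rw [e1, e2, map_smul, map_smul, hk', hk', sub_zero]
  ring

/-- the form of the symmetric sector -/
noncomputable def GE {ι : Type} [Fintype ι] (C : Bool → ι → ι → ℂ) (D : Bool → V →L[ℂ] V)
    (y : ι → V) : ℝ :=
  (1 / 4) * NN (C false) (D false) y + (3 / 4) * NN (C true) (D true) y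

/-- the form of the orthogonal sector -/
noncomputable def GP {ι : Type} [Fintype ι] (C : Bool → ι → ι → ℂ) (D : Bool → V →L[ℂ] V)
    (y : ι → V) : ℝ :=
  (1 / 2) * NN (C true) (D true) y + (1 / 4) * NN (C false) (D true) y
    + (1 / 4) * NN (C true) (D false) y

lemma NN_parallelogram {ι : Type} [Fintype ι] (C : ι → ι → ℂ) (D : V →L[ℂ] V) (y y' : ι → V) :
    NN C D (fun u => y u + y' u) + NN C D (fun u => y u - y' u) = 2 * (NN C D y + NN C D y') := by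
  unfold NN
  rw [← Finset.sum_add_distrib, ← Finset.sum_add_distrib, Finset.mul_sum]
  refine Finset.sum_congr rfl fun r _ => ?_
  rw [cv_add, cv_sub, map_add, map_sub]
  have := parallelogram_law_with_norm ℂ (D (cv C y r)) (D (cv C y' r))
  nlinarith [this]

lemma CF_tm' {ι : Type} [Fintype ι] (C : Bool → ι → ι → ℂ) (D : Bool → V →L[ℂ] V)
    (ξ : (Fin 2 × ι) → Fin 2 → V) :
    CF D (tm C) ξ = GE C D (fun u => ξ (1, u) 1 + ξ (0, u) 0)
      + GP C D (fun u => ξ (1, u) 1 - ξ (0, u) 0)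
      + 2 * GP C D (fun u => ξ (0, u) 1) + 2 * GP C D (fun u => ξ (1, u) 0) := by
  rw [CF_tm]
  have := NN_parallelogram (C true) (D true) (fun u => ξ (1, u) 1) (fun u => ξ (0, u) 0)
  unfold GE GP
  linarith

/-- upper bound for the form of the test matrix -/
lemma CF_tm_le {ι : Type} [Fintype ι] (C : Bool → ι → ι → ℂ) (D : Bool → V →L[ℂ] V) {Γ : ℝ}
    (hE : ∀ y : ι → V, GE C D y ≤ Γ * ∑ u, ‖y u‖ ^ 2)
    (hP : ∀ y : ι → V, GP C D y ≤ Γ * ∑ u, ‖y u‖ ^ 2)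
    (ξ : (Fin 2 × ι) → Fin 2 → V) : CF D (tm C) ξ ≤ 2 * Γ * nsq ξ := by
  rw [CF_tm']
  have h1 := hE (fun u => ξ (1, u) 1 + ξ (0, u) 0)
  have h2 := hP (fun u => ξ (1, u) 1 - ξ (0, u) 0)
  have h3 := hP (fun u => ξ (0, u) 1)
  have h4 := hP (fun u => ξ (1, u) 0)
  have h5 : ∑ u, ‖ξ (1, u) 1 + ξ (0, u) 0‖ ^ 2 + ∑ u, ‖ξ (1, u) 1 - ξ (0, u) 0‖ ^ 2
      = 2 * (∑ u, ‖ξ (1, u) 1‖ ^ 2 + ∑ u, ‖ξ (0, u) 0‖ ^ 2) := by
    rw [← Finset.sum_add_distrib, ← Finset.sum_add_distrib, Finset.mul_sum]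
    refine Finset.sum_congr rfl fun u _ => ?_
    have := parallelogram_law_with_norm ℂ (ξ (1, u) 1) (ξ (0, u) 0)
    nlinarith [this]
  have h6 : nsq ξ = ∑ u, ‖ξ (0, u) 0‖ ^ 2 + ∑ u, ‖ξ (0, u) 1‖ ^ 2 + ∑ u, ‖ξ (1, u) 0‖ ^ 2
      + ∑ u, ‖ξ (1, u) 1‖ ^ 2 := by
    unfold nsq
    rw [Fintype.sum_prod_type, Fin.sum_univ_two]
    simp only [Fin.sum_univ_two, Finset.sum_add_distrib]
    ring
  rw [h6]
  have h7 : Γ * (∑ u, ‖ξ (1, u) 1 + ξ (0, u) 0‖ ^ 2) + Γ * (∑ u, ‖ξ (1, u) 1 - ξ (0, u) 0‖ ^ 2)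
      = Γ * (2 * (∑ u, ‖ξ (1, u) 1‖ ^ 2 + ∑ u, ‖ξ (0, u) 0‖ ^ 2)) := by
    rw [← mul_add, h5]
  linarith

/-- lower bound for the form of the test matrix -/
lemma le_CF_tm {ι : Type} [Fintype ι] (C : Bool → ι → ι → ℂ) (D : Bool → V →L[ℂ] V) {Γ : ℝ}
    (y : ι → V) (hy : 0 < ∑ u, ‖y u‖ ^ 2) (hE : Γ * ∑ u, ‖y u‖ ^ 2 ≤ GE C D y) :
    ∃ ξ : (Fin 2 × ι) → Fin 2 → V, 0 < nsq ξ ∧ 2 * Γ * nsq ξ ≤ CF D (tm C) ξ := by
  let ξ : (Fin 2 × ι) → Fin 2 → V := fun q t => if q.1 = t then y q.2 else 0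
  have h6 : nsq ξ = 2 * ∑ u, ‖y u‖ ^ 2 := by
    unfold nsq
    rw [Fintype.sum_prod_type, Fin.sum_univ_two]
    simp [ξ, Fin.sum_univ_two]
    ring
  have hz : ∀ (C' : ι → ι → ℂ) (D' : V →L[ℂ] V), NN C' D' (fun _ => (0 : V)) = 0 := by
    intro C' D'
    simp [NN, cv]
  have hGP : GP C D (fun _ => (0 : V)) = 0 := by
    unfold GP
    rw [hz, hz, hz]; ring
  have hdouble : ∀ (C' : ι → ι → ℂ) (D' : V →L[ℂ] V), NN C' D' (fun u => y u + y u)
      = 4 * NN C' D' y := by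
    intro C' D'
    have := NN_parallelogram C' D' y y
    have h0 := hz C' D'
    simp only [sub_self] at this
    rw [h0] at this
    linarith
  refine ⟨ξ, by rw [h6]; positivity, ?_⟩
  rw [CF_tm', h6]
  have a1 : (fun u => ξ (1, u) 1 + ξ (0, u) 0) = fun u => y u + y u := by
    funext u; simp [ξ]
  have a2 : (fun u => ξ (1, u) 1 - ξ (0, u) 0) = fun _ => (0 : V) := by
    funext u; simp [ξ]
  have a3 : (fun u => ξ (0, u) 1) = fun _ => (0 : V) := by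
    funext u; simp [ξ]
  have a4 : (fun u => ξ (1, u) 0) = fun _ => (0 : V) := by
    funext u; simp [ξ]
  rw [a1, a2, a3, a4, hGP]
  have : GE C D (fun u => y u + y u) = 4 * GE C D y := by
    unfold GE
    rw [hdouble, hdouble]; ring
  rw [this]
  linarith

end

end Pool.Agent.H2Sep
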