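import Pool.Agent.H2Sep.Comp
import Pool.Agent.H2Sep.TestForm
import Pool.Agent.H2Sep.Schur

/-!
# The forms of components
-/

namespace Pool.Agent.H2Sep

open Matrix
open scoped ComplexOrder

namespace Comp

section single

variable (M : Comp)

/-- elementary forms of one component -/
noncomputable def rs (k k' : Fin 4) (v : M.ι → ℂ) : ℝ :=
  (∑ x, (starRingEnd ℂ) (v (k, x)) * (M.φ k k' x * v (k', M.π k k' x))).re

/-- block norms -/
noncomputable def bs (k : Fin 4) (v : M.ι → ℂ) : ℝ := Real.sqrt (∑ x, ‖v (k, x)‖ ^ 2)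

lemma bs_sq (k : Fin 4) (v : M.ι → ℂ) : bs M k v ^ 2 = ∑ x, ‖v (k, x)‖ ^ 2 := by
  unfold bs
  rw [Real.sq_sqrt (by positivity)]

lemma sum_bs (v : M.ι → ℂ) : ∑ k, bs M k v ^ 2 = ∑ u, ‖v u‖ ^ 2 := by
  simp_rw [bs_sq, Fintype.sum_prod_type]

lemma rs_diag (k : Fin 4) (v : M.ι → ℂ) : rs M k k v = bs M k v ^ 2 := by
  rw [bs_sq]
  unfold rs
  simp only [M.φdiag, M.πdiag, one_mul]
  rw [Complex.re_sum]
  refine Finset.sum_congr rfl fun x _ => ?_
  rw [mul_comm, Complex.mul_conj, Complex.ofReal_re, Complex.normSq_eq_norm_sq]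

lemma abs_rs_le (k k' : Fin 4) (v : M.ι → ℂ) : |rs M k k' v| ≤ bs M k v * bs M k' v := by
  have h1 : |rs M k k' v| ≤ ∑ x, ‖v (k, x)‖ * ‖v (k', M.π k k' x)‖ := by
    unfold rs
    refine (Complex.abs_re_le_norm _).trans ?_
    refine (norm_sum_le _ _).trans (Finset.sum_le_sum fun x _ => ?_)
    rw [norm_mul, norm_mul, RCLike.norm_conj, M.nφ, one_mul]
  refine h1.trans ?_
  refine (Real.sum_mul_le_sqrt_mul_sqrt _ _ _).trans ?_
  unfold bs
  rw [Equiv.sum_comp (M.π k k') (fun x => ‖v (k', x)‖ ^ 2)]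

lemma single_eval (σ : Bool) (v : M.ι → ℂ) :
    (star v ⬝ᵥ (M.mat σ *ᵥ v)).re = ∑ k, ∑ k', M.z σ k k' * rs M k k' v := by
  have e1 : star v ⬝ᵥ (M.mat σ *ᵥ v) = ∑ k, ∑ k', ((M.z σ k k' : ℝ) : ℂ) *
      ∑ x, (starRingEnd ℂ) (v (k, x)) * (M.φ k k' x * v (k', M.π k k' x)) := by
    simp only [dotProduct, mulVec]
    rw [Fintype.sum_prod_type]
    refine Finset.sum_congr rfl fun k _ => ?_
    simp_rw [Finset.mul_sum]
    rw [Finset.sum_comm (s := (Finset.univ : Finset (Fin 4)))]
    refine Finset.sum_congr rfl fun x _ => ?_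
    rw [Fintype.sum_prod_type]
    refine Finset.sum_congr rfl fun k' _ => ?_
    rw [Finset.sum_eq_single (M.π k k' x)]
    · unfold mat
      simp only [if_true, Pi.star_apply, Complex.star_def]
      ring
    · intro b _ hb
      unfold mat
      simp only [if_neg hb]
      ring
    · intro h; exact absurd (Finset.mem_univ _) h
  rw [e1]
  unfold rs
  simp only [Complex.re_sum, Complex.re_ofReal_mul]

/-- real Schur test for one component -/
lemma single_le (c : Fin 4 → Fin 4 → ℝ) (hc : ∀ k l, c k l = c l k)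
    (β : ℝ) (hrow : ∀ k, ∑ k', |c k k'| ≤ β) (v : M.ι → ℂ) :
    ∑ k, ∑ k', c k k' * rs M k k' v ≤ β * ∑ u, ‖v u‖ ^ 2 := by
  have := schur c (fun k k' => rs M k k' v) (fun k => bs M k v) (fun _ => 1) (fun _ => β)
    (fun i j => by rw [hc]) (fun i j => abs_rs_le M i j v) (fun _ => one_pos)
    (fun i => by simpa using hrow i)
  rwa [← Finset.mul_sum, sum_bs] at this

lemma mat_psd (σ : Bool)
    (h : ∀ k, ∑ k', (if k' = k then 0 else |M.z σ k k'|) ≤ M.z σ k k) :
    (M.mat σ).PosSemidef := by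
  refine PosSemidef.of_dotProduct_mulVec_nonneg (M.mat_herm σ) fun v => ?_
  rw [Complex.nonneg_iff]
  constructor
  · rw [single_eval]
    -- compare with the diagonal
    have h1 := schur (fun k k' => if k' = k then 0 else - M.z σ k k') (fun k k' => rs M k k' v)
      (fun k => bs M k v) (fun _ => 1) (fun k => M.z σ k k)
      (fun i j => by
        by_cases hij : i = j
        · subst hij; simp
        · rw [if_neg hij, if_neg (Ne.symm hij), M.zsymm])
      (fun i j => abs_rs_le M i j v) (fun _ => one_pos)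
      (fun i => by
        have := h i
        simp only [mul_one]
        refine le_trans (le_of_eq ?_) this
        refine Finset.sum_congr rfl fun j _ => ?_
        by_cases hij : j = i
        · simp [hij]
        · simp [hij])
    have h2 : ∑ k, ∑ k', M.z σ k k' * rs M k k' v
        = ∑ k, M.z σ k k * bs M k v ^ 2
          - ∑ k, ∑ k', (if k' = k then 0 else - M.z σ k k') * rs M k k' v := by
      rw [← Finset.sum_sub_distrib]
      refine Finset.sum_congr rfl fun k _ => ?_
      have h3 : M.z σ k k * bs M k v ^ 2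
          = ∑ k', (if k' = k then M.z σ k k' * rs M k k' v else 0) := by
        rw [Finset.sum_ite_eq']
        simp [rs_diag]
      rw [h3, ← Finset.sum_sub_distrib]
      refine Finset.sum_congr rfl fun k' _ => ?_
      split_ifs
      · ring
      · ring
    rw [h2]
    linarith
  · have := (M.mat_herm σ).im_star_dotProduct_mulVec_self v
    exact this.symm

end single

/-- The hypothesis giving positivity of the two block matrices. -/
def Dom (M : Comp) : Prop :=
  ∀ σ k, ∑ k', (if k' = k then 0 else |M.z σ k k'|) ≤ M.z σ k k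

/-- A square root of twice the block matrix. -/
noncomputable def root (M : Comp) (hM : M.Dom) (σ : Bool) : Matrix M.ι M.ι ℂ :=
  Classical.choose (exists_root (((M.mat_psd σ (hM σ)).add (M.mat_psd σ (hM σ)))))

lemma root_spec (M : Comp) (hM : M.Dom) (σ : Bool) :
    (M.root hM σ)ᴴ * M.root hM σ = M.mat σ + M.mat σ :=
  Classical.choose_spec (exists_root (((M.mat_psd σ (hM σ)).add (M.mat_psd σ (hM σ)))))

/-- the space of the component -/
abbrev Sp (M : Comp) : Type := EuclideanSpace ℂ M.ι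

/-- the operators of the component -/
noncomputable def op (M : Comp) (hM : M.Dom) (σ : Bool) : M.Sp →L[ℂ] M.Sp :=
  toEuclideanCLM (n := M.ι) (𝕜 := ℂ) (M.root hM σ)

lemma norm_op_sq (M : Comp) (hM : M.Dom) (σ : Bool) (v : M.Sp) :
    ‖M.op hM σ v‖ ^ 2 = 2 * ∑ k, ∑ k', M.z σ k k' * rs M k k' v.ofLp := by
  have h1 : ‖M.op hM σ v‖ ^ 2 = ∑ i, ‖(M.root hM σ *ᵥ v.ofLp) i‖ ^ 2 := by
    rw [EuclideanSpace.norm_sq_eq]
    rfl
  have h2 := sum_mulVec_sq (M.root hM σ) v.ofLp
  rw [root_spec] at h2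
  have h3 := congrArg Complex.re h2
  rw [Complex.ofReal_re, add_mulVec, dotProduct_add, Complex.add_re, single_eval] at h3
  rw [h1, h3]
  ring

lemma NN_eq (M M' : Comp) (hM : M.Dom) (hM' : M'.Dom) (σ σ' : Bool) (y : M.ι → M'.Sp) :
    NN (M.root hM σ) (M'.op hM' σ') y
      = 4 * ∑ k, ∑ k', ∑ l, ∑ l', M.z σ k k' * M'.z σ' l l'
          * rr M M' k k' l l' (fun u v => y u v) := by
  have h1 : NN (M.root hM σ) (M'.op hM' σ') y
      = ∑ r, ∑ r', ‖∑ u, ∑ v, (M.root hM σ).map (starRingEnd ℂ) r u * M'.root hM' σ' r' v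
          * y u v‖ ^ 2 := by
    unfold NN
    refine Finset.sum_congr rfl fun r _ => ?_
    rw [EuclideanSpace.norm_sq_eq]
    refine Finset.sum_congr rfl fun r' _ => ?_
    have e : (M'.op hM' σ' (cv (M.root hM σ) y r)).ofLp r'
        = ∑ u, ∑ v, (M.root hM σ).map (starRingEnd ℂ) r u * M'.root hM' σ' r' v * y u v := by
      change ((M'.root hM' σ') *ᵥ (cv (M.root hM σ) y r).ofLp) r' = _
      simp only [mulVec, dotProduct, cv, WithLp.ofLp_sum, WithLp.ofLp_smul, Finset.sum_apply,
        Pi.smul_apply, smul_eq_mul, Finset.mul_sum, map_apply]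
      rw [Finset.sum_comm]
      refine Finset.sum_congr rfl fun u _ => Finset.sum_congr rfl fun v _ => ?_
      ring
    rw [← e]
  have h2 := sum_two_sq ((M.root hM σ).map (starRingEnd ℂ)) (M'.root hM' σ') (fun u v => y u v)
  have h3 := congrArg Complex.re h2
  rw [Complex.ofReal_re] at h3
  have h4 : ∀ u u', (((M.root hM σ).map (starRingEnd ℂ))ᴴ * (M.root hM σ).map (starRingEnd ℂ)) u u'
      = (starRingEnd ℂ) (M.mat σ u u' + M.mat σ u u') := by
    intro u u'
    have := congrFun (congrFun (root_spec M hM σ) u) u'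
    rw [Matrix.add_apply] at this
    rw [← this, Matrix.mul_apply, Matrix.mul_apply, map_sum]
    refine Finset.sum_congr rfl fun r _ => ?_
    rw [map_mul]
    rfl
  have h5 : ∀ v v', ((M'.root hM' σ')ᴴ * M'.root hM' σ') v v' = M'.mat σ' v v' + M'.mat σ' v v' := by
    intro v v'
    have := congrFun (congrFun (root_spec M' hM' σ') v) v'
    rw [Matrix.add_apply] at this
    exact this
  rw [h1, h3, ← form_eval]
  simp_rw [h4, h5]
  have h6 : ∀ (u v u' v'), (starRingEnd ℂ) (y u v) * ((starRingEnd ℂ) (M.mat σ u u' + M.mat σ u u')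
      * (M'.mat σ' v v' + M'.mat σ' v v') * y u' v')
      = ((4 : ℝ) : ℂ) * ((starRingEnd ℂ) (y u v) * ((starRingEnd ℂ) (M.mat σ u u')
      * M'.mat σ' v v' * y u' v')) := by
    intro u v u' v'
    push_cast
    rw [map_add]
    ring
  simp_rw [h6, ← Finset.mul_sum]
  rw [Complex.re_ofReal_mul]

end Comp

end Pool.Agent.H2Sep
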