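import Mathlib

/-!
# Finite-dimensional operator spaces: definitions

An `n`-dimensional operator space is an `n`-dimensional subspace `E` of `B(H)`, `H` a complex
Hilbert space.  The matrix norms are those of `M_k(B(H)) = B(H^k)`.
-/

open scoped ENNReal

namespace Pool.Agent.H2Sep

/-- A (concrete) operator space of dimension `n`: an `n`-dimensional subspace `E` of `B(H)`,
where `H` is a complex Hilbert space. -/
structure OpSpace (n : ℕ) where
  /-- the Hilbert space -/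
  H : Type
  [instNorm : NormedAddCommGroup H]
  [instInner : InnerProductSpace ℂ H]
  [instComplete : CompleteSpace H]
  /-- the subspace of `B(H)` -/
  E : Submodule ℂ (H →L[ℂ] H)
  fin : Module.Finite ℂ E
  dim : Module.finrank ℂ E = n

attribute [instance] OpSpace.instNorm OpSpace.instInner OpSpace.instComplete OpSpace.fin

/-- The norm of a `k × k` matrix `a` of bounded operators on `H`, acting on the Hilbert space
direct sum `H^k` by `(a x)_i = ∑ j, a_ij x_j`: the least `C ≥ 0` with `‖a x‖² ≤ C² ‖x‖²`. -/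
noncomputable def matNorm {H : Type} [NormedAddCommGroup H] [InnerProductSpace ℂ H]
    {k : ℕ} (a : Fin k → Fin k → (H →L[ℂ] H)) : ℝ :=
  sInf {C : ℝ | 0 ≤ C ∧ ∀ x : Fin k → H,
    ∑ i, ‖∑ j, a i j (x j)‖ ^ 2 ≤ C ^ 2 * ∑ j, ‖x j‖ ^ 2}

/-- The completely bounded norm `‖u‖_cb = sup_k ‖id_{M_k} ⊗ u‖` of a linear map between
operator spaces. -/
noncomputable def cbNorm {m n : ℕ} (E : OpSpace m) (F : OpSpace n) (u : E.E →ₗ[ℂ] F.E) : ℝ≥0∞ :=
  ⨆ (k : ℕ) (a : Fin k → Fin k → E.E) (_ : matNorm (fun i j => (a i j : E.H →L[ℂ] E.H)) ≤ 1),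
    ENNReal.ofReal (matNorm (fun i j => (u (a i j) : F.H →L[ℂ] F.H)))

/-- The completely bounded Banach-Mazur distance
`d_cb(E,F) = inf ‖u‖_cb ‖u⁻¹‖_cb` over all linear isomorphisms `u : E → F`. -/
noncomputable def dcb {n : ℕ} (E F : OpSpace n) : ℝ≥0∞ :=
  ⨅ u : E.E ≃ₗ[ℂ] F.E, cbNorm E F u.toLinearMap * cbNorm F E u.symm.toLinearMap

/-- `E` is (isometrically) Hilbertian: as a normed space it is isometric to `ℓ₂ⁿ`. -/
def Hilbertian {n : ℕ} (E : OpSpace n) : Prop :=
  Nonempty (E.E ≃ₗᵢ[ℂ] EuclideanSpace ℂ (Fin n))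

/-- `E` is homogeneous: every linear map `u : E → E` satisfies `‖u‖_cb = ‖u‖`
(`E` is finite-dimensional, so every linear map is continuous). -/
def Homogeneous {n : ℕ} (E : OpSpace n) : Prop :=
  ∀ u : E.E →L[ℂ] E.E, cbNorm E E (u : E.E →ₗ[ℂ] E.E) = ENNReal.ofReal ‖u‖

/-- A set `S` of `n`-dimensional operator spaces is separable for `δ_cb = log d_cb`:
some countable subset `D` of `S` is dense in `S`. -/
def Separable {n : ℕ} (S : Set (OpSpace n)) : Prop :=
  ∃ D : Set (OpSpace n), D ⊆ S ∧ D.Countable ∧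
    ∀ E ∈ S, ∀ ε : ℝ, 0 < ε → ∃ F ∈ D, dcb E F < ENNReal.ofReal (1 + ε)

end Pool.Agent.H2Sep
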