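import Pool.Agent.H2Sep.Sep

/-!
# Abstract nonseparability theorem
-/

open scoped ENNReal

namespace Pool.Agent.H2Sep

lemma cbNorm_ne_zero {n : ℕ} {E F : OpSpace n} (u : E.E ≃ₗ[ℂ] F.E) (h : ∃ e : E.E, e ≠ 0) :
    cbNorm E F u.toLinearMap ≠ 0 := by
  intro h0
  have h1 : CB E F u.toLinearMap 0 := CB_of_cbNorm_le le_rfl (by rw [h0]; simp)
  obtain ⟨e, he⟩ := h
  have h2 := norm_apply_le_of_CB h1 e
  rw [zero_mul] at h2
  have h3 : u e = 0 := norm_le_zero_iff.1 h2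
  exact he (by simpa using h3)

lemma exists_CB {n : ℕ} {E F : OpSpace n} (h : ∃ e : E.E, e ≠ 0) {r : ℝ} (hr : 0 < r)
    (hd : dcb E F < ENNReal.ofReal r) :
    ∃ (u : E.E ≃ₗ[ℂ] F.E) (K K' : ℝ), 0 ≤ K ∧ 0 ≤ K' ∧ CB E F u.toLinearMap K ∧
      CB F E u.symm.toLinearMap K' ∧ K * K' < r := by
  unfold dcb at hd
  rw [iInf_lt_iff] at hd
  obtain ⟨u, hu⟩ := hd
  have n1 := cbNorm_ne_zero u h
  have n2 : cbNorm F E u.symm.toLinearMap ≠ 0 := by
    refine cbNorm_ne_zero u.symm ?_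
    obtain ⟨e, he⟩ := h
    exact ⟨u e, by simpa using he⟩
  have hlt : cbNorm E F u.toLinearMap * cbNorm F E u.symm.toLinearMap < ⊤ :=
    hu.trans ENNReal.ofReal_lt_top
  have f1 : cbNorm E F u.toLinearMap ≠ ⊤ := by
    intro h1
    rw [h1, ENNReal.top_mul n2] at hlt
    exact lt_irrefl _ hlt
  have f2 : cbNorm F E u.symm.toLinearMap ≠ ⊤ := by
    intro h1
    rw [h1, ENNReal.mul_top n1] at hlt
    exact lt_irrefl _ hlt
  refine ⟨u, (cbNorm E F u.toLinearMap).toReal, (cbNorm F E u.symm.toLinearMap).toReal,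
    ENNReal.toReal_nonneg, ENNReal.toReal_nonneg,
    CB_of_cbNorm_le ENNReal.toReal_nonneg (by rw [ENNReal.ofReal_toReal f1]),
    CB_of_cbNorm_le ENNReal.toReal_nonneg (by rw [ENNReal.ofReal_toReal f2]), ?_⟩
  rw [← ENNReal.toReal_mul]
  have := (ENNReal.toReal_lt_toReal hlt.ne ENNReal.ofReal_ne_top).2 hu
  rwa [ENNReal.toReal_ofReal hr.le] at this

lemma CB.comp {a b c : ℕ} {E : OpSpace a} {F : OpSpace b} {G : OpSpace c}
    {v : F.E →ₗ[ℂ] G.E} {u : E.E →ₗ[ℂ] F.E} {K L : ℝ} (hL : 0 ≤ L)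
    (hu : CB E F u K) (hv : CB F G v L) : CB E G (v ∘ₗ u) (L * K) := by
  intro k a
  refine (hv k (fun i j => u (a i j))).trans ?_
  rw [mul_assoc]
  exact mul_le_mul_of_nonneg_left (hu k a) hL

section directsum

variable {J : Type} {L : J → Type} [∀ j, NormedAddCommGroup (L j)]
  [∀ j, InnerProductSpace ℂ (L j)] [∀ j, CompleteSpace (L j)]

lemma hasSum_sq (f : lp L 2) : HasSum (fun j => ‖f j‖ ^ 2) (‖f‖ ^ 2) := by
  have h := lp.hasSum_norm (p := 2) (by norm_num) f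
  simpa using h

/-- the direct sum of the operators `D j σ`, `j ∈ ω`. -/
noncomputable def DS (D : ∀ j, Bool → L j →L[ℂ] L j) (hD : ∀ j σ, ‖D j σ‖ ≤ 2) (ω : Set J)
    [DecidablePred (· ∈ ω)] (σ : Bool) : lp L 2 →L[ℂ] lp L 2 :=
  lp.mapCLM 2 (fun j => if j ∈ ω then D j σ else 0) (K := 2) (by norm_num) (by
    intro j
    split_ifs
    · exact hD j σ
    · simp)

lemma DS_apply (D : ∀ j, Bool → L j →L[ℂ] L j) (hD : ∀ j σ, ‖D j σ‖ ≤ 2) (ω : Set J)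
    [DecidablePred (· ∈ ω)] (σ : Bool) (x : lp L 2) (j : J) :
    (DS D hD ω σ x) j = if j ∈ ω then D j σ (x j) else 0 := by
  unfold DS
  rw [lp.mapCLM_apply_coe]
  split_ifs <;> simp

lemma DS_comp {m n : Type} [Fintype m] [Fintype n] (D : ∀ j, Bool → L j →L[ℂ] L j)
    (hD : ∀ j σ, ‖D j σ‖ ≤ 2) (ω : Set J) [DecidablePred (· ∈ ω)]
    (α : m → n → Fin 2 → ℂ) (ξ : n → Fin 2 → lp L 2) :
    HasSum (fun j => if j ∈ ω then CF (D j) α (fun q t => ξ q t j) else 0)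
      (CF (DS D hD ω) α ξ) := by
  unfold CF
  have h1 : ∀ j, (if j ∈ ω then ∑ p, ∑ σ, ∑ s, ∑ t, (1 / 4 : ℝ) *
      ‖D j σ (∑ q, (α p q s • ξ q t j + sgn σ • α p q t • ξ q s j))‖ ^ 2 else 0)
      = ∑ p, ∑ σ, ∑ s, ∑ t, (1 / 4 : ℝ) * ‖(DS D hD ω σ
          (∑ q, (α p q s • ξ q t + sgn σ • α p q t • ξ q s))) j‖ ^ 2 := by
    intro j
    split_ifs with hj
    · refine Finset.sum_congr rfl fun p _ => Finset.sum_congr rfl fun σ _ =>
        Finset.sum_congr rfl fun s _ => Finset.sum_congr rfl fun t _ => ?_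
      rw [DS_apply, if_pos hj]
      congr 4
      rw [lp.coeFn_sum, Finset.sum_apply]
      rfl
    · symm
      refine Finset.sum_eq_zero fun p _ => Finset.sum_eq_zero fun σ _ =>
        Finset.sum_eq_zero fun s _ => Finset.sum_eq_zero fun t _ => ?_
      rw [DS_apply, if_neg hj, norm_zero]
      ring
  simp_rw [h1]
  exact hasSum_sum fun p _ => hasSum_sum fun σ _ => hasSum_sum fun s _ => hasSum_sum fun t _ =>
    (hasSum_sq _).mul_left _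

lemma nsq_hasSum {n : Type} [Fintype n] (ξ : n → Fin 2 → lp L 2) :
    HasSum (fun j => nsq (fun q t => ξ q t j)) (nsq ξ) := by
  unfold nsq
  exact hasSum_sum fun q _ => hasSum_sum fun t _ => hasSum_sq _

lemma DS_upper {m n : Type} [Fintype m] [Fintype n] (D : ∀ j, Bool → L j →L[ℂ] L j)
    (hD : ∀ j σ, ‖D j σ‖ ≤ 2) (ω : Set J) [DecidablePred (· ∈ ω)]
    (α : m → n → Fin 2 → ℂ) {β : ℝ} (hβ : 0 ≤ β)
    (h : ∀ j ∈ ω, ∀ ξ : n → Fin 2 → L j, CF (D j) α ξ ≤ β * nsq ξ)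
    (ξ : n → Fin 2 → lp L 2) : CF (DS D hD ω) α ξ ≤ β * nsq ξ := by
  refine hasSum_le ?_ (DS_comp D hD ω α ξ) ((nsq_hasSum ξ).mul_left β)
  intro j
  by_cases hj : j ∈ ω
  · simp only [hj, if_true]
    exact h j hj _
  · simp only [hj, if_false]
    exact mul_nonneg hβ (nsq_nonneg _)

lemma DS_lower {m n : Type} [Fintype m] [Fintype n] [DecidableEq J]
    (D : ∀ j, Bool → L j →L[ℂ] L j)
    (hD : ∀ j σ, ‖D j σ‖ ≤ 2) (ω : Set J) [DecidablePred (· ∈ ω)]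
    (α : m → n → Fin 2 → ℂ) {j : J} (hj : j ∈ ω) (ξ : n → Fin 2 → L j) :
    CF (D j) α ξ ≤ CF (DS D hD ω) α (fun q t => lp.single 2 j (ξ q t)) := by
  have h := DS_comp D hD ω α (fun q t => lp.single 2 j (ξ q t))
  have h2 := le_hasSum h j (fun i _ => by
    split_ifs
    · exact CF_nonneg _ _ _
    · exact le_rfl)
  simpa [hj] using h2

lemma nsq_single {n : Type} [Fintype n] [DecidableEq J] (j : J) (ξ : n → Fin 2 → L j) :
    nsq (fun q t => (lp.single 2 j (ξ q t) : lp L 2)) = nsq ξ := by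
  unfold nsq
  simp [lp.norm_single]

lemma DS_good [DecidableEq J] (D : ∀ j, Bool → L j →L[ℂ] L j)
    (hD : ∀ j σ, ‖D j σ‖ ≤ 2)
    (h1 : ∀ j y, (1 / 2 : ℝ) * ‖D j true y‖ ^ 2 + (1 / 2) * ‖D j false y‖ ^ 2 ≤ ‖y‖ ^ 2)
    (h2 : ∀ j y, ‖D j true y‖ ^ 2 ≤ ‖y‖ ^ 2) (j0 : J)
    (h3 : ∃ y, y ≠ 0 ∧ ∀ σ, ‖D j0 σ y‖ = ‖y‖) (ω : Set J) [DecidablePred (· ∈ ω)]
    (h0 : j0 ∈ ω) : Good (DS D hD ω) := by
  refine ⟨?_, ?_, ?_⟩
  · intro y
    refine hasSum_le ?_ (((hasSum_sq _).mul_left (1 / 2 : ℝ)).add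
      ((hasSum_sq _).mul_left (1 / 2 : ℝ))) (hasSum_sq y)
    intro j
    simp only [DS_apply]
    split_ifs
    · exact h1 j (y j)
    · simp
  · intro y
    refine hasSum_le ?_ (hasSum_sq _) (hasSum_sq y)
    intro j
    simp only [DS_apply]
    split_ifs
    · exact h2 j (y j)
    · simp
  · obtain ⟨y, hy0, hy⟩ := h3
    have hn : ‖(lp.single 2 j0 y : lp L 2)‖ = ‖y‖ := lp.norm_single (by norm_num) j0 y
    refine ⟨lp.single 2 j0 y, ?_, ?_⟩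
    · rw [← norm_ne_zero_iff, hn]
      simpa using hy0
    · intro σ
      have : DS D hD ω σ (lp.single 2 j0 y) = lp.single 2 j0 (D j0 σ y) := by
        ext j
        rw [DS_apply]
        by_cases hj : j = j0
        · subst hj
          simp [h0]
        · rw [lp.single_apply_ne 2 j0 _ hj, lp.single_apply_ne 2 j0 _ hj]
          simp
      rw [this, hn, lp.norm_single (by norm_num), hy]

end directsum

lemma not_countable_univ_set (X : Type) [Infinite X] :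
    ¬ (Set.univ : Set (Set X)).Countable := by
  intro h
  have h1 : Countable (Set X) := Set.countable_univ_iff.1 h
  obtain ⟨f, hf⟩ := exists_injective_nat (Set X)
  exact Function.cantor_injective (fun s => Infinite.natEmbedding X (f s))
    ((Infinite.natEmbedding X).injective.comp hf)

lemma exists_eps {β β' : ℝ} (h : β < β') : ∃ ε : ℝ, 0 < ε ∧ (1 + ε) ^ 4 * β < β' := by
  have hlim : Filter.Tendsto (fun ε : ℝ => (1 + ε) ^ 4 * β)
      (nhdsWithin 0 (Set.Ioi 0)) (nhds ((1 + 0) ^ 4 * β)) := by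
    refine tendsto_nhdsWithin_of_tendsto_nhds ?_
    exact (Continuous.tendsto (by fun_prop) 0)
  have h1 : (1 + 0) ^ 4 * β < β' := by simpa using h
  have h2 := (hlim.eventually_lt_const h1).and self_mem_nhdsWithin
  obtain ⟨ε, hε1, hε2⟩ := h2.exists
  exact ⟨ε, hε2, hε1⟩

lemma CB_trans {E E' F : OpSpace 2} (u : E.E ≃ₗ[ℂ] F.E) (u2 : E'.E ≃ₗ[ℂ] F.E) {K1 K4 : ℝ}
    (hK4 : 0 ≤ K4) (hu : CB E F u.toLinearMap K1) (hu2' : CB F E' u2.symm.toLinearMap K4) :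
    CB E E' (u.trans u2.symm).toLinearMap (K4 * K1) := by
  have h : (u.trans u2.symm).toLinearMap = u2.symm.toLinearMap ∘ₗ u.toLinearMap := by
    ext x; simp
  rw [h]
  exact hu.comp hK4 hu2'

lemma CB_trans_symm {E E' F : OpSpace 2} (u : E.E ≃ₗ[ℂ] F.E) (u2 : E'.E ≃ₗ[ℂ] F.E) {K1 K4 : ℝ}
    (hK1 : 0 ≤ K1) (hu : CB F E u.symm.toLinearMap K1) (hu2' : CB E' F u2.toLinearMap K4) :
    CB E' E (u.trans u2.symm).symm.toLinearMap (K1 * K4) := by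
  have h : (u.trans u2.symm).symm.toLinearMap = u.symm.toLinearMap ∘ₗ u2.toLinearMap := by
    ext x; simp
  rw [h]
  exact hu2'.comp hK1 hu

/-- two isomorphisms onto the same space give an isomorphism. -/
lemma exists_trans {E E' F : OpSpace 2} (h : ∃ e : E.E, e ≠ 0) (h' : ∃ e : E'.E, e ≠ 0)
    {r : ℝ} (hr : 0 < r) (hd : dcb E F < ENNReal.ofReal r) (hd' : dcb E' F < ENNReal.ofReal r) :
    ∃ (w : E.E ≃ₗ[ℂ] E'.E) (K K' : ℝ), 0 ≤ K ∧ 0 ≤ K' ∧ CB E E' w.toLinearMap K ∧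
      CB E' E w.symm.toLinearMap K' ∧ K * K' < r ^ 2 := by
  obtain ⟨u, K1, K2, hK1, hK2, hu, hu', hK⟩ := exists_CB h hr hd
  obtain ⟨u2, K3, K4, hK3, hK4, hu2, hu2', hK34⟩ := exists_CB h' hr hd'
  have c1 : CB E E' (u.trans u2.symm).toLinearMap (K4 * K1) := CB_trans u u2 hK4 hu hu2'
  have c2 : CB E' E (u.trans u2.symm).symm.toLinearMap (K2 * K3) :=
    CB_trans_symm u u2 hK2 hu' hu2
  refine ⟨u.trans u2.symm, K4 * K1, K2 * K3, by positivity, by positivity, c1, c2, ?_⟩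
  have : (K4 * K1) * (K2 * K3) = (K1 * K2) * (K3 * K4) := by ring
  rw [this, sq]
  exact mul_lt_mul'' hK hK34 (mul_nonneg hK1 hK2) (mul_nonneg hK3 hK4)

/-- Abstract nonseparability. -/
theorem nonsep_of_far {X : Type} [Infinite X] (S : Set (OpSpace 2)) (E : Set X → OpSpace 2)
    (hES : ∀ ω, E ω ∈ S) (hEne : ∀ ω, ∃ e : (E ω).E, e ≠ 0) {β β' : ℝ} (hβ : 0 ≤ β)
    (hββ' : β < β')
    (far : ∀ (ω ω' : Set X) (x : X), x ∈ ω → x ∉ ω' →
      ∀ (w : (E ω).E ≃ₗ[ℂ] (E ω').E) (K K' : ℝ), 0 ≤ K → 0 ≤ K' →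
      CB (E ω) (E ω') w.toLinearMap K → CB (E ω') (E ω) w.symm.toLinearMap K' →
      β' ≤ (K * K') ^ 2 * β) :
    ¬ Separable S := by
  rintro ⟨D, hD, hDcount, hdense⟩
  obtain ⟨ε, hε, hεβ⟩ := exists_eps hββ'
  have key : ∀ (ω ω' : Set X) (x : X), x ∈ ω → x ∉ ω' →
      ∀ (w : (E ω).E ≃ₗ[ℂ] (E ω').E) (K K' : ℝ), 0 ≤ K → 0 ≤ K' →
      CB (E ω) (E ω') w.toLinearMap K → CB (E ω') (E ω) w.symm.toLinearMap K' →
      K * K' < (1 + ε) ^ 2 → False := by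
    intro ω ω' j hj hj' w K K' hK hK' hw hw' hKK
    have hs := far ω ω' j hj hj' w K K' hK hK' hw hw'
    have h4 : (K * K') ^ 2 * β ≤ ((1 + ε) ^ 2) ^ 2 * β :=
      mul_le_mul_of_nonneg_right (pow_le_pow_left₀ (mul_nonneg hK hK') hKK.le 2) hβ
    have h5 : ((1 + ε) ^ 2) ^ 2 * β = (1 + ε) ^ 4 * β := by ring
    linarith
  have hcover : (Set.univ : Set (Set X))
      ⊆ ⋃ F ∈ D, {ω | dcb (E ω) F < ENNReal.ofReal (1 + ε)} := by
    intro ω _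
    obtain ⟨F, hF, hd⟩ := hdense (E ω) (hES ω) ε hε
    simp only [Set.mem_iUnion]
    exact ⟨F, hF, hd⟩
  refine not_countable_univ_set X (Set.Countable.mono hcover ?_)
  refine Set.Countable.biUnion hDcount fun F _ => Set.Subsingleton.countable ?_
  intro ω hω ω' hω'
  by_contra hne
  have hex : ∃ j, (j ∈ ω ∧ j ∉ ω') ∨ (j ∈ ω' ∧ j ∉ ω) := by
    by_contra hcon
    push Not at hcon
    apply hne
    ext j
    exact ⟨(hcon j).1, (hcon j).2⟩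
  obtain ⟨j, hj | hj⟩ := hex
  · obtain ⟨w, K, K', hK, hK', hw, hw', hKK⟩ :=
      exists_trans (hEne ω) (hEne ω') (by linarith) hω hω'
    exact key ω ω' j hj.1 hj.2 w K K' hK hK' hw hw' hKK
  · obtain ⟨w, K, K', hK, hK', hw, hw', hKK⟩ :=
      exists_trans (hEne ω') (hEne ω) (by linarith) hω' hω
    exact key ω' ω j hj.1 hj.2 w K K' hK hK' hw hw' hKK

lemma space_ne {V : Type} [NormedAddCommGroup V] [InnerProductSpace ℂ V] [CompleteSpace V]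
    (C : Bool → V →L[ℂ] V) (hC : Good C) : ∃ e : (space C hC).E, e ≠ 0 := by
  refine ⟨coord C hC (EuclideanSpace.single 0 1), ?_⟩
  intro h
  have h' : ‖coord C hC (EuclideanSpace.single (0 : Fin 2) (1 : ℂ))‖ = 0 := by
    rw [h]; exact norm_zero
  rw [LinearIsometryEquiv.norm_map] at h'
  simp at h'

section main

variable {J : Type} {L : J → Type} [∀ j, NormedAddCommGroup (L j)]
    [∀ j, InnerProductSpace ℂ (L j)] [∀ j, CompleteSpace (L j)]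

/-- the subset of `J` attached to a subset of `J ∖ {j0}`. -/
def WS (j0 : J) (ω : Set {j : J // j ≠ j0}) : Set J :=
  {j | j = j0 ∨ ∃ h : j ≠ j0, (⟨j, h⟩ : {j : J // j ≠ j0}) ∈ ω}

lemma mem_WS (j0 : J) (ω : Set {j : J // j ≠ j0}) (j : J) (hj : j ≠ j0) :
    j ∈ WS j0 ω ↔ (⟨j, hj⟩ : {j : J // j ≠ j0}) ∈ ω := by
  constructor
  · rintro (h | ⟨_, h⟩)
    · exact absurd h hj
    · exact h
  · intro h
    exact Or.inr ⟨hj, h⟩

theorem far_lemma (D : ∀ j, Bool → L j →L[ℂ] L j) (hD : ∀ j σ, ‖D j σ‖ ≤ 2)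
    (W W' : Set J) [DecidablePred (· ∈ W)] [DecidablePred (· ∈ W')] [DecidableEq J]
    (hg : Good (DS D hD W)) (hg' : Good (DS D hD W')) {j : J} (hj : j ∈ W) (hj' : j ∉ W')
    {β β' : ℝ} (hβ : 0 ≤ β)
    (test : ∃ (m n : Type) (_ : Fintype m) (_ : Fintype n)
      (α : m → n → Fin 2 → ℂ),
      (∀ i : J, i ≠ j → ∀ ξ : n → Fin 2 → L i, CF (D i) α ξ ≤ β * nsq ξ) ∧
      ∃ ξ : n → Fin 2 → L j, 0 < nsq ξ ∧ β' * nsq ξ ≤ CF (D j) α ξ)
    (w : (space (DS D hD W) hg).E ≃ₗ[ℂ] (space (DS D hD W') hg').E) {K K' : ℝ}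
    (hK : 0 ≤ K) (hK' : 0 ≤ K')
    (hw : CB (space (DS D hD W) hg) (space (DS D hD W') hg') w.toLinearMap K)
    (hw' : CB (space (DS D hD W') hg') (space (DS D hD W) hg) w.symm.toLinearMap K') :
    β' ≤ (K * K') ^ 2 * β := by
  obtain ⟨m, n, im, inn, α, hup, ξ, hξ0, hξ⟩ := test
  have t1 : ∀ ξ : n → Fin 2 → lp L 2, CF (DS D hD W') α ξ ≤ β * nsq ξ := by
    refine DS_upper D hD W' α hβ ?_
    intro i hi ξ'
    refine hup i ?_ ξ'
    rintro rfl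
    exact hj' hi
  have t2 : 0 < nsq (fun q t => (lp.single 2 j (ξ q t) : lp L 2)) := by
    rw [nsq_single]; exact hξ0
  have t3 : β' * nsq (fun q t => (lp.single 2 j (ξ q t) : lp L 2))
      ≤ CF (DS D hD W) α (fun q t => lp.single 2 j (ξ q t)) := by
    rw [nsq_single]
    exact hξ.trans (DS_lower D hD W α hj ξ)
  exact separation (DS D hD W) hg (DS D hD W') hg' w hK hK' hw hw' α hβ t1 _ t2 t3

/-- Abstract nonseparability theorem. -/
theorem nonseparable_of_family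
    (D : ∀ j, Bool → L j →L[ℂ] L j)
    (h1 : ∀ j y, (1 / 2 : ℝ) * ‖D j true y‖ ^ 2 + (1 / 2) * ‖D j false y‖ ^ 2 ≤ ‖y‖ ^ 2)
    (h2 : ∀ j y, ‖D j true y‖ ^ 2 ≤ ‖y‖ ^ 2) (j0 : J)
    (h3 : ∃ y, y ≠ 0 ∧ ∀ σ, ‖D j0 σ y‖ = ‖y‖)
    [Infinite {j : J // j ≠ j0}] {β β' : ℝ} (hβ : 0 ≤ β) (hββ' : β < β')
    (test : ∀ j : J, j ≠ j0 → ∃ (m n : Type) (_ : Fintype m) (_ : Fintype n)
      (α : m → n → Fin 2 → ℂ),
      (∀ i : J, i ≠ j → ∀ ξ : n → Fin 2 → L i, CF (D i) α ξ ≤ β * nsq ξ) ∧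
      ∃ ξ : n → Fin 2 → L j, 0 < nsq ξ ∧ β' * nsq ξ ≤ CF (D j) α ξ) :
    ¬ Separable {E : OpSpace 2 | Hilbertian E ∧ Homogeneous E} := by
  classical
  have hD : ∀ j σ, ‖D j σ‖ ≤ 2 := by
    intro j σ
    refine ContinuousLinearMap.opNorm_le_bound _ (by norm_num) fun y => ?_
    have a1 := h1 j y
    have a2 := h2 j y
    refine le_of_sq_le_sq ?_ (by positivity)
    rw [mul_pow]
    cases σ
    · nlinarith [sq_nonneg ‖D j true y‖, sq_nonneg ‖y‖]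
    · nlinarith [sq_nonneg ‖y‖]
  have hgood : ∀ ω, Good (DS D hD (WS j0 ω)) := fun ω =>
    DS_good D hD h1 h2 j0 h3 (WS j0 ω) (Or.inl rfl)
  exact nonsep_of_far {E : OpSpace 2 | Hilbertian E ∧ Homogeneous E}
    (fun ω => space (DS D hD (WS j0 ω)) (hgood ω))
    (fun ω => ⟨hilbertian_space _ _, homogeneous_space _ _⟩)
    (fun ω => space_ne _ _) hβ hββ'
    (fun ω ω' x hx hx' w K K' hK hK' hw hw' =>
      far_lemma D hD (WS j0 ω) (WS j0 ω') (hgood ω) (hgood ω')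
        ((mem_WS j0 ω x.1 x.2).2 hx) (fun h => hx' ((mem_WS j0 ω' x.1 x.2).1 h)) hβ
        (test x.1 x.2) w hK hK' hw hw')

end main

end Pool.Agent.H2Sep
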