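import Pool.Agent.H2Sep.Lower
import Pool.Agent.H2Sep.Nonsep

/-!
# Assembly
-/

namespace Pool.Agent.H2Sep

open Matrix

/-- the components: the filler and one component for each prime -/
noncomputable def comp : Option Nat.Primes → Comp
  | none => mk4 Unit (Equiv.refl _) (Equiv.refl _) (fun _ => 1) (fun _ => norm_one) zfR zfR_symm
  | some p => haveI : Fact (Nat.Prime p.1) := ⟨p.2⟩; primeComp p.1 zqR zqR_symm

lemma comp_none_z (σ : Bool) (k l : Fin 4) : (comp none).z σ k l = ((zf σ k l : ℚ) : ℝ) := rfl

lemma comp_some_z (p : Nat.Primes) (σ : Bool) (k l : Fin 4) :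
    (comp (some p)).z σ k l = ((zq σ k l : ℚ) : ℝ) := rfl

lemma comp_dom : ∀ j, (comp j).Dom
  | none => by
    intro σ k
    simp only [comp_none_z]
    have := (Rat.cast_le (K := ℝ)).2 (psd_f σ k)
    simpa only [Rat.cast_sum, apply_ite (Rat.cast : ℚ → ℝ), Rat.cast_zero, Rat.cast_abs] using this
  | some p => by
    intro σ k
    simp only [comp_some_z]
    have := (Rat.cast_le (K := ℝ)).2 (psd_q σ k)
    simpa only [Rat.cast_sum, apply_ite (Rat.cast : ℚ → ℝ), Rat.cast_zero, Rat.cast_abs] using this

lemma comp_h1 (j : Option Nat.Primes) (y : (comp j).Sp) :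
    (1 / 2 : ℝ) * ‖(comp j).op (comp_dom j) true y‖ ^ 2
      + (1 / 2) * ‖(comp j).op (comp_dom j) false y‖ ^ 2 ≤ ‖y‖ ^ 2 := by
  rw [Comp.norm_op_sq, Comp.norm_op_sq]
  have hrow : ∀ k, ∑ k', |(comp j).z true k k' + (comp j).z false k k'| ≤ 1 := by
    intro k
    cases j with
    | none =>
      simp only [comp_none_z]
      have : ∀ k : Fin 4, ∑ k', |zf true k k' + zf false k k'| ≤ 1 := by decide +kernel
      exact_mod_cast this k
    | some p =>
      simp only [comp_some_z]
      exact_mod_cast h1_q k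
  have h := Comp.single_le (comp j) (fun k k' => (comp j).z true k k' + (comp j).z false k k')
    (fun k l => by rw [(comp j).zsymm true k l, (comp j).zsymm false k l]) 1 hrow y.ofLp
  rw [EuclideanSpace.norm_sq_eq]
  refine le_trans (le_of_eq ?_) (h.trans (le_of_eq (one_mul _)))
  simp only [add_mul, Finset.sum_add_distrib]
  ring

lemma comp_h2 (j : Option Nat.Primes) (y : (comp j).Sp) :
    ‖(comp j).op (comp_dom j) true y‖ ^ 2 ≤ ‖y‖ ^ 2 := by
  rw [Comp.norm_op_sq]
  have hrow : ∀ k, ∑ k', |2 * (comp j).z true k k'| ≤ 1 := by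
    intro k
    cases j with
    | none =>
      simp only [comp_none_z]
      have : ∀ k : Fin 4, ∑ k', |2 * zf true k k'| ≤ 1 := by decide +kernel
      exact_mod_cast this k
    | some p =>
      simp only [comp_some_z]
      exact_mod_cast h2_q k
  have h := Comp.single_le (comp j) (fun k k' => 2 * (comp j).z true k k')
    (fun k l => by rw [(comp j).zsymm true k l]) 1 hrow y.ofLp
  rw [EuclideanSpace.norm_sq_eq]
  refine le_trans (le_of_eq ?_) (h.trans (le_of_eq (one_mul _)))
  simp only [Finset.mul_sum, mul_assoc]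

lemma comp_h3 : ∃ y : (comp none).Sp, y ≠ 0 ∧
    ∀ σ, ‖(comp none).op (comp_dom none) σ y‖ = ‖y‖ := by
  have h : ∀ (y : (comp none).Sp) σ, ‖(comp none).op (comp_dom none) σ y‖ = ‖y‖ := by
    intro y σ
    have h1 : ‖(comp none).op (comp_dom none) σ y‖ ^ 2 = ‖y‖ ^ 2 := by
      rw [Comp.norm_op_sq, EuclideanSpace.norm_sq_eq, ← Comp.sum_bs]
      have h2 : ∀ k : Fin 4, ∑ k', (comp none).z σ k k' * Comp.rs (comp none) k k' y.ofLp
          = (1 / 2) * Comp.bs (comp none) k y.ofLp ^ 2 := by
        intro k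
        rw [Finset.sum_eq_single k]
        · rw [comp_none_z, Comp.rs_diag]
          simp [zf]
        · intro b _ hb
          rw [comp_none_z]
          simp [zf, Ne.symm hb]
        · intro h; exact absurd (Finset.mem_univ _) h
      rw [Finset.sum_congr rfl fun k _ => h2 k, ← Finset.mul_sum]
      ring
    exact (pow_left_inj₀ (norm_nonneg _) (norm_nonneg _) two_ne_zero).1 h1
  refine ⟨EuclideanSpace.single ((0 : Fin 4), Classical.arbitrary (comp none).Ω) 1, ?_,
    fun σ => h _ σ⟩
  rw [← norm_ne_zero_iff]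
  simp

/-- the test property -/
lemma comp_test (j : Option Nat.Primes) (hj : j ≠ none) :
    ∃ (m n : Type) (_ : Fintype m) (_ : Fintype n) (α : m → n → Fin 2 → ℂ),
      (∀ i : Option Nat.Primes, i ≠ j → ∀ ξ : n → Fin 2 → (comp i).Sp,
        CF ((comp i).op (comp_dom i)) α ξ ≤ (2 * (Gup : ℝ)) * nsq ξ) ∧
      ∃ ξ : n → Fin 2 → (comp j).Sp, 0 < nsq ξ ∧
        (2 * (Glo : ℝ)) * nsq ξ ≤ CF ((comp j).op (comp_dom j)) α ξ := by
  obtain ⟨p, rfl⟩ := Option.ne_none_iff_exists'.1 hj
  refine ⟨Fin 4 × (comp (some p)).ι, Fin 2 × (comp (some p)).ι, inferInstance, inferInstance,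
    tm ((comp (some p)).root (comp_dom (some p))), ?_, ?_⟩
  · intro i hi ξ
    have hG : (25 / 36 : ℝ) ≤ (Gup : ℝ) := by
      have := (Rat.cast_le (K := ℝ)).2 Gup_ge
      push_cast at this
      exact this
    cases i with
    | none =>
      refine CF_tm_le _ _ ?_ ?_ ξ
      · intro y
        have := GE_le_crude (comp (some p)) (comp none) (comp_dom _) (comp_dom _) zq zf
          zq_symm zf_symm (comp_some_z p) comp_none_z (25 / 36) schurE_f y
        push_cast at this
        exact this.trans (mul_le_mul_of_nonneg_right hG (by positivity))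
      · intro y
        have := GP_le (comp (some p)) (comp none) (comp_dom _) (comp_dom _) zq zf
          zq_symm zf_symm (comp_some_z p) comp_none_z (25 / 36) schurP_f y
        push_cast at this
        exact this.trans (mul_le_mul_of_nonneg_right hG (by positivity))
    | some q =>
      have hqp : p ≠ q := by
        rintro rfl; exact hi rfl
      refine CF_tm_le _ _ ?_ ?_ ξ
      · intro y
        refine GE_le_fine (comp (some p)) (comp (some q)) (comp_dom _) (comp_dom _)
          (comp_some_z p) (comp_some_z q) y ?_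
        have : Fact (Nat.Prime p.1) := ⟨p.2⟩
        have : Fact (Nat.Prime q.1) := ⟨q.2⟩
        exact SW_le p.1 q.1 (fun h => hqp (Subtype.ext h)) zqR zqR_symm _
      · intro y
        have := GP_le (comp (some p)) (comp (some q)) (comp_dom _) (comp_dom _) zq zq
          zq_symm zq_symm (comp_some_z p) (comp_some_z q) (25 / 36) schurP_q y
        push_cast at this
        exact this.trans (mul_le_mul_of_nonneg_right hG (by positivity))
  · obtain ⟨y, hy0, hy⟩ := le_GE (comp (some p)) (comp_dom (some p)) (comp_some_z p)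
    exact le_CF_tm _ _ y hy0 hy

/-- `H₂` is not separable. -/
theorem H2_nonseparable : ¬ Separable {E : OpSpace 2 | Hilbertian E ∧ Homogeneous E} := by
  have : Infinite {j : Option Nat.Primes // j ≠ none} := by
    refine Infinite.of_injective (fun p : Nat.Primes => (⟨some p, by simp⟩ :
      {j : Option Nat.Primes // j ≠ none})) ?_
    intro p q h
    simpa using h
  have hlt : (2 * (Gup : ℝ)) < 2 * (Glo : ℝ) := by
    have := (Rat.cast_lt (K := ℝ)).2 Gup_lt_Glo
    linarith
  have h0 : (0 : ℝ) ≤ 2 * (Gup : ℝ) := by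
    have := (Rat.cast_le (K := ℝ)).2 Gup_ge
    push_cast at this
    linarith
  exact nonseparable_of_family (L := fun j => (comp j).Sp)
    (fun j σ => (comp j).op (comp_dom j) σ) comp_h1 comp_h2 none comp_h3 h0 hlt comp_test

end Pool.Agent.H2Sep

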