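import Mathlib

/-!
# A spectral gap by ping-pong on the torus

`Z` is a finite set with two permutations `g, h` and two functions `w1, w2 : Z → unit circle`
transforming like the two coordinates of the torus under the standard unipotents.  If no point is
mapped to `(1,1)`, then no function is almost invariant under multiplication by `w1` and under
`g, h`.
-/

namespace Pool.Agent.H2Sep

open Finset Complex

/-- the data -/
structure PP (Z : Type) where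
  g : Equiv.Perm Z
  h : Equiv.Perm Z
  w1 : Z → ℂ
  w2 : Z → ℂ
  n1 : ∀ z, ‖w1 z‖ = 1
  n2 : ∀ z, ‖w2 z‖ = 1
  g1 : ∀ z, w1 (g z) = w1 z * w2 z
  g2 : ∀ z, w2 (g z) = w2 z
  h1 : ∀ z, w1 (h z) = w1 z
  h2 : ∀ z, w2 (h z) = w1 z * w2 z
  ne : ∀ z, ¬ (w1 z = 1 ∧ w2 z = 1)

section

variable {Z : Type} [Fintype Z]

/-- ping-pong estimate for one set `Q` -/
lemma pingpong (f : Z → ℂ) (T1 T2 : Equiv.Perm Z) (Q B : Z → Prop)
    [DecidablePred Q] [DecidablePred B]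
    (h1 : ∀ z, Q z → B z → Q (T1 z)) (h2 : ∀ z, Q z → B z → Q (T2 z))
    (h12 : ∀ z z', Q z → B z → Q z' → B z' → T1 z ≠ T2 z') :
    ∑ z, (if Q z then ‖f z‖ ^ 2 else 0) ≤ 3 * ∑ z, (if B z then 0 else ‖f z‖ ^ 2)
      + 6 * (∑ z, ‖f (T1 z) - f z‖ ^ 2 + ∑ z, ‖f (T2 z) - f z‖ ^ 2) := by
  classical
  have hpt : ∀ a b : ℂ, (3 / 4 : ℝ) * ‖a‖ ^ 2 - 3 * ‖b - a‖ ^ 2 ≤ ‖b‖ ^ 2 := by
    intro a b
    have t1 : ‖a‖ ≤ ‖b‖ + ‖b - a‖ := by
      have := norm_sub_le b (b - a)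
      simpa using this
    have n0 := norm_nonneg a
    have n1 := norm_nonneg b
    have n2 := norm_nonneg (b - a)
    nlinarith [sq_nonneg (‖b‖ - 3 * ‖b - a‖)]
  have hmain : ∑ z, (if Q z ∧ B z then ‖f (T1 z)‖ ^ 2 else 0)
      + ∑ z, (if Q z ∧ B z then ‖f (T2 z)‖ ^ 2 else 0) ≤ ∑ z, (if Q z then ‖f z‖ ^ 2 else 0) := by
    rw [← Equiv.sum_comp T1.symm, ← Equiv.sum_comp T2.symm (fun z =>
      (if Q z ∧ B z then ‖f (T2 z)‖ ^ 2 else 0)), ← Finset.sum_add_distrib]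
    refine Finset.sum_le_sum fun z _ => ?_
    simp only [Equiv.apply_symm_apply]
    by_cases c1 : Q (T1.symm z) ∧ B (T1.symm z)
    · have q1 : Q z := by simpa using h1 _ c1.1 c1.2
      by_cases c2 : Q (T2.symm z) ∧ B (T2.symm z)
      · exact absurd (by simp) (h12 _ _ c1.1 c1.2 c2.1 c2.2)
      · simp [c1, c2, q1]
    · by_cases c2 : Q (T2.symm z) ∧ B (T2.symm z)
      · have q2 : Q z := by simpa using h2 _ c2.1 c2.2
        simp [c1, c2, q2]
      · simp only [c1, c2, if_false, add_zero]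
        split_ifs <;> positivity
  have hlow : ∀ T : Equiv.Perm Z, (3 / 4 : ℝ) * ∑ z, (if Q z ∧ B z then ‖f z‖ ^ 2 else 0)
      - 3 * ∑ z, ‖f (T z) - f z‖ ^ 2 ≤ ∑ z, (if Q z ∧ B z then ‖f (T z)‖ ^ 2 else 0) := by
    intro T
    rw [Finset.mul_sum, Finset.mul_sum, ← Finset.sum_sub_distrib]
    refine Finset.sum_le_sum fun z _ => ?_
    split_ifs
    · exact hpt _ _
    · have := sq_nonneg ‖f (T z) - f z‖
      linarith
  have hQ : ∑ z, (if Q z then ‖f z‖ ^ 2 else 0) ≤ ∑ z, (if Q z ∧ B z then ‖f z‖ ^ 2 else 0)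
      + ∑ z, (if B z then 0 else ‖f z‖ ^ 2) := by
    rw [← Finset.sum_add_distrib]
    refine Finset.sum_le_sum fun z _ => ?_
    by_cases c1 : Q z <;> by_cases c2 : B z <;> simp [c1, c2]
  have l1 := hlow T1
  have l2 := hlow T2
  nlinarith

end

lemma arg_lt {w : ℂ} (h : 0 < w.re) : |w.arg| < Real.pi / 2 :=
  Complex.abs_arg_lt_pi_div_two_iff.2 (Or.inl h)

lemma arg_mul_pos {w w' : ℂ} (h : 0 < w.re) (h' : 0 < w'.re) : (w * w').arg = w.arg + w'.arg := by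
  have hw : w ≠ 0 := by rintro rfl; simp at h
  have hw' : w' ≠ 0 := by rintro rfl; simp at h'
  refine (Complex.arg_mul_eq_add_arg_iff hw hw').2 ?_
  have a1 := abs_lt.1 (arg_lt h)
  have a2 := abs_lt.1 (arg_lt h')
  exact ⟨by linarith, by linarith⟩

lemma arg_mul_conj_pos {w w' : ℂ} (h : 0 < w.re) (h' : 0 < w'.re) :
    (w * (starRingEnd ℂ) w').arg = w.arg - w'.arg := by
  rw [arg_mul_pos h (by simpa using h'), Complex.arg_conj]
  have a2 := abs_lt.1 (arg_lt h')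
  rw [if_neg (by intro h; rw [h] at a2; linarith [Real.pi_pos])]
  ring

lemma eq_one_of_arg {w : ℂ} (h : ‖w‖ = 1) (ha : w.arg = 0) : w = 1 := by
  have := Complex.norm_mul_exp_arg_mul_I w
  rw [h, ha] at this
  simpa using this.symm

section

variable {Z : Type} [Fintype Z] (P : PP Z)

/-- The gap. -/
theorem gap (f : Z → ℂ) :
    ∑ z, ‖f z‖ ^ 2 ≤ 120 * (∑ z, ‖P.w1 z * f z - f z‖ ^ 2 + ∑ z, ‖f (P.g z) - f z‖ ^ 2
      + ∑ z, ‖f (P.h z) - f z‖ ^ 2) := by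
  classical
  set dD := ∑ z, ‖P.w1 z * f z - f z‖ ^ 2 with hdD
  set dg := ∑ z, ‖f (P.g z) - f z‖ ^ 2 with hdg
  set dh := ∑ z, ‖f (P.h z) - f z‖ ^ 2 with hdh
  have dD0 : 0 ≤ dD := by positivity
  have dg0 : 0 ≤ dg := by positivity
  have dh0 : 0 ≤ dh := by positivity
  have dg' : ∑ z, ‖f (P.g.symm z) - f z‖ ^ 2 = dg := by
    rw [hdg, ← Equiv.sum_comp P.g]
    refine Finset.sum_congr rfl fun z _ => ?_
    rw [Equiv.symm_apply_apply, norm_sub_rev]
  have dh' : ∑ z, ‖f (P.h.symm z) - f z‖ ^ 2 = dh := by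
    rw [hdh, ← Equiv.sum_comp P.h]
    refine Finset.sum_congr rfl fun z _ => ?_
    rw [Equiv.symm_apply_apply, norm_sub_rev]
  have hre : ∀ w : ℂ, ‖w‖ = 1 → ‖w - 1‖ ^ 2 = 2 - 2 * w.re := by
    intro w hw
    rw [← Complex.normSq_eq_norm_sq, Complex.normSq_sub, Complex.normSq_eq_norm_sq, hw]
    simp
    ring
  let B : Z → Prop := fun z => 0 < (P.w1 z).re ∧ 0 < (P.w2 z).re
  -- mass outside `B`
  have hB : ∑ z, (if B z then 0 else ‖f z‖ ^ 2) ≤ (7 / 2) * dD + 8 * dg := by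
    have s1 : ∑ z, ‖P.w1 (P.g z) * f z - f z‖ ^ 2 ≤ 2 * dD + 8 * dg := by
      rw [← Equiv.sum_comp P.g.symm]
      rw [← dg', hdD, Finset.mul_sum, Finset.mul_sum, ← Finset.sum_add_distrib]
      refine Finset.sum_le_sum fun z _ => ?_
      rw [Equiv.apply_symm_apply]
      have e1 : P.w1 z * f (P.g.symm z) - f (P.g.symm z)
          = (P.w1 z * f z - f z) + (P.w1 z - 1) * (f (P.g.symm z) - f z) := by ring
      rw [e1]
      have e2 : ‖P.w1 z - 1‖ ≤ 2 := by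
        refine (norm_sub_le _ _).trans ?_
        rw [P.n1, norm_one]; norm_num
      have e3 : ‖(P.w1 z * f z - f z) + (P.w1 z - 1) * (f (P.g.symm z) - f z)‖
          ≤ ‖P.w1 z * f z - f z‖ + 2 * ‖f (P.g.symm z) - f z‖ := by
        refine (norm_add_le _ _).trans ?_
        rw [norm_mul]
        have := mul_le_mul_of_nonneg_right e2 (norm_nonneg (f (P.g.symm z) - f z))
        linarith
      have a0 := norm_nonneg (P.w1 z * f z - f z)
      have b0 := norm_nonneg (f (P.g.symm z) - f z)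
      have c0 := norm_nonneg ((P.w1 z * f z - f z) + (P.w1 z - 1) * (f (P.g.symm z) - f z))
      calc ‖(P.w1 z * f z - f z) + (P.w1 z - 1) * (f (P.g.symm z) - f z)‖ ^ 2
          ≤ (‖P.w1 z * f z - f z‖ + 2 * ‖f (P.g.symm z) - f z‖) ^ 2 :=
            pow_le_pow_left₀ c0 e3 2
        _ ≤ _ := by nlinarith [sq_nonneg (‖P.w1 z * f z - f z‖ - 2 * ‖f (P.g.symm z) - f z‖)]
    have s2 : ∑ z, (if B z then 0 else ‖f z‖ ^ 2)
        ≤ ∑ z, ((3 / 2) * ‖P.w1 z * f z - f z‖ ^ 2 + ‖P.w1 (P.g z) * f z - f z‖ ^ 2) := by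
      refine Finset.sum_le_sum fun z _ => ?_
      have f1 : ‖P.w1 z * f z - f z‖ ^ 2 = ‖P.w1 z - 1‖ ^ 2 * ‖f z‖ ^ 2 := by
        rw [← mul_pow, ← norm_mul]; congr 2; ring
      have f2 : ‖P.w1 (P.g z) * f z - f z‖ ^ 2 = ‖P.w1 z * P.w2 z - 1‖ ^ 2 * ‖f z‖ ^ 2 := by
        rw [P.g1, ← mul_pow, ← norm_mul]; congr 2; ring
      have g0 : 0 ≤ ‖f z‖ ^ 2 := by positivity
      by_cases c : B z
      · rw [if_pos c]; positivity
      · rw [if_neg c, f1, f2]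
        have c' : (P.w1 z).re ≤ 0 ∨ (P.w2 z).re ≤ 0 := by
          by_contra hcon
          push Not at hcon
          exact c hcon
        rcases c' with c' | c'
        · have := hre _ (P.n1 z)
          have h3 : 2 ≤ ‖P.w1 z - 1‖ ^ 2 := by rw [this]; linarith
          have h4 : 0 ≤ ‖P.w1 z * P.w2 z - 1‖ ^ 2 * ‖f z‖ ^ 2 := by positivity
          nlinarith
        · have := hre _ (P.n2 z)
          have h3 : 2 ≤ ‖P.w2 z - 1‖ ^ 2 := by rw [this]; linarith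
          have h4 : ‖P.w2 z - 1‖ ≤ ‖P.w1 z * P.w2 z - 1‖ + ‖P.w1 z - 1‖ := by
            have e : P.w2 z - 1 = (P.w1 z * P.w2 z - 1) - (P.w1 z - 1) * P.w2 z := by ring
            calc ‖P.w2 z - 1‖ = ‖(P.w1 z * P.w2 z - 1) - (P.w1 z - 1) * P.w2 z‖ := by rw [← e]
              _ ≤ ‖P.w1 z * P.w2 z - 1‖ + ‖(P.w1 z - 1) * P.w2 z‖ := norm_sub_le _ _
              _ = _ := by rw [norm_mul, P.n2, mul_one]
          have a0 := norm_nonneg (P.w1 z * P.w2 z - 1)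
          have b0 := norm_nonneg (P.w1 z - 1)
          have c0 := norm_nonneg (P.w2 z - 1)
          have h5 : ‖P.w2 z - 1‖ ^ 2
              ≤ 2 * ‖P.w1 z * P.w2 z - 1‖ ^ 2 + 2 * ‖P.w1 z - 1‖ ^ 2 := by
            have := pow_le_pow_left₀ c0 h4 2
            nlinarith [sq_nonneg (‖P.w1 z * P.w2 z - 1‖ - ‖P.w1 z - 1‖)]
          have h6 : 1 ≤ ‖P.w1 z * P.w2 z - 1‖ ^ 2 + ‖P.w1 z - 1‖ ^ 2 := by linarith
          have h7 : 0 ≤ ‖P.w1 z - 1‖ ^ 2 * ‖f z‖ ^ 2 := by positivity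
          nlinarith
    rw [Finset.sum_add_distrib, ← Finset.mul_sum, ← hdD] at s2
    linarith
  -- the coordinates
  let X : Z → ℝ := fun z => (P.w1 z).arg
  let Y : Z → ℝ := fun z => (P.w2 z).arg
  have hXg : ∀ z, B z → X (P.g z) = X z + Y z := by
    intro z hz
    change (P.w1 (P.g z)).arg = _
    rw [P.g1, arg_mul_pos hz.1 hz.2]
  have hYg : ∀ z, Y (P.g z) = Y z := by
    intro z
    change (P.w2 (P.g z)).arg = _
    rw [P.g2]
  have hXh : ∀ z, X (P.h z) = X z := by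
    intro z
    change (P.w1 (P.h z)).arg = _
    rw [P.h1]
  have hYh : ∀ z, B z → Y (P.h z) = X z + Y z := by
    intro z hz
    change (P.w2 (P.h z)).arg = _
    rw [P.h2, arg_mul_pos hz.1 hz.2]
  have hYg' : ∀ z, Y (P.g.symm z) = Y z := by
    intro z
    have := hYg (P.g.symm z)
    rw [Equiv.apply_symm_apply] at this
    exact this.symm
  have hXh' : ∀ z, X (P.h.symm z) = X z := by
    intro z
    have := hXh (P.h.symm z)
    rw [Equiv.apply_symm_apply] at this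
    exact this.symm
  have hcc : ∀ w : ℂ, ‖w‖ = 1 → w * (starRingEnd ℂ) w = 1 := by
    intro w hw
    rw [Complex.mul_conj, Complex.normSq_eq_norm_sq, hw]; simp
  have hXg' : ∀ z, B z → X (P.g.symm z) = X z - Y z := by
    intro z hz
    have e1 := P.g1 (P.g.symm z)
    have e2 := P.g2 (P.g.symm z)
    rw [Equiv.apply_symm_apply] at e1 e2
    have e3 : P.w1 (P.g.symm z) = P.w1 z * (starRingEnd ℂ) (P.w2 z) := by
      rw [e1, mul_assoc, e2, hcc _ (P.n2 _), mul_one]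
    change (P.w1 (P.g.symm z)).arg = _
    rw [e3, arg_mul_conj_pos hz.1 hz.2]
  have hYh' : ∀ z, B z → Y (P.h.symm z) = Y z - X z := by
    intro z hz
    have e1 := P.h1 (P.h.symm z)
    have e2 := P.h2 (P.h.symm z)
    rw [Equiv.apply_symm_apply] at e1 e2
    have e3 : P.w2 (P.h.symm z) = P.w2 z * (starRingEnd ℂ) (P.w1 z) := by
      rw [e2, mul_comm (P.w1 _), mul_assoc, e1, hcc _ (P.n1 _), mul_one]
    change (P.w2 (P.h.symm z)).arg = _
    rw [e3, arg_mul_conj_pos hz.2 hz.1]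
  have hXY : ∀ z, ¬ (X z = 0 ∧ Y z = 0) := by
    intro z hz
    exact P.ne z ⟨eq_one_of_arg (P.n1 z) hz.1, eq_one_of_arg (P.n2 z) hz.2⟩
  have q1 := pingpong f P.g P.h (fun z => 0 ≤ X z ∧ 0 < Y z) B
    (fun z hq hb => by
      rw [hXg z hb, hYg z]; exact ⟨by linarith [hq.1, hq.2], hq.2⟩)
    (fun z hq hb => by
      rw [hXh z, hYh z hb]; exact ⟨hq.1, by linarith [hq.1, hq.2]⟩)
    (fun z z' hq hb hq' hb' he => by
      have e1 := congrArg X he
      have e2 := congrArg Y he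
      rw [hXg z hb, hXh z'] at e1
      rw [hYg z, hYh z' hb'] at e2
      linarith [hq.1, hq.2, hq'.1, hq'.2])
  have q2 := pingpong f P.g P.h (fun z => X z ≤ 0 ∧ Y z < 0) B
    (fun z hq hb => by
      rw [hXg z hb, hYg z]; exact ⟨by linarith [hq.1, hq.2], hq.2⟩)
    (fun z hq hb => by
      rw [hXh z, hYh z hb]; exact ⟨hq.1, by linarith [hq.1, hq.2]⟩)
    (fun z z' hq hb hq' hb' he => by
      have e1 := congrArg X he
      have e2 := congrArg Y he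
      rw [hXg z hb, hXh z'] at e1
      rw [hYg z, hYh z' hb'] at e2
      linarith [hq.1, hq.2, hq'.1, hq'.2])
  have q3 := pingpong f P.g.symm P.h.symm (fun z => X z < 0 ∧ 0 ≤ Y z) B
    (fun z hq hb => by
      rw [hXg' z hb, hYg' z]; exact ⟨by linarith [hq.1, hq.2], hq.2⟩)
    (fun z hq hb => by
      rw [hXh' z, hYh' z hb]; exact ⟨hq.1, by linarith [hq.1, hq.2]⟩)
    (fun z z' hq hb hq' hb' he => by
      have e1 := congrArg X he
      have e2 := congrArg Y he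
      rw [hXg' z hb, hXh' z'] at e1
      rw [hYg' z, hYh' z' hb'] at e2
      linarith [hq.1, hq.2, hq'.1, hq'.2])
  have q4 := pingpong f P.g.symm P.h.symm (fun z => 0 < X z ∧ Y z ≤ 0) B
    (fun z hq hb => by
      rw [hXg' z hb, hYg' z]; exact ⟨by linarith [hq.1, hq.2], hq.2⟩)
    (fun z hq hb => by
      rw [hXh' z, hYh' z hb]; exact ⟨hq.1, by linarith [hq.1, hq.2]⟩)
    (fun z z' hq hb hq' hb' he => by
      have e1 := congrArg X he
      have e2 := congrArg Y he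
      rw [hXg' z hb, hXh' z'] at e1
      rw [hYg' z, hYh' z' hb'] at e2
      linarith [hq.1, hq.2, hq'.1, hq'.2])
  have hcov : ∑ z, ‖f z‖ ^ 2 ≤ ∑ z, (if 0 ≤ X z ∧ 0 < Y z then ‖f z‖ ^ 2 else 0)
      + ∑ z, (if X z ≤ 0 ∧ Y z < 0 then ‖f z‖ ^ 2 else 0)
      + ∑ z, (if X z < 0 ∧ 0 ≤ Y z then ‖f z‖ ^ 2 else 0)
      + ∑ z, (if 0 < X z ∧ Y z ≤ 0 then ‖f z‖ ^ 2 else 0) := by
    rw [← Finset.sum_add_distrib, ← Finset.sum_add_distrib, ← Finset.sum_add_distrib]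
    refine Finset.sum_le_sum fun z _ => ?_
    have g0 : 0 ≤ ‖f z‖ ^ 2 := by positivity
    have i1 : 0 ≤ (if 0 ≤ X z ∧ 0 < Y z then ‖f z‖ ^ 2 else 0) := by split_ifs <;> positivity
    have i2 : 0 ≤ (if X z ≤ 0 ∧ Y z < 0 then ‖f z‖ ^ 2 else 0) := by split_ifs <;> positivity
    have i3 : 0 ≤ (if X z < 0 ∧ 0 ≤ Y z then ‖f z‖ ^ 2 else 0) := by split_ifs <;> positivity
    have i4 : 0 ≤ (if 0 < X z ∧ Y z ≤ 0 then ‖f z‖ ^ 2 else 0) := by split_ifs <;> positivity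
    rcases lt_trichotomy (Y z) 0 with hy | hy | hy
    · rcases le_or_gt (X z) 0 with hx | hx
      · rw [if_pos (show X z ≤ 0 ∧ Y z < 0 from ⟨hx, hy⟩)] at i2 ⊢
        linarith
      · rw [if_pos (show 0 < X z ∧ Y z ≤ 0 from ⟨hx, hy.le⟩)] at i4 ⊢
        linarith
    · rcases lt_trichotomy (X z) 0 with hx | hx | hx
      · rw [if_pos (show X z < 0 ∧ 0 ≤ Y z from ⟨hx, hy.ge⟩)] at i3 ⊢
        linarith
      · exact absurd ⟨hx, hy⟩ (hXY z)
      · rw [if_pos (show 0 < X z ∧ Y z ≤ 0 from ⟨hx, hy.le⟩)] at i4 ⊢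
        linarith
    · rcases le_or_gt 0 (X z) with hx | hx
      · rw [if_pos (show 0 ≤ X z ∧ 0 < Y z from ⟨hx, hy⟩)] at i1 ⊢
        linarith
      · rw [if_pos (show X z < 0 ∧ 0 ≤ Y z from ⟨hx, hy.le⟩)] at i3 ⊢
        linarith
  rw [dg', dh'] at q3 q4
  rw [← hdg, ← hdh] at q1 q2
  linarith

end

end Pool.Agent.H2Sep
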