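import Pool.Agent.H2Sep.Bounds

/-!
# The trial vector: lower bound for the form of a component on itself
-/

namespace Pool.Agent.H2Sep

open Matrix

namespace Comp

variable (M : Comp)

/-- the trial vector -/
noncomputable def tv (u v : M.ι) : ℂ :=
  ((ta u.1 v.1 : ℝ) : ℂ) * (if u.2 = M.π v.1 u.1 v.2 then M.φ v.1 u.1 v.2 else 0)

lemma bn_tv_sq (k l : Fin 4) : bn M M k l M.tv ^ 2 = (ta k l : ℝ) ^ 2 * Fintype.card M.Ω := by
  rw [bn_sq, Finset.sum_comm]
  have : ∀ x' : M.Ω, ∑ x, ‖M.tv (k, x) (l, x')‖ ^ 2 = (ta k l : ℝ) ^ 2 := by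
    intro x'
    rw [Finset.sum_eq_single (M.π l k x')]
    · unfold tv
      simp only [if_true]
      rw [norm_mul, M.nφ, mul_one, Complex.norm_real, Real.norm_eq_abs, sq_abs]
    · intro b _ hb
      unfold tv
      simp only [if_neg hb]
      simp
    · intro h; exact absurd (Finset.mem_univ _) h
  rw [Finset.sum_congr rfl fun x' _ => this x', Finset.sum_const, Finset.card_univ,
    nsmul_eq_mul]
  ring

lemma bn_tv (k l : Fin 4) :
    bn M M k l M.tv = (ta k l : ℝ) * Real.sqrt (Fintype.card M.Ω) := by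
  have h1 := bn_tv_sq M k l
  have h2 : (0 : ℝ) ≤ (ta k l : ℝ) := by exact_mod_cast ta_nonneg k l
  have h3 : ((ta k l : ℝ) * Real.sqrt (Fintype.card M.Ω)) ^ 2
      = (ta k l : ℝ) ^ 2 * Fintype.card M.Ω := by
    rw [mul_pow, Real.sq_sqrt (by positivity)]
  rw [← h3] at h1
  exact (pow_left_inj₀ (bn_nonneg _ _ _ _ _) (by positivity) two_ne_zero).1 h1

lemma conj_mul_self {w : ℂ} (h : ‖w‖ = 1) : (starRingEnd ℂ) w * w = 1 := by
  rw [mul_comm, Complex.mul_conj, Complex.normSq_eq_norm_sq, h]; simp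

lemma rr_tv (k k' l l' : Fin 4) (h : isM k k' l l' = true) :
    rr M M k k' l l' M.tv = (ta k l : ℝ) * (ta k' l' : ℝ) * Fintype.card M.Ω := by
  have key : ∀ x' : M.Ω, (starRingEnd ℂ) (M.φ l k x') * ((starRingEnd ℂ) (M.φ k k' (M.π l k x')) *
      M.φ l l' x' * (if M.π k k' (M.π l k x') = M.π l' k' (M.π l l' x') then
        M.φ l' k' (M.π l l' x') else 0)) = 1 := by
    intro x'
    have hc : (k = k' ∧ l = l') ∨ (k = k' ∧ k = l) ∨ (k = k' ∧ k = l') ∨ (l = l' ∧ l = k) ∨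
        (l = l' ∧ l = k') ∨ (k = l ∧ k' = l') := by
      unfold isM at h
      simp only [Bool.or_eq_true, Bool.and_eq_true, beq_iff_eq] at h
      tauto
    rcases hc with ⟨rfl, rfl⟩ | ⟨rfl, rfl⟩ | ⟨rfl, rfl⟩ | ⟨rfl, rfl⟩ | ⟨rfl, rfl⟩ | ⟨rfl, rfl⟩
    · rw [M.φdiag, M.φdiag, M.πdiag, M.πdiag, if_pos rfl, map_one, one_mul, one_mul,
        conj_mul_self (M.nφ _ _ _)]
    · rw [M.φdiag, M.φdiag, M.πdiag, M.πdiag, M.πinv, if_pos rfl, map_one, one_mul, one_mul,
        M.φinv, mul_comm, conj_mul_self (M.nφ _ _ _)]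
    · rw [M.φdiag, M.πdiag, if_pos rfl, map_one, one_mul, mul_one,
        conj_mul_self (M.nφ _ _ _)]
    · rw [M.φdiag, M.πdiag, if_pos rfl, map_one, one_mul, mul_one,
        conj_mul_self (M.nφ _ _ _)]
    · rw [M.φdiag, M.πdiag, M.πinv, M.πdiag, if_pos rfl, M.φdiag, mul_one, mul_one,
        M.φinv, Complex.conj_conj, conj_mul_self (M.nφ _ _ _)]
    · rw [M.φdiag, M.πdiag, M.πdiag, if_pos rfl, M.φdiag, map_one, one_mul, mul_one,
        conj_mul_self (M.nφ _ _ _)]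
  unfold rr
  rw [Finset.sum_comm]
  have h1 : ∀ x' : M.Ω, ∑ x, (starRingEnd ℂ) (M.tv (k, x) (l, x')) *
      ((starRingEnd ℂ) (M.φ k k' x) * M.φ l l' x' * M.tv (k', M.π k k' x) (l', M.π l l' x'))
      = ((ta k l : ℝ) : ℂ) * ((ta k' l' : ℝ) : ℂ) := by
    intro x'
    rw [Finset.sum_eq_single (M.π l k x')]
    · unfold tv
      simp only [if_true]
      rw [map_mul, Complex.conj_ofReal]
      calc _ = ((ta k l : ℝ) : ℂ) * ((ta k' l' : ℝ) : ℂ) *
            ((starRingEnd ℂ) (M.φ l k x') * ((starRingEnd ℂ) (M.φ k k' (M.π l k x')) *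
      M.φ l l' x' * (if M.π k k' (M.π l k x') = M.π l' k' (M.π l l' x') then
        M.φ l' k' (M.π l l' x') else 0))) := by ring
        _ = _ := by rw [key, mul_one]
    · intro b _ hb
      unfold tv
      simp only [if_neg hb]
      simp
    · intro h; exact absurd (Finset.mem_univ _) h
  rw [Finset.sum_congr rfl fun x' _ => h1 x', Finset.sum_const, Finset.card_univ,
    nsmul_eq_mul, ← Complex.ofReal_mul, ← Complex.ofReal_natCast, ← Complex.ofReal_mul,
    Complex.ofReal_re]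
  ring

end Comp

/-- lower bound in the symmetric sector -/
lemma le_GE (M : Comp) (hM : M.Dom) (h : ∀ σ k l, M.z σ k l = zqR σ k l) :
    ∃ y : M.ι → M.Sp, 0 < ∑ u, ‖y u‖ ^ 2 ∧
      (Glo : ℝ) * ∑ u, ‖y u‖ ^ 2 ≤ GE (M.root hM) (M.op hM) y := by
  let y : M.ι → M.Sp := fun u => WithLp.toLp 2 (fun v => M.tv u v)
  have hy : (fun u v => y u v) = M.tv := rfl
  have hn : ∑ u, ‖y u‖ ^ 2 = (∑ k, ∑ l, (ta k l : ℝ) ^ 2) * Fintype.card M.Ω := by
    rw [← sum_bn_sp M M y, hy]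
    simp_rw [Comp.bn_tv_sq, Finset.sum_mul]
  have hcard : (0 : ℝ) < Fintype.card M.Ω := by exact_mod_cast Fintype.card_pos
  refine ⟨y, ?_, ?_⟩
  · rw [hn]
    refine mul_pos ?_ hcard
    have h1 : (ta 0 0 : ℝ) ^ 2 ≤ ∑ l, (ta 0 l : ℝ) ^ 2 :=
      Finset.single_le_sum (f := fun l => (ta 0 l : ℝ) ^ 2) (fun l _ => sq_nonneg _)
        (Finset.mem_univ 0)
    have h2 : ∑ l, (ta 0 l : ℝ) ^ 2 ≤ ∑ k, ∑ l, (ta k l : ℝ) ^ 2 :=
      Finset.single_le_sum (f := fun k => ∑ l, (ta k l : ℝ) ^ 2)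
        (fun k _ => Finset.sum_nonneg fun l _ => sq_nonneg _) (Finset.mem_univ 0)
    have h3 : (ta 0 0 : ℝ) = 1 := by simp [ta]
    rw [h3] at h1
    linarith
  · rw [GE_eq, hy, hn]
    have h4 : ∀ k k' l l', ((low k k' l l' : ℚ) : ℝ) * Fintype.card M.Ω
        ≤ (M.z false k k' * M.z false l l' + 3 * (M.z true k k' * M.z true l l'))
        * Comp.rr M M k k' l l' M.tv := by
      intro k k' l l'
      have hc : (M.z false k k' * M.z false l l' + 3 * (M.z true k k' * M.z true l l'))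
          = ((cE zq zq k k' l l' : ℚ) : ℝ) := by
        simp only [h, zqR, cE]
        push_cast
        ring
      rw [hc]
      unfold low
      split_ifs with hm
      · rw [Comp.rr_tv M k k' l l' hm]
        apply le_of_eq
        push_cast
        ring
      · have h5 := Comp.abs_rr_le M M k k' l l' M.tv
        rw [Comp.bn_tv, Comp.bn_tv] at h5
        have h6 : (ta k l : ℝ) * Real.sqrt (Fintype.card M.Ω)
            * ((ta k' l' : ℝ) * Real.sqrt (Fintype.card M.Ω))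
            = (ta k l : ℝ) * (ta k' l' : ℝ) * Fintype.card M.Ω := by
          have := Real.mul_self_sqrt (show (0 : ℝ) ≤ Fintype.card M.Ω by positivity)
          calc _ = (ta k l : ℝ) * (ta k' l' : ℝ) * (Real.sqrt (Fintype.card M.Ω)
                * Real.sqrt (Fintype.card M.Ω)) := by ring
            _ = _ := by rw [this]
        rw [h6] at h5
        have h7 : -(|((cE zq zq k k' l l' : ℚ) : ℝ)| * |Comp.rr M M k k' l l' M.tv|)
            ≤ ((cE zq zq k k' l l' : ℚ) : ℝ) * Comp.rr M M k k' l l' M.tv := by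
          rw [← abs_mul]
          exact neg_abs_le _
        have h8 : |((cE zq zq k k' l l' : ℚ) : ℝ)| * |Comp.rr M M k k' l l' M.tv|
            ≤ |((cE zq zq k k' l l' : ℚ) : ℝ)| * ((ta k l : ℝ) * (ta k' l' : ℝ)
              * Fintype.card M.Ω) := mul_le_mul_of_nonneg_left h5 (abs_nonneg _)
        push_cast

        linarith
    have h9 : (Glo : ℝ) * ∑ k, ∑ l, (ta k l : ℝ) ^ 2
        ≤ ∑ k, ∑ k', ∑ l, ∑ l', ((low k k' l l' : ℚ) : ℝ) := by
      exact_mod_cast low_bound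
    calc (Glo : ℝ) * ((∑ k, ∑ l, (ta k l : ℝ) ^ 2) * Fintype.card M.Ω)
        = ((Glo : ℝ) * ∑ k, ∑ l, (ta k l : ℝ) ^ 2) * Fintype.card M.Ω := by ring
      _ ≤ (∑ k, ∑ k', ∑ l, ∑ l', ((low k k' l l' : ℚ) : ℝ)) * Fintype.card M.Ω :=
          mul_le_mul_of_nonneg_right h9 hcard.le
      _ = ∑ k, ∑ k', ∑ l, ∑ l', ((low k k' l l' : ℚ) : ℝ) * Fintype.card M.Ω := by
          simp only [Finset.sum_mul]
      _ ≤ _ := Finset.sum_le_sum fun k _ => Finset.sum_le_sum fun k' _ =>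
          Finset.sum_le_sum fun l _ => Finset.sum_le_sum fun l' _ => h4 k k' l l'

end Pool.Agent.H2Sep
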