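import Pool.Agent.H2Sep.Prime

/-!
# Pairs of different primes: the gap for the W terms
-/

namespace Pool.Agent.H2Sep

open Matrix

namespace Comp

variable (M M' : Comp)

lemma rr_symm (k k' : Fin 4) (y : M.ι → M'.ι → ℂ) :
    rr M M' k' k k' k y = rr M M' k k' k k' y := by
  unfold rr
  rw [← Equiv.sum_comp (M.π k k')]
  have h : (∑ x, ∑ x', (starRingEnd ℂ) (y (k', M.π k k' x) (k', x')) *
      ((starRingEnd ℂ) (M.φ k' k (M.π k k' x)) * M'.φ k' k x' *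
        y (k, M.π k' k (M.π k k' x)) (k, M'.π k' k x')))
      = (starRingEnd ℂ) (∑ x, ∑ x', (starRingEnd ℂ) (y (k, x) (k, x')) * ((starRingEnd ℂ)
        (M.φ k k' x) * M'.φ k k' x' * y (k', M.π k k' x) (k', M'.π k k' x'))) := by
    rw [map_sum]
    refine Finset.sum_congr rfl fun x _ => ?_
    rw [map_sum, ← Equiv.sum_comp (M'.π k k')]
    refine Finset.sum_congr rfl fun x' _ => ?_
    rw [M.πinv, M'.πinv, M.φinv, M'.φinv]
    simp only [map_mul, Complex.conj_conj]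
    ring
  rw [h, Complex.conj_re]

/-- diagonal blocks -/
def fk (y : M.ι → M'.ι → ℂ) (k : Fin 4) (p : M.Ω × M'.Ω) : ℂ := y (k, p.1) (k, p.2)

/-- the operator `W_{kk'}` -/
noncomputable def Wk (k k' : Fin 4) (f : M.Ω × M'.Ω → ℂ) (p : M.Ω × M'.Ω) : ℂ :=
  (starRingEnd ℂ) (M.φ k k' p.1) * M'.φ k k' p.2 * f (M.π k k' p.1, M'.π k k' p.2)

lemma bn_fk (k : Fin 4) (y : M.ι → M'.ι → ℂ) : bn M M' k k y ^ 2 = ∑ p, ‖fk M M' y k p‖ ^ 2 := by
  rw [bn_sq, Fintype.sum_prod_type]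
  rfl

lemma sum_Wk (k k' : Fin 4) (f : M.Ω × M'.Ω → ℂ) :
    ∑ p, ‖Wk M M' k k' f p‖ ^ 2 = ∑ p, ‖f p‖ ^ 2 := by
  have h : ∀ p, ‖Wk M M' k k' f p‖ ^ 2
      = ‖f ((Equiv.prodCongr (M.π k k') (M'.π k k')) p)‖ ^ 2 := by
    intro p
    unfold Wk
    rw [norm_mul, norm_mul, RCLike.norm_conj, M.nφ, M'.nφ, one_mul, one_mul]
    rfl
  simp_rw [h]
  exact Equiv.sum_comp (Equiv.prodCongr (M.π k k') (M'.π k k')) (fun p => ‖f p‖ ^ 2)

lemma defect (k k' : Fin 4) (y : M.ι → M'.ι → ℂ) :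
    ∑ p, ‖fk M M' y k p - Wk M M' k k' (fk M M' y k') p‖ ^ 2
      = bn M M' k k y ^ 2 + bn M M' k' k' y ^ 2 - 2 * rr M M' k k' k k' y := by
  have hrr : rr M M' k k' k k' y
      = ∑ p, ((starRingEnd ℂ) (fk M M' y k p) * Wk M M' k k' (fk M M' y k') p).re := by
    unfold rr
    rw [← Complex.re_sum, Fintype.sum_prod_type]
    rfl
  rw [hrr, bn_fk, bn_fk, ← sum_Wk M M' k k' (fk M M' y k'), Finset.mul_sum,
    ← Finset.sum_add_distrib, ← Finset.sum_sub_distrib]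
  refine Finset.sum_congr rfl fun p _ => ?_
  generalize fk M M' y k p = a
  generalize Wk M M' k k' (fk M M' y k') p = b
  simp only [← Complex.normSq_eq_norm_sq, Complex.normSq_apply, Complex.mul_re, Complex.sub_re,
    Complex.sub_im, Complex.conj_re, Complex.conj_im]
  ring

end Comp

/-- the sum of the W terms -/
noncomputable def SW (M M' : Comp) (y : M.ι → M'.ι → ℂ) : ℝ :=
  ∑ k, ∑ k', if k = k' then 0 else Comp.rr M M' k k' k k' y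

lemma sq3 (a b c : ℂ) : ‖a + b + c‖ ^ 2 ≤ 3 * (‖a‖ ^ 2 + ‖b‖ ^ 2 + ‖c‖ ^ 2) := by
  have h : ‖a + b + c‖ ≤ ‖a‖ + ‖b‖ + ‖c‖ := norm_add₃_le
  have := pow_le_pow_left₀ (norm_nonneg _) h 2
  nlinarith [sq_nonneg (‖a‖ - ‖b‖), sq_nonneg (‖b‖ - ‖c‖), sq_nonneg (‖a‖ - ‖c‖)]

/-- abstract form of the final step of the gap. -/
lemma gap4 {Z : Type} [Fintype Z] (P : PP Z) (f0 f1 f2 f3 : Z → ℂ) :
    (∑ z, ‖f0 z‖ ^ 2) + (∑ z, ‖f1 z‖ ^ 2) + (∑ z, ‖f2 z‖ ^ 2) + (∑ z, ‖f3 z‖ ^ 2)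
      ≤ 5042 * ((∑ z, ‖f0 z - f1 z‖ ^ 2) + (∑ z, ‖f0 z - f2 z‖ ^ 2) + (∑ z, ‖f0 z - f3 z‖ ^ 2)
        + (∑ z, ‖f1 z - P.w1 z * f2 z‖ ^ 2) + (∑ z, ‖f1 z - f3 (P.g z)‖ ^ 2)
        + (∑ z, ‖f2 z - f3 (P.h z)‖ ^ 2)) := by
  set d01 := ∑ z, ‖f0 z - f1 z‖ ^ 2 with h01
  set d02 := ∑ z, ‖f0 z - f2 z‖ ^ 2 with h02
  set d03 := ∑ z, ‖f0 z - f3 z‖ ^ 2 with h03
  set d12 := ∑ z, ‖f1 z - P.w1 z * f2 z‖ ^ 2 with h12
  set d13 := ∑ z, ‖f1 z - f3 (P.g z)‖ ^ 2 with h13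
  set d23 := ∑ z, ‖f2 z - f3 (P.h z)‖ ^ 2 with h23
  have n01 : 0 ≤ d01 := by positivity
  have n02 : 0 ≤ d02 := by positivity
  have n03 : 0 ≤ d03 := by positivity
  have n12 : 0 ≤ d12 := by positivity
  have n13 : 0 ≤ d13 := by positivity
  have n23 : 0 ≤ d23 := by positivity
  have e1 : ∑ z, ‖P.w1 z * f0 z - f0 z‖ ^ 2 ≤ 3 * (d02 + d12 + d01) := by
    rw [h02, h12, h01, ← Finset.sum_add_distrib, ← Finset.sum_add_distrib, Finset.mul_sum]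
    refine Finset.sum_le_sum fun z _ => ?_
    have : P.w1 z * f0 z - f0 z
        = P.w1 z * (f0 z - f2 z) + (-(f1 z - P.w1 z * f2 z)) + (-(f0 z - f1 z)) := by ring
    rw [this]
    refine (sq3 _ _ _).trans (le_of_eq ?_)
    rw [norm_mul, P.n1, one_mul, norm_neg, norm_neg]
  have e2 : ∑ z, ‖f0 (P.g z) - f0 z‖ ^ 2 ≤ 3 * (d03 + d13 + d01) := by
    rw [h03, h13, h01, ← Equiv.sum_comp P.g (fun z => ‖f0 z - f3 z‖ ^ 2),
      ← Finset.sum_add_distrib, ← Finset.sum_add_distrib, Finset.mul_sum]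
    refine Finset.sum_le_sum fun z _ => ?_
    have : f0 (P.g z) - f0 z
        = (f0 (P.g z) - f3 (P.g z)) + (-(f1 z - f3 (P.g z))) + (-(f0 z - f1 z)) := by ring
    rw [this]
    refine (sq3 _ _ _).trans (le_of_eq ?_)
    rw [norm_neg, norm_neg]
  have e3 : ∑ z, ‖f0 (P.h z) - f0 z‖ ^ 2 ≤ 3 * (d03 + d23 + d02) := by
    rw [h03, h23, h02, ← Equiv.sum_comp P.h (fun z => ‖f0 z - f3 z‖ ^ 2),
      ← Finset.sum_add_distrib, ← Finset.sum_add_distrib, Finset.mul_sum]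
    refine Finset.sum_le_sum fun z _ => ?_
    have : f0 (P.h z) - f0 z
        = (f0 (P.h z) - f3 (P.h z)) + (-(f2 z - f3 (P.h z))) + (-(f0 z - f2 z)) := by ring
    rw [this]
    refine (sq3 _ _ _).trans (le_of_eq ?_)
    rw [norm_neg, norm_neg]
  have e4 := gap P f0
  have tri : ∀ f : Z → ℂ, ∑ z, ‖f z‖ ^ 2 ≤ 2 * ∑ z, ‖f0 z‖ ^ 2 + 2 * ∑ z, ‖f0 z - f z‖ ^ 2 := by
    intro f
    rw [Finset.mul_sum, Finset.mul_sum, ← Finset.sum_add_distrib]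
    refine Finset.sum_le_sum fun z _ => ?_
    have h : ‖f z‖ ≤ ‖f0 z‖ + ‖f0 z - f z‖ := by
      have := norm_sub_le (f0 z) (f0 z - f z)
      simpa using this
    have := pow_le_pow_left₀ (norm_nonneg _) h 2
    nlinarith [sq_nonneg (‖f0 z‖ - ‖f0 z - f z‖)]
  have t1 := tri f1
  have t2 := tri f2
  have t3 := tri f3
  rw [← h01] at t1
  rw [← h02] at t2
  rw [← h03] at t3
  linarith

lemma SW_eq (M M' : Comp) (y : M.ι → M'.ι → ℂ) :
    SW M M' y = 2 * (Comp.rr M M' 0 1 0 1 y + Comp.rr M M' 0 2 0 2 y + Comp.rr M M' 0 3 0 3 y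
      + Comp.rr M M' 1 2 1 2 y + Comp.rr M M' 1 3 1 3 y + Comp.rr M M' 2 3 2 3 y) := by
  unfold SW
  simp only [Fin.sum_univ_four]
  rw [Comp.rr_symm M M' 0 1, Comp.rr_symm M M' 0 2, Comp.rr_symm M M' 0 3,
    Comp.rr_symm M M' 1 2, Comp.rr_symm M M' 1 3, Comp.rr_symm M M' 2 3]
  simp only [if_true, Fin.isValue, Fin.reduceEq, if_false]
  ring

lemma SW_le_abs (M M' : Comp) (P : PP (M.Ω × M'.Ω))
    (w01 : ∀ f p, Comp.Wk M M' 0 1 f p = f p) (w02 : ∀ f p, Comp.Wk M M' 0 2 f p = f p)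
    (w03 : ∀ f p, Comp.Wk M M' 0 3 f p = f p) (w12 : ∀ f p, Comp.Wk M M' 1 2 f p = P.w1 p * f p)
    (w13 : ∀ f p, Comp.Wk M M' 1 3 f p = f (P.g p))
    (w23 : ∀ f p, Comp.Wk M M' 2 3 f p = f (P.h p)) (y : M.ι → M'.ι → ℂ) :
    SW M M' y ≤ (3 - 1 / 5042) * ∑ k, Comp.bn M M' k k y ^ 2 := by
  have d01 := Comp.defect M M' 0 1 y
  have d02 := Comp.defect M M' 0 2 y
  have d03 := Comp.defect M M' 0 3 y
  have d12 := Comp.defect M M' 1 2 y
  have d13 := Comp.defect M M' 1 3 y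
  have d23 := Comp.defect M M' 2 3 y
  simp_rw [w01] at d01
  simp_rw [w02] at d02
  simp_rw [w03] at d03
  simp_rw [w12] at d12
  simp_rw [w13] at d13
  simp_rw [w23] at d23
  have hg := gap4 P (Comp.fk M M' y 0) (Comp.fk M M' y 1) (Comp.fk M M' y 2) (Comp.fk M M' y 3)
  have hSW := SW_eq M M' y
  have b0 := Comp.bn_fk M M' 0 y
  have b1 := Comp.bn_fk M M' 1 y
  have b2 := Comp.bn_fk M M' 2 y
  have b3 := Comp.bn_fk M M' 3 y
  rw [Fin.sum_univ_four, hSW]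
  linarith

/-- component of a prime -/
noncomputable def primeComp (p : ℕ) [Fact p.Prime] (z : Bool → Fin 4 → Fin 4 → ℝ)
    (hz : ∀ σ k l, z σ k l = z σ l k) : Comp :=
  haveI : Nonempty (Om p) := ⟨⟨(1, 0), by
    intro h
    have := congrArg Prod.fst h
    simp at this⟩⟩
  mk4 (Om p) (gP p) (hP p) (fun x => ch p x.1.1) (fun x => norm_ch p _) z hz

lemma SW_le (p q : ℕ) [Fact p.Prime] [Fact q.Prime] (hpq : p ≠ q)
    (z : Bool → Fin 4 → Fin 4 → ℝ) (hz : ∀ σ k l, z σ k l = z σ l k)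
    (y : (primeComp p z hz).ι → (primeComp q z hz).ι → ℂ) :
    SW (primeComp p z hz) (primeComp q z hz) y
      ≤ (3 - 1 / 5042) * ∑ k, Comp.bn (primeComp p z hz) (primeComp q z hz) k k y ^ 2 := by
  have hW : ∀ (k l : Fin 4) (f : (primeComp p z hz).Ω × (primeComp q z hz).Ω → ℂ) r,
      Comp.Wk (primeComp p z hz) (primeComp q z hz) k l f r
      = ((starRingEnd ℂ) ((primeComp p z hz).φ k l r.1) * (primeComp q z hz).φ k l r.2)
        * f ((primeComp p z hz).π k l r.1, (primeComp q z hz).π k l r.2) := fun _ _ _ _ => rfl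
  refine SW_le_abs (primeComp p z hz) (primeComp q z hz) (ppPQ p q hpq) ?_ ?_ ?_ ?_ ?_ ?_ y
  · intro f r
    rw [hW]
    have e1 : (primeComp p z hz).φ 0 1 r.1 = 1 := rfl
    have e2 : (primeComp q z hz).φ 0 1 r.2 = 1 := rfl
    have e3 : ((primeComp p z hz).π 0 1 r.1, (primeComp q z hz).π 0 1 r.2) = r := rfl
    rw [e1, e2, e3, map_one, one_mul, one_mul]
  · intro f r
    rw [hW]
    have e1 : (primeComp p z hz).φ 0 2 r.1 = 1 := rfl
    have e2 : (primeComp q z hz).φ 0 2 r.2 = 1 := rfl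
    have e3 : ((primeComp p z hz).π 0 2 r.1, (primeComp q z hz).π 0 2 r.2) = r := rfl
    rw [e1, e2, e3, map_one, one_mul, one_mul]
  · intro f r
    rw [hW]
    have e1 : (primeComp p z hz).φ 0 3 r.1 = 1 := rfl
    have e2 : (primeComp q z hz).φ 0 3 r.2 = 1 := rfl
    have e3 : ((primeComp p z hz).π 0 3 r.1, (primeComp q z hz).π 0 3 r.2) = r := rfl
    rw [e1, e2, e3, map_one, one_mul, one_mul]
  · intro f r
    rw [hW]
    have e1 : (starRingEnd ℂ) ((primeComp p z hz).φ 1 2 r.1) * (primeComp q z hz).φ 1 2 r.2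
        = (ppPQ p q hpq).w1 r := rfl
    have e3 : ((primeComp p z hz).π 1 2 r.1, (primeComp q z hz).π 1 2 r.2) = r := rfl
    rw [e1, e3]
  · intro f r
    rw [hW]
    have e1 : (primeComp p z hz).φ 1 3 r.1 = 1 := rfl
    have e2 : (primeComp q z hz).φ 1 3 r.2 = 1 := rfl
    have e3 : ((primeComp p z hz).π 1 3 r.1, (primeComp q z hz).π 1 3 r.2)
        = (ppPQ p q hpq).g r := rfl
    rw [e1, e2, e3, map_one, one_mul, one_mul]
    rfl
  · intro f r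
    rw [hW]
    have e1 : (primeComp p z hz).φ 2 3 r.1 = 1 := rfl
    have e2 : (primeComp q z hz).φ 2 3 r.2 = 1 := rfl
    have e3 : ((primeComp p z hz).π 2 3 r.1, (primeComp q z hz).π 2 3 r.2)
        = (ppPQ p q hpq).h r := rfl
    rw [e1, e2, e3, map_one, one_mul, one_mul]
    rfl

end Pool.Agent.H2Sep
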