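import Pool.Agent.H2Sep.CompForm
import Pool.Agent.H2Sep.Gap

/-!
# The components attached to primes
-/

namespace Pool.Agent.H2Sep

open Matrix

/-- a component built from two permutations and a unimodular function -/
def mk4 (Ω : Type) [Fintype Ω] [DecidableEq Ω] [Nonempty Ω] (g h : Equiv.Perm Ω) (χ : Ω → ℂ)
    (hχ : ∀ x, ‖χ x‖ = 1) (z : Bool → Fin 4 → Fin 4 → ℝ) (hz : ∀ σ k l, z σ k l = z σ l k) :
    Comp where
  Ω := Ω
  π k l := if k = 1 ∧ l = 3 then g else if k = 3 ∧ l = 1 then g.symm
    else if k = 2 ∧ l = 3 then h else if k = 3 ∧ l = 2 then h.symm else Equiv.refl Ω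
  φ k l x := if k = 1 ∧ l = 2 then χ x else if k = 2 ∧ l = 1 then (starRingEnd ℂ) (χ x) else 1
  nφ k l x := by
    split_ifs
    · exact hχ x
    · rw [RCLike.norm_conj]; exact hχ x
    · exact norm_one
  πdiag k x := by fin_cases k <;> simp
  φdiag k x := by fin_cases k <;> simp
  πinv k l x := by fin_cases k <;> fin_cases l <;> simp
  φinv k l x := by fin_cases k <;> fin_cases l <;> simp
  z := z
  zsymm := hz

/-- the punctured torus -/
abbrev Om (p : ℕ) : Type := {x : ZMod p × ZMod p // x ≠ 0}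

/-- the first unipotent -/
def gP (p : ℕ) : Equiv.Perm (Om p) where
  toFun x := ⟨(x.1.1 + x.1.2, x.1.2), by
    intro h
    have h1 := congrArg Prod.fst h
    have h2 := congrArg Prod.snd h
    simp only [Prod.fst_zero, Prod.snd_zero] at h1 h2
    apply x.2
    rw [h2, add_zero] at h1
    exact Prod.ext h1 h2⟩
  invFun x := ⟨(x.1.1 - x.1.2, x.1.2), by
    intro h
    have h1 := congrArg Prod.fst h
    have h2 := congrArg Prod.snd h
    simp only [Prod.fst_zero, Prod.snd_zero] at h1 h2
    apply x.2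
    rw [h2, sub_zero] at h1
    exact Prod.ext h1 h2⟩
  left_inv x := by ext <;> simp
  right_inv x := by ext <;> simp

/-- the second unipotent -/
def hP (p : ℕ) : Equiv.Perm (Om p) where
  toFun x := ⟨(x.1.1, x.1.1 + x.1.2), by
    intro h
    have h1 := congrArg Prod.fst h
    have h2 := congrArg Prod.snd h
    simp only [Prod.fst_zero, Prod.snd_zero] at h1 h2
    apply x.2
    rw [h1, zero_add] at h2
    exact Prod.ext h1 h2⟩
  invFun x := ⟨(x.1.1, x.1.2 - x.1.1), by
    intro h
    have h1 := congrArg Prod.fst h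
    have h2 := congrArg Prod.snd h
    simp only [Prod.fst_zero, Prod.snd_zero] at h1 h2
    apply x.2
    rw [h1, sub_zero] at h2
    exact Prod.ext h1 h2⟩
  left_inv x := by ext <;> simp
  right_inv x := by ext <;> simp

lemma gP_fst (p : ℕ) (x : Om p) : (gP p x).1.1 = x.1.1 + x.1.2 := rfl
lemma gP_snd (p : ℕ) (x : Om p) : (gP p x).1.2 = x.1.2 := rfl
lemma hP_fst (p : ℕ) (x : Om p) : (hP p x).1.1 = x.1.1 := rfl
lemma hP_snd (p : ℕ) (x : Om p) : (hP p x).1.2 = x.1.1 + x.1.2 := rfl

/-- the standard character -/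
noncomputable def ch (p : ℕ) [NeZero p] (a : ZMod p) : ℂ := ZMod.stdAddChar a

lemma norm_ch (p : ℕ) [NeZero p] (a : ZMod p) : ‖ch p a‖ = 1 := by
  unfold ch
  rw [ZMod.stdAddChar_apply]
  exact Circle.norm_coe _

lemma ch_add (p : ℕ) [NeZero p] (a b : ZMod p) : ch p (a + b) = ch p a * ch p b := by
  unfold ch
  exact AddChar.map_add_eq_mul _ _ _

/-- The ping-pong data on `Om p × Om q`, `p ≠ q` primes. -/
noncomputable def ppPQ (p q : ℕ) [Fact p.Prime] [Fact q.Prime] (hpq : p ≠ q) :
    PP (Om p × Om q) where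
  g := Equiv.prodCongr (gP p) (gP q)
  h := Equiv.prodCongr (hP p) (hP q)
  w1 z := (starRingEnd ℂ) (ch p z.1.1.1) * ch q z.2.1.1
  w2 z := (starRingEnd ℂ) (ch p z.1.1.2) * ch q z.2.1.2
  n1 z := by rw [norm_mul, RCLike.norm_conj, norm_ch, norm_ch, one_mul]
  n2 z := by rw [norm_mul, RCLike.norm_conj, norm_ch, norm_ch, one_mul]
  g1 z := by
    simp only [Equiv.prodCongr_apply, Prod.map_fst, Prod.map_snd, gP_fst, ch_add, map_mul]
    ring
  g2 z := by
    simp only [Equiv.prodCongr_apply, Prod.map_fst, Prod.map_snd, gP_snd]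
  h1 z := by
    simp only [Equiv.prodCongr_apply, Prod.map_fst, Prod.map_snd, hP_fst]
  h2 z := by
    simp only [Equiv.prodCongr_apply, Prod.map_fst, Prod.map_snd, hP_snd, ch_add, map_mul]
    ring
  ne z := by
    rintro ⟨e1, e2⟩
    have key : ∀ (a : ZMod p) (b : ZMod q), (starRingEnd ℂ) (ch p a) * ch q b = 1 → a = 0 := by
      intro a b hab
      have hcc : ch p a * (starRingEnd ℂ) (ch p a) = 1 := by
        rw [Complex.mul_conj, Complex.normSq_eq_norm_sq, norm_ch]; simp
      have h1 : ch q b = ch p a := by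
        calc ch q b = (ch p a * (starRingEnd ℂ) (ch p a)) * ch q b := by rw [hcc, one_mul]
          _ = ch p a * ((starRingEnd ℂ) (ch p a) * ch q b) := by ring
          _ = ch p a := by rw [hab, mul_one]
      have h2 : ch p (q • a) = 1 := by
        have e : ch p (q • a) = (ch p a) ^ q := by
          unfold ch; exact AddChar.map_nsmul_eq_pow _ _ _
        have e' : ch q (q • b) = (ch q b) ^ q := by
          unfold ch; exact AddChar.map_nsmul_eq_pow _ _ _
        rw [e, ← h1, ← e']
        have : q • b = 0 := by simp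
        rw [this]
        unfold ch
        exact AddChar.map_zero_eq_one _
      have h3 : q • a = 0 := by
        apply ZMod.injective_stdAddChar (N := p)
        change ch p (q • a) = ch p 0
        rw [h2]
        unfold ch
        exact (AddChar.map_zero_eq_one _).symm
      rw [nsmul_eq_mul] at h3
      rcases mul_eq_zero.1 h3 with h4 | h4
      · exfalso
        rw [ZMod.natCast_eq_zero_iff] at h4
        exact hpq ((Nat.prime_dvd_prime_iff_eq Fact.out Fact.out).1 h4)
      · exact h4
    exact z.1.2 (Prod.ext (key _ _ e1) (key _ _ e2))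

end Pool.Agent.H2Sep
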