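import Mathlib

/-!
# Matrix preliminaries
-/

namespace Pool.Agent.H2Sep

open Matrix
open scoped MatrixOrder ComplexOrder Kronecker

lemma exists_root {n : Type} [Fintype n] {M : Matrix n n ℂ} (hM : M.PosSemidef) :
    ∃ B : Matrix n n ℂ, Bᴴ * B = M := by
  classical
  obtain ⟨X, hX, -, h⟩ :=
    CFC.exists_sqrt_of_isSelfAdjoint_of_quasispectrumRestricts hM.isHermitian
      (QuasispectrumRestricts.nnreal_of_nonneg hM.nonneg)
  refine ⟨X, ?_⟩
  have hX' : Xᴴ = X := hX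
  rw [hX', h]

/-- squared norm of `A y` through the Gram matrix. -/
lemma sum_mulVec_sq {m n : Type} [Fintype m] [Fintype n] (A : Matrix m n ℂ) (y : n → ℂ) :
    ((∑ i, ‖(A *ᵥ y) i‖ ^ 2 : ℝ) : ℂ) = star y ⬝ᵥ ((Aᴴ * A) *ᵥ y) := by
  rw [← mulVec_mulVec, dotProduct_mulVec, vecMul_conjTranspose, star_star]
  simp only [dotProduct, Complex.ofReal_sum]
  refine Finset.sum_congr rfl fun i _ => ?_
  rw [Pi.star_apply, Complex.star_def, ← Complex.normSq_eq_norm_sq, mul_comm, Complex.mul_conj]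

/-- the two-matrix version. -/
lemma sum_two_sq {m n m' n' : Type} [Fintype m] [Fintype n] [Fintype m'] [Fintype n']
    (A : Matrix m n ℂ) (B : Matrix m' n' ℂ) (y : n → n' → ℂ) :
    ((∑ r, ∑ r', ‖∑ u, ∑ v, A r u * B r' v * y u v‖ ^ 2 : ℝ) : ℂ)
      = ∑ u, ∑ v, ∑ u', ∑ v', (starRingEnd ℂ) (y u v) * ((Aᴴ * A) u u' * (Bᴴ * B) v v' * y u' v') := by
  have h := sum_mulVec_sq (A ⊗ₖ B) (fun i : n × n' => y i.1 i.2)
  rw [conjTranspose_kronecker, ← mul_kronecker_mul] at h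
  simp only [mulVec, dotProduct, Fintype.sum_prod_type, kroneckerMap_apply, Pi.star_apply,
    Complex.star_def] at h
  rw [h]
  refine Finset.sum_congr rfl fun u _ => Finset.sum_congr rfl fun v _ => ?_
  rw [Finset.mul_sum]
  refine Finset.sum_congr rfl fun u' _ => ?_
  rw [Finset.mul_sum]

end Pool.Agent.H2Sep
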