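import Pool.Agent.H2Sep.Build

/-!
# Separation of two spaces by a test matrix
-/

open scoped ENNReal

namespace Pool.Agent.H2Sep

section

variable {V : Type} [NormedAddCommGroup V] [InnerProductSpace ℂ V]
variable {m n : Type} [Fintype m] [Fintype n]

/-- pad a rectangular matrix to a square one -/
def padM (α : m → n → Fin 2 → ℂ) : (m ⊕ n) → (m ⊕ n) → Fin 2 → ℂ
  | Sum.inl p, Sum.inr q => α p q
  | _, _ => 0

lemma CF_pad (C : Bool → V →L[ℂ] V) (α : m → n → Fin 2 → ℂ) (ξ : (m ⊕ n) → Fin 2 → V) :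
    CF C (padM α) ξ = CF C α (fun q => ξ (Sum.inr q)) := by
  unfold CF
  rw [Fintype.sum_sum_type]
  have h2 : ∀ p : n, ∑ σ, ∑ s, ∑ t, (1 / 4 : ℝ) * ‖C σ (∑ q, (padM α (Sum.inr p) q s • ξ q t
      + sgn σ • padM α (Sum.inr p) q t • ξ q s))‖ ^ 2 = 0 := by
    intro p
    refine Finset.sum_eq_zero fun σ _ => Finset.sum_eq_zero fun s _ =>
      Finset.sum_eq_zero fun t _ => ?_
    have : ∑ q, (padM α (Sum.inr p) q s • ξ q t
      + sgn σ • padM α (Sum.inr p) q t • ξ q s) = 0 := by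
      refine Finset.sum_eq_zero fun q _ => ?_
      simp [padM]
    rw [this, map_zero, norm_zero]
    ring
  rw [Finset.sum_congr rfl fun p _ => h2 p, Finset.sum_const_zero, add_zero]
  refine Finset.sum_congr rfl fun p _ => Finset.sum_congr rfl fun σ _ =>
    Finset.sum_congr rfl fun s _ => Finset.sum_congr rfl fun t _ => ?_
  rw [Fintype.sum_sum_type]
  simp [padM]

lemma CF_reindex {ι : Type} [Fintype ι] {k : ℕ} (e : ι ≃ Fin k) (C : Bool → V →L[ℂ] V)
    (α : ι → ι → Fin 2 → ℂ) (ξ : Fin k → Fin 2 → V) :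
    CF C (fun i j => α (e.symm i) (e.symm j)) ξ = CF C α (fun q => ξ (e q)) := by
  unfold CF
  rw [← Equiv.sum_comp e]
  refine Finset.sum_congr rfl fun p _ => Finset.sum_congr rfl fun σ _ =>
    Finset.sum_congr rfl fun s _ => Finset.sum_congr rfl fun t _ => ?_
  rw [← Equiv.sum_comp e]
  simp

lemma nsq_reindex {ι : Type} [Fintype ι] {k : ℕ} (e : ι ≃ Fin k) (ξ : Fin k → Fin 2 → V) :
    nsq ξ = nsq (fun q => ξ (e q)) := by
  unfold nsq
  rw [← Equiv.sum_comp e]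

lemma nsq_inr (ξ : (m ⊕ n) → Fin 2 → V) : nsq (fun q => ξ (Sum.inr q)) ≤ nsq ξ := by
  unfold nsq
  rw [Fintype.sum_sum_type]
  have : 0 ≤ ∑ q, ∑ t, ‖ξ (Sum.inl q) t‖ ^ 2 := by positivity
  linarith

end

section

variable {V : Type} [NormedAddCommGroup V] [InnerProductSpace ℂ V] [CompleteSpace V]
variable {m n : Type} [Fintype m] [Fintype n]

/-- the equivalence used for reindexing -/
noncomputable def eqv (m n : Type) [Fintype m] [Fintype n] :
    (m ⊕ n) ≃ Fin (Fintype.card (m ⊕ n)) := Fintype.equivFin (m ⊕ n)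

/-- the square matrix with entries in `ℓ₂²` made from a rectangular one. -/
noncomputable def sqM (α : m → n → Fin 2 → ℂ) :
    Fin (Fintype.card (m ⊕ n)) → Fin (Fintype.card (m ⊕ n)) → EuclideanSpace ℂ (Fin 2) :=
  fun i j => WithLp.toLp 2 (padM α ((eqv m n).symm i) ((eqv m n).symm j))

lemma CF_sqM (C : Bool → V →L[ℂ] V) (α : m → n → Fin 2 → ℂ)
    (ξ : Fin (Fintype.card (m ⊕ n)) → Fin 2 → V) :
    CF C (fun i j => (sqM α i j).ofLp) ξ = CF C α (fun q => ξ (eqv m n (Sum.inr q))) := by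
  have h : (fun i j => (sqM α i j).ofLp)
      = fun i j => padM α ((eqv m n).symm i) ((eqv m n).symm j) := rfl
  rw [h, CF_reindex (eqv m n) C (padM α) ξ, CF_pad]

lemma sqM_le (C : Bool → V →L[ℂ] V) (α : m → n → Fin 2 → ℂ) {β : ℝ} (hβ : 0 ≤ β)
    (h1 : ∀ ξ : n → Fin 2 → V, CF C α ξ ≤ β * nsq ξ) :
    matNorm (fun i j => xLin C (sqM α i j)) ≤ Real.sqrt β := by
  rw [matNorm_le_iff C _ (Real.sqrt_nonneg _)]
  intro ξ
  rw [Real.sq_sqrt hβ, CF_sqM]
  refine (h1 _).trans (mul_le_mul_of_nonneg_left ?_ hβ)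
  rw [nsq_reindex (eqv m n) ξ]
  exact nsq_inr (fun q => ξ (eqv m n q))

lemma le_sqM (C : Bool → V →L[ℂ] V) (α : m → n → Fin 2 → ℂ) {β' : ℝ}
    (ξ0 : n → Fin 2 → V) (hξ0 : 0 < nsq ξ0) (h2 : β' * nsq ξ0 ≤ CF C α ξ0) :
    β' ≤ matNorm (fun i j => xLin C (sqM α i j)) ^ 2 := by
  have h3 := (matNorm_le_iff C (sqM α) (matNorm_nonneg _)).1 le_rfl
    (fun i => Sum.elim (fun _ => 0) ξ0 ((eqv m n).symm i))
  rw [CF_sqM, nsq_reindex (eqv m n)] at h3
  simp only [Equiv.symm_apply_apply, Sum.elim_inr] at h3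
  have h4 : nsq (fun q : m ⊕ n => Sum.elim (fun _ : m => (0 : Fin 2 → V)) ξ0 q) = nsq ξ0 := by
    unfold nsq
    rw [Fintype.sum_sum_type]
    simp
  rw [h4] at h3
  exact le_of_mul_le_mul_right (h2.trans h3) hξ0

end

section

variable {V V' : Type} [NormedAddCommGroup V] [InnerProductSpace ℂ V] [CompleteSpace V]
  [NormedAddCommGroup V'] [InnerProductSpace ℂ V'] [CompleteSpace V']

/-- isomorphisms seen in coordinates -/
lemma iso_coord {k : ℕ}
    (C : Bool → V →L[ℂ] V) (hC : Good C) (C' : Bool → V' →L[ℂ] V') (hC' : Good C')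
    (u : (space C hC).E ≃ₗ[ℂ] (space C' hC').E) {K K' : ℝ} (hK : 0 ≤ K)
    (hu : CB (space C hC) (space C' hC') u.toLinearMap K)
    (hu' : CB (space C' hC') (space C hC) u.symm.toLinearMap K')
    (A : Fin k → Fin k → EuclideanSpace ℂ (Fin 2)) :
    matNorm (fun i j => xLin C (A i j)) ≤ K * (K' * matNorm (fun i j => xLin C' (A i j))) := by
  set X := coord C hC with hX
  set X' := coord C' hC' with hX'
  let T : EuclideanSpace ℂ (Fin 2) →ₗ[ℂ] EuclideanSpace ℂ (Fin 2) :=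
    X'.symm.toLinearEquiv.toLinearMap ∘ₗ u.toLinearMap ∘ₗ X.toLinearEquiv.toLinearMap
  have hT0 : ∀ v, T v = X'.symm (u (X v)) := fun v => rfl
  have hT : ∀ v, ‖T v‖ ≤ K * ‖v‖ := by
    intro v
    rw [hT0, LinearIsometryEquiv.norm_map]
    have := norm_apply_le_of_CB hu (X v)
    rw [LinearIsometryEquiv.norm_map] at this
    exact this
  have h5 := matNorm_contr C (fun i j => X.symm (u.symm (X' (A i j)))) T hK hT
  have e1 : ∀ i j, T (X.symm (u.symm (X' (A i j)))) = A i j := by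
    intro i j
    rw [hT0, LinearIsometryEquiv.apply_symm_apply, LinearEquiv.apply_symm_apply,
      LinearIsometryEquiv.symm_apply_apply]
  simp_rw [e1] at h5
  have h6 := hu' k (fun i j => X' (A i j))
  have e2 : ∀ i j, xLin C (X.symm (u.symm (X' (A i j))))
      = ((u.symm.toLinearMap (X' (A i j))).1 : (space C hC).H →L[ℂ] (space C hC).H) := by
    intro i j
    rw [← coord_coe C hC, ← hX, LinearIsometryEquiv.apply_symm_apply]
    rfl
  have e3 : ∀ i j, ((X' (A i j)).1 : (space C' hC').H →L[ℂ] (space C' hC').H)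
      = xLin C' (A i j) := fun i j => coord_coe C' hC' _
  simp_rw [e2] at h5
  simp_rw [e3] at h6
  exact h5.trans (mul_le_mul_of_nonneg_left h6 hK)

lemma separation {m n : Type} [Fintype m] [Fintype n]
    (C : Bool → V →L[ℂ] V) (hC : Good C) (C' : Bool → V' →L[ℂ] V') (hC' : Good C')
    (u : (space C hC).E ≃ₗ[ℂ] (space C' hC').E) {K K' : ℝ} (hK : 0 ≤ K) (hK' : 0 ≤ K')
    (hu : CB (space C hC) (space C' hC') u.toLinearMap K)
    (hu' : CB (space C' hC') (space C hC) u.symm.toLinearMap K')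
    (α : m → n → Fin 2 → ℂ) {β β' : ℝ} (hβ : 0 ≤ β)
    (h1 : ∀ ξ : n → Fin 2 → V', CF C' α ξ ≤ β * nsq ξ)
    (ξ0 : n → Fin 2 → V) (hξ0 : 0 < nsq ξ0) (h2 : β' * nsq ξ0 ≤ CF C α ξ0) :
    β' ≤ (K * K') ^ 2 * β := by
  have b1 := sqM_le C' α hβ h1
  have b2 := le_sqM C α ξ0 hξ0 h2
  have b3 := iso_coord C hC C' hC' u hK hu hu' (sqM α)
  have h7 : matNorm (fun i j => xLin C (sqM α i j)) ≤ K * (K' * Real.sqrt β) :=
    b3.trans (mul_le_mul_of_nonneg_left (mul_le_mul_of_nonneg_left b1 hK') hK)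
  refine b2.trans ((pow_le_pow_left₀ (matNorm_nonneg _) h7 2).trans (le_of_eq ?_))
  rw [← mul_assoc, mul_pow, Real.sq_sqrt hβ]

end

end Pool.Agent.H2Sep
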