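import Pool.Agent.H2Sep.OS
import Pool.Agent.H2Sep.Final

/-!
# Transfer of the result to the definitions of the statement
-/

open scoped ENNReal

namespace Pool.Agent.H2Sep

namespace OS

/-- the same operator space, in the other encoding -/
def toOld {n : ℕ} (E : OpSpace n) : Pool.Agent.H2Sep.OpSpace n where
  H := E.H
  E := E.E
  fin := E.fin
  dim := E.dim

/-- the same operator space, in the other encoding -/
def ofOld {n : ℕ} (E : Pool.Agent.H2Sep.OpSpace n) : OpSpace n where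
  H := E.H
  E := E.E
  fin := E.fin
  dim := E.dim

theorem toOld_ofOld {n : ℕ} (E : Pool.Agent.H2Sep.OpSpace n) : toOld (ofOld E) = E := rfl

theorem ofOld_toOld {n : ℕ} (E : OpSpace n) : ofOld (toOld E) = E := rfl

theorem matNorm_eq {H : Type} [NormedAddCommGroup H] [InnerProductSpace ℂ H]
    {k : ℕ} (a : Fin k → Fin k → (H →L[ℂ] H)) : matNorm a = Pool.Agent.H2Sep.matNorm a := rfl

theorem cbNorm_eq {m n : ℕ} (E : OpSpace m) (F : OpSpace n) (u : E.Elt →ₗ[ℂ] F.Elt) :
    cbNorm u = Pool.Agent.H2Sep.cbNorm (toOld E) (toOld F) u := rfl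

theorem dcb_eq {n : ℕ} (E F : OpSpace n) :
    dcb E F = Pool.Agent.H2Sep.dcb (toOld E) (toOld F) := rfl

theorem hilbertian_iff {n : ℕ} (E : OpSpace n) :
    Hilbertian E ↔ Pool.Agent.H2Sep.Hilbertian (toOld E) := Iff.rfl

theorem homogeneous_iff {n : ℕ} (E : OpSpace n) :
    Homogeneous E ↔ Pool.Agent.H2Sep.Homogeneous (toOld E) := Iff.rfl

theorem nonseparable : ¬ Separable {E : OpSpace 2 | Hilbertian E ∧ Homogeneous E} := by
  rintro ⟨D, hD, hDc, hdense⟩
  refine Pool.Agent.H2Sep.H2_nonseparable ⟨toOld '' D, ?_, hDc.image _, ?_⟩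
  · rintro _ ⟨E, hE, rfl⟩
    exact hD hE
  · intro E hE ε hε
    obtain ⟨F, hF, hlt⟩ := hdense (ofOld E) hE ε hε
    exact ⟨toOld F, ⟨F, hF, rfl⟩, hlt⟩

end OS

end Pool.Agent.H2Sep
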